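import Mathlib

/-!
# MP_3dfed9_an : coordinate functionals of a Schauder basis are continuous; `ℓ₁` from a lower
estimate (section 8)
-/

set_option autoImplicit false

namespace Pool.Agent.L1F

open Finset Filter Topology

theorem basis_coord {Y : Type} [NormedAddCommGroup Y] [NormedSpace ℝ Y] [CompleteSpace Y]
    (e : ℕ → Y)
    (he : ∀ y : Y, ∃! a : ℕ → ℝ,
      Tendsto (fun N => ∑ n ∈ Finset.range N, a n • e n) atTop (𝓝 y)) :
    ∃ φ : ℕ → (Y →L[ℝ] ℝ), ∀ y : Y,
      Tendsto (fun N => ∑ n ∈ Finset.range N, φ n y • e n) atTop (𝓝 y) := by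
  classical
  choose a ha hauniq using fun y => (he y)
  simp only at ha hauniq
  -- the basis vectors are non-zero
  have hne : ∀ n, e n ≠ 0 := by
    intro n hn
    have h1 : (fun _ : ℕ => (0 : ℝ)) = a 0 := hauniq 0 _ (by simp)
    have h2 : (fun m : ℕ => if m = n then (1 : ℝ) else 0) = a 0 := by
      apply hauniq 0
      have : ∀ N, ∑ m ∈ Finset.range N, (if m = n then (1 : ℝ) else 0) • e m = 0 := by
        intro N
        apply Finset.sum_eq_zero
        intro m _
        by_cases hm : m = n
        · simp [hm, hn]
        · simp [hm]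
      simp only [this]
      exact tendsto_const_nhds
    have h3 := congrFun (h1.trans h2.symm) n
    simp at h3
  have hadd : ∀ y z, a (y + z) = a y + a z := by
    intro y z
    symm
    apply hauniq
    have := (ha y).add (ha z)
    refine this.congr fun N => ?_
    rw [← Finset.sum_add_distrib]
    apply Finset.sum_congr rfl
    intro n _
    simp [add_smul]
  have hsmul : ∀ (c : ℝ) y, a (c • y) = c • a y := by
    intro c y
    symm
    apply hauniq
    have := (ha y).const_smul c
    refine this.congr fun N => ?_
    rw [Finset.smul_sum]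
    apply Finset.sum_congr rfl
    intro n _
    simp [smul_smul]
  -- the partial sums are bounded
  have hbd : ∀ y, ∃ C : ℝ, ∀ N, ‖∑ n ∈ Finset.range N, a y n • e n‖ ≤ C := by
    intro y
    obtain ⟨C, hC⟩ := (Metric.isBounded_range_of_tendsto _ (ha y)).exists_norm_le
    exact ⟨C, fun N => hC _ (Set.mem_range_self N)⟩
  choose C hC using hbd
  let S : Y →ₗ[ℝ] (BoundedContinuousFunction ℕ Y) :=
    { toFun := fun y => BoundedContinuousFunction.ofNormedAddCommGroupDiscrete
        (fun N => ∑ n ∈ Finset.range N, a y n • e n) (C y) (hC y)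
      map_add' := fun y z => by
        ext N
        simp [hadd, add_smul, Finset.sum_add_distrib]
      map_smul' := fun c y => by
        ext N
        simp [hsmul, Finset.smul_sum, smul_smul] }
  have hS : ∀ y N, S y N = ∑ n ∈ Finset.range N, a y n • e n := fun y N => rfl
  have hcont : Continuous S := by
    apply LinearMap.continuous_of_seq_closed_graph
    intro u y s hu hs
    -- increments of `s`
    have hsN : ∀ N, Tendsto (fun k => S (u k) N) atTop (𝓝 (s N)) := by
      intro N
      have h1 : Continuous fun f : BoundedContinuousFunction ℕ Y => f N :=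
        (BoundedContinuousFunction.evalCLM ℝ N : BoundedContinuousFunction ℕ Y →L[ℝ] Y).continuous
      exact (h1.tendsto s).comp hs
    have h0 : s 0 = 0 := by
      have h1 := hsN 0
      simp only [hS, Finset.range_zero, Finset.sum_empty] at h1
      exact tendsto_nhds_unique h1 tendsto_const_nhds
    have hinc : ∀ N, ∃ b : ℝ, s (N + 1) - s N = b • e N := by
      intro N
      have h1 : Tendsto (fun k => S (u k) (N + 1) - S (u k) N) atTop (𝓝 (s (N + 1) - s N)) :=
        (hsN (N + 1)).sub (hsN N)
      have h2 : IsClosed ((Submodule.span ℝ {e N} : Submodule ℝ Y) : Set Y) :=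
        Submodule.closed_of_finiteDimensional _
      have h3 : s (N + 1) - s N ∈ ((Submodule.span ℝ {e N} : Submodule ℝ Y) : Set Y) := by
        apply h2.mem_of_tendsto h1
        filter_upwards with k
        rw [hS, hS, Finset.sum_range_succ, add_sub_cancel_left]
        exact Submodule.smul_mem _ _ (Submodule.mem_span_singleton_self _)
      obtain ⟨b, hb⟩ := Submodule.mem_span_singleton.mp h3
      exact ⟨b, hb.symm⟩
    choose b hb using hinc
    have hsum : ∀ N, s N = ∑ n ∈ Finset.range N, b n • e n := by
      intro N
      induction N with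
      | zero => simpa using h0
      | succ N ih => rw [Finset.sum_range_succ, ← ih, ← hb N]; abel
    have hlim : Tendsto (fun N => ∑ n ∈ Finset.range N, b n • e n) atTop (𝓝 y) := by
      rw [Metric.tendsto_atTop]
      intro ε hε
      obtain ⟨k1, hk1⟩ := (Metric.tendsto_atTop.mp hu) (ε / 3) (by positivity)
      obtain ⟨k2, hk2⟩ := (Metric.tendsto_atTop.mp hs) (ε / 3) (by positivity)
      set k := max k1 k2
      have e1 := hk1 k (le_max_left _ _)
      have e2 := hk2 k (le_max_right _ _)
      obtain ⟨N0, hN0⟩ := (Metric.tendsto_atTop.mp (ha (u k))) (ε / 3) (by positivity)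
      refine ⟨N0, fun N hN => ?_⟩
      have e3 := hN0 N hN
      rw [← hsum N]
      have e4 : dist (S (u k) N) (s N) < ε / 3 :=
        (BoundedContinuousFunction.dist_coe_le_dist N).trans_lt e2
      calc dist (s N) y ≤ dist (s N) (S (u k) N) + dist (S (u k) N) (u k) + dist (u k) y :=
            dist_triangle4 _ _ _ _
        _ < ε / 3 + ε / 3 + ε / 3 := by
          have e5 : dist (S (u k) N) (u k) < ε / 3 := e3
          rw [dist_comm (s N)]
          linarith
        _ = ε := by ring
    have hba : b = a y := hauniq y b hlim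
    ext N
    rw [hsum N, hS, hba]
  let SL : Y →L[ℝ] (BoundedContinuousFunction ℕ Y) := ⟨S, hcont⟩
  choose ψ hψ using fun n => SeparatingDual.exists_eq_one (R := ℝ) (hne n)
  let ev : ℕ → (BoundedContinuousFunction ℕ Y →L[ℝ] Y) := fun n =>
    BoundedContinuousFunction.evalCLM ℝ n
  refine ⟨fun n => (ψ n).comp ((ev (n + 1) - ev n).comp SL), fun y => ?_⟩
  refine (ha y).congr fun N => ?_
  apply Finset.sum_congr rfl
  intro n _
  congr 1
  have h1 : S y (n + 1) - S y n = a y n • e n := by
    rw [hS, hS, Finset.sum_range_succ, add_sub_cancel_left]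
  show a y n = ψ n (S y (n + 1) - S y n)
  rw [h1, map_smul, hψ, smul_eq_mul, mul_one]

end Pool.Agent.L1F
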