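import Pool.Agent.Work.MP_3dfed9_an.Defs

/-!
# MP_3dfed9_an : existence of a design (section 0)
-/

set_option autoImplicit false

namespace Pool.Agent.L1F

namespace DEx

open Finset

def ea (m : ℕ) : ℕ := 2 ^ (m + 4)

def eb (m : ℕ) : ℕ := ea m + 3 * (m + 1)

/-- a field with `2 ^ n` elements, `n > 0` -/
def GF (n : ℕ) : Type := GaloisField 2 n

noncomputable instance instFieldGF (n : ℕ) : Field (GF n) :=
  inferInstanceAs (Field (GaloisField 2 n))

instance instFiniteGF (n : ℕ) : Finite (GF n) :=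
  inferInstanceAs (Finite (GaloisField 2 n))

noncomputable instance instFGF (n : ℕ) : Fintype (GF n) := Fintype.ofFinite _

abbrev Lf (m : ℕ) : Type := GF (ea m)

abbrev Ef (m : ℕ) : Type := GF (eb m)

abbrev Af (m : ℕ) : Type := Lf m × Ef (m + 1) × Ef (m + 1)

theorem ea_pos (m : ℕ) : ea m ≠ 0 := by unfold ea; positivity

theorem eb_pos (m : ℕ) : eb m ≠ 0 := by unfold eb; omega

theorem card_L (m : ℕ) : Fintype.card (Lf m) = 2 ^ ea m := by
  rw [← Nat.card_eq_fintype_card]
  exact GaloisField.card 2 _ (ea_pos m)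

theorem card_E (m : ℕ) : Fintype.card (Ef m) = 2 ^ eb m := by
  rw [← Nat.card_eq_fintype_card]
  exact GaloisField.card 2 _ (eb_pos m)

theorem card_A (m : ℕ) : Fintype.card (Af m) = 2 ^ (ea m + 2 * eb (m + 1)) := by
  rw [Fintype.card_prod, Fintype.card_prod, card_L, card_E, ← pow_add, ← pow_add]
  congr 1
  ring

theorem card_H (m : ℕ) : Fintype.card (∀ k : Fin m, Af k) =
    2 ^ (∑ k ∈ range m, (ea k + 2 * eb (k + 1))) := by
  rw [Fintype.card_pi]
  simp only [card_A]
  rw [Finset.prod_pow_eq_pow_sum, Finset.sum_range]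

theorem ea_succ (m : ℕ) : ea (m + 1) = 2 * ea m := by unfold ea; ring

theorem le_ea (m : ℕ) : 6 * m + 12 ≤ ea m := by
  induction m with
  | zero => simp [ea]
  | succ m ih => rw [ea_succ]; omega

theorem sq_le_ea (m : ℕ) : 3 * m ^ 2 ≤ ea m + 98 := by
  induction m with
  | zero => simp
  | succ m ih =>
    have h := le_ea m
    rw [ea_succ]
    nlinarith

theorem sum_ea (m : ℕ) : ∑ k ∈ range m, (ea k + 2 * eb (k + 1)) + 80 =
    5 * ea m + 3 * m ^ 2 + 9 * m := by
  induction m with
  | zero => simp [ea]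
  | succ m ih =>
    rw [Finset.sum_range_succ]
    have h : eb (m + 1) = 2 * ea m + 3 * (m + 2) := by rw [eb, ea_succ]
    rw [h, ea_succ]
    nlinarith

theorem sum_le (m : ℕ) : ∑ k ∈ range m, (ea k + 2 * eb (k + 1)) ≤ 3 * eb (m + 1) := by
  have h1 := sum_ea m
  have h2 := sq_le_ea m
  have h : eb (m + 1) = 2 * ea m + 3 * (m + 2) := by rw [eb, ea_succ]
  rw [h]
  omega

theorem exists_xi (m : ℕ) : Nonempty ((Fin (m + 1) → Bool) ↪ Lf m) := by
  refine Function.Embedding.nonempty_of_card_le ?_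
  rw [card_L, Fintype.card_fun, Fintype.card_bool, Fintype.card_fin]
  exact Nat.pow_le_pow_right (by norm_num) (by have := le_ea m; omega)

theorem exists_zeta (m : ℕ) : Nonempty ((Fin (m + 1) → Bool) × Lf m ↪ Ef m) := by
  refine Function.Embedding.nonempty_of_card_le ?_
  rw [card_E, Fintype.card_prod, card_L, Fintype.card_fun, Fintype.card_bool, Fintype.card_fin,
    ← pow_add]
  exact Nat.pow_le_pow_right (by norm_num) (by unfold eb; omega)

theorem exists_c (m : ℕ) : Nonempty (Ef (m + 1) × Ef (m + 1) ↪ (Fin 5 → Lf m)) := by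
  refine Function.Embedding.nonempty_of_card_le ?_
  rw [Fintype.card_prod, card_E, Fintype.card_fun, card_L, Fintype.card_fin, ← pow_add, ← pow_mul]
  refine Nat.pow_le_pow_right (by norm_num) ?_
  have h : eb (m + 1) = 2 * ea m + 3 * (m + 2) := by rw [eb, ea_succ]
  have := le_ea m
  omega

theorem exists_gam (m : ℕ) : Nonempty ((∀ k : Fin m, Af k) ↪ (Fin 3 → Ef (m + 1))) := by
  refine Function.Embedding.nonempty_of_card_le ?_
  rw [card_H, Fintype.card_fun, card_E, Fintype.card_fin, ← pow_mul]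
  refine Nat.pow_le_pow_right (by norm_num) ?_
  have := sum_le m
  omega

noncomputable def xi (m : ℕ) : (Fin (m + 1) → Bool) ↪ Lf m := (exists_xi m).some

noncomputable def zeta (m : ℕ) : (Fin (m + 1) → Bool) × Lf m ↪ Ef m := (exists_zeta m).some

noncomputable def cc (m : ℕ) : Ef (m + 1) × Ef (m + 1) ↪ (Fin 5 → Lf m) := (exists_c m).some

noncomputable def gam (m : ℕ) : (∀ k : Fin m, Af k) ↪ (Fin 3 → Ef (m + 1)) := (exists_gam m).some

/-- restriction of the `x`-part -/
def rx (m : ℕ) (x : ℕ → Bool) : Fin (m + 1) → Bool := fun k => x k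

/-- restriction of a line -/
def rh (m : ℕ) (h : ∀ k, Af k) : ∀ k : Fin m, Af k := fun k => h k

noncomputable def lam (m : ℕ) (a : Af m) (x : ℕ → Bool) : Lf m :=
  a.1 + ∑ i : Fin 5, cc m a.2 i * xi m (rx m x) ^ ((i : ℕ) + 1)

noncomputable def valS (m : ℕ) (h : ∀ k, Af k) (x : ℕ → Bool) (l : Lf (m + 1)) : Ef (m + 1) :=
  (h m).2.1 + (h m).2.2 * zeta (m + 1) (rx (m + 1) x, l) +
      ∑ i : Fin 3, gam m (rh m h) i * zeta (m + 1) (rx (m + 1) x, l) ^ ((i : ℕ) + 2)

noncomputable def val (m : ℕ) (h : ∀ k, Af k) (x : ℕ → Bool) : Lf m → Ef m :=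
  match m with
  | 0 => fun _ => 0
  | m + 1 => valS m h x

theorem rx_congr {m : ℕ} {x x' : ℕ → Bool} (h : ∀ k ≤ m, x k = x' k) : rx m x = rx m x' :=
  funext fun k => h k (Nat.lt_succ_iff.1 k.2)

theorem rh_congr {m : ℕ} {h h' : ∀ k, Af k} (hh : ∀ k < m, h k = h' k) : rh m h = rh m h' :=
  funext fun k => hh k k.2

noncomputable def pre : PreDesign where
  A := Af
  L := Lf
  E := Ef
  fA := fun _ => inferInstance
  fL := fun _ => inferInstance
  fE := fun _ => inferInstance
  iA := fun _ => ⟨0⟩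
  iL := fun _ => ⟨0⟩
  iE := fun _ => ⟨0⟩
  lam := lam
  val := val
  lam_congr := fun m a x x' h => by
    unfold lam
    rw [rx_congr h]
  val_congr := fun m h h' x x' l hh hx => by
    cases m with
    | zero => rfl
    | succ m =>
      show (h m).2.1 + (h m).2.2 * zeta (m + 1) (rx (m + 1) x, l) +
          ∑ i : Fin 3, gam m (rh m h) i * zeta (m + 1) (rx (m + 1) x, l) ^ ((i : ℕ) + 2) =
        (h' m).2.1 + (h' m).2.2 * zeta (m + 1) (rx (m + 1) x', l) +
          ∑ i : Fin 3, gam m (rh m h') i * zeta (m + 1) (rx (m + 1) x', l) ^ ((i : ℕ) + 2)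
      rw [rx_congr hx, hh m (Nat.lt_succ_self m),
        rh_congr fun k hk => hh k (Nat.lt_succ_of_lt hk)]

theorem poly6 {K : Type} [Field K] {a a' : K} {c c' : Fin 5 → K} {z : Fin 6 → K}
    (hz : Function.Injective z)
    (h : ∀ j, a + ∑ i : Fin 5, c i * z j ^ ((i : ℕ) + 1) =
      a' + ∑ i : Fin 5, c' i * z j ^ ((i : ℕ) + 1)) : a = a' ∧ c = c' := by
  have h0 : (Fin.cons (a - a') (fun i => c i - c' i) : Fin 6 → K) = 0 := by
    refine Matrix.eq_zero_of_forall_index_sum_mul_pow_eq_zero hz fun j => ?_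
    rw [Fin.sum_univ_succ]
    simp only [Fin.cons_zero, Fin.val_zero, pow_zero, mul_one, Fin.cons_succ, Fin.val_succ]
    have h1 := h j
    simp only [sub_mul, Finset.sum_sub_distrib]
    linear_combination h1
  refine ⟨?_, funext fun i => ?_⟩
  · have := congrFun h0 0
    simpa [sub_eq_zero] using this
  · have := congrFun h0 i.succ
    simpa [sub_eq_zero] using this

theorem poly5 {K : Type} [Field K] {a a' b b' : K} {c c' : Fin 3 → K} {z : Fin 6 → K}
    (hz : Function.Injective z)
    (h : ∀ j, a + b * z j + ∑ i : Fin 3, c i * z j ^ ((i : ℕ) + 2) =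
      a' + b' * z j + ∑ i : Fin 3, c' i * z j ^ ((i : ℕ) + 2)) : a = a' ∧ b = b' ∧ c = c' := by
  have h0 : (Fin.cons (a - a') (Fin.cons (b - b') (fun i => c i - c' i)) : Fin 5 → K) = 0 := by
    refine Matrix.eq_zero_of_forall_index_sum_mul_pow_eq_zero
      (f := fun j : Fin 5 => z j.castSucc) (fun i j hij => Fin.castSucc_injective _ (hz hij))
      fun j => ?_
    rw [Fin.sum_univ_succ, Fin.sum_univ_succ]
    simp only [Fin.cons_zero, Fin.val_zero, pow_zero, mul_one, Fin.cons_succ, Fin.val_succ,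
      zero_add, pow_one]
    have h1 := h j.castSucc
    simp only [sub_mul, Finset.sum_sub_distrib]
    linear_combination h1
  refine ⟨?_, ?_, funext fun i => ?_⟩
  · have := congrFun h0 0
    simpa [sub_eq_zero] using this
  · have := congrFun h0 1
    have h2 : (Fin.cons (a - a') (Fin.cons (b - b') (fun i => c i - c' i)) : Fin 5 → K) 1 =
      b - b' := rfl
    rw [h2] at this
    exact sub_eq_zero.1 this
  · have := congrFun h0 i.succ.succ
    simpa [sub_eq_zero] using this

/-- the `x`-parts of branches of a line with distinct nodes of level `m` are distinct -/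
theorem x_ne {m : ℕ} {h : pre.Ln} {t t' : pre.Br} (ht : PreDesign.In h (m + 1) t)
    (ht' : PreDesign.In h (m + 1) t') (hne : ∃ k < m + 1, t k ≠ t' k) :
    rx m (PreDesign.xx t) ≠ rx m (PreDesign.xx t') := by
  intro he
  obtain ⟨k, hk, hne⟩ := hne
  apply hne
  have hx : ∀ j ≤ m, PreDesign.xx t j = PreDesign.xx t' j := fun j hj =>
    congrFun he ⟨j, Nat.lt_succ_iff.2 hj⟩
  obtain ⟨h1, h2⟩ := ht k hk
  obtain ⟨h1', h2'⟩ := ht' k hk
  have e1 : (t k).2.1 = (t' k).2.1 := by
    rw [h1, h1']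
    exact pre.lam_congr k _ _ _ fun j hj => hx j (by omega)
  refine Prod.ext (hx k (by omega)) (Prod.ext e1 ?_)
  rw [h2, h2', e1]
  exact pre.val_congr k _ _ _ _ _ (fun _ _ => rfl) fun j hj => hx j (by omega)

/-- the label of a branch -/
def lt (t : pre.Br) (k : ℕ) : Lf k := (t k).2.1

theorem t1 (m : ℕ) (h h' : ∀ k, Af k) (t : Fin 6 → pre.Br)
    (hne : ∀ i j, i ≠ j → ∃ k < m, t i k ≠ t j k)
    (ht : ∀ i, PreDesign.In (D := pre) h m (t i)) (ht' : ∀ i, PreDesign.In (D := pre) h' m (t i)) :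
    ∀ k < m, h k = h' k := by
  cases m with
  | zero => intro k hk; omega
  | succ m =>
    have hxi : Function.Injective fun i => rx m (PreDesign.xx (t i)) := by
      intro i j hij
      by_contra hn
      exact x_ne (ht i) (ht j) (hne i j hn) hij
    have hm : h m = h' m := by
      have hp := poly6 (K := Lf m) (a := (h m).1) (a' := (h' m).1) (c := cc m (h m).2)
        (c' := cc m (h' m).2) (z := fun j => xi m (rx m (PreDesign.xx (t j))))
        (fun i j hij => hxi ((xi m).injective hij)) fun j => by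
          have e1 := (ht j m (Nat.lt_succ_self m)).1
          have e2 := (ht' j m (Nat.lt_succ_self m)).1
          exact e1.symm.trans e2
      exact Prod.ext hp.1 ((cc m).injective hp.2)
    cases m with
    | zero =>
      intro k hk
      have : k = 0 := by omega
      subst this
      exact hm
    | succ m =>
      have hp := poly5 (K := Ef (m + 1)) (a := (h m).2.1) (a' := (h' m).2.1) (b := (h m).2.2)
        (b' := (h' m).2.2) (c := gam m (rh m h)) (c' := gam m (rh m h'))
        (z := fun j => zeta (m + 1) (rx (m + 1) (PreDesign.xx (t j)), lt (t j) (m + 1)))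
        (fun i j hij => hxi (congrArg Prod.fst ((zeta (m + 1)).injective hij))) fun j => by
          have e1 := (ht j (m + 1) (Nat.lt_succ_self _)).2
          have e2 := (ht' j (m + 1) (Nat.lt_succ_self _)).2
          exact e1.symm.trans e2
      obtain ⟨p1, p2, p3⟩ := hp
      have hr := (gam m).injective p3
      have h2 : (h m).2 = (h' m).2 := Prod.ext p1 p2
      have hm' : h m = h' m := by
        refine Prod.ext ?_ h2
        have e1 := (ht 0 m (by omega)).1
        have e2 := (ht' 0 m (by omega)).1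
        have e3 : lam m (h m) (PreDesign.xx (t 0)) = lam m (h' m) (PreDesign.xx (t 0)) :=
          e1.symm.trans e2
        unfold lam at e3
        rw [h2] at e3
        exact add_right_cancel e3
      intro k hk
      rcases Nat.lt_succ_iff_lt_or_eq.1 hk with hk1 | hk1
      · rcases Nat.lt_succ_iff_lt_or_eq.1 hk1 with hk2 | hk2
        · exact congrFun hr ⟨k, hk2⟩
        · rw [hk2]; exact hm'
      · rw [hk1]; exact hm

theorem val_update (m : ℕ) (h : ∀ k, Af k) (a : Af m) (x : ℕ → Bool) (l : Lf (m + 1)) :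
    val (m + 1) (Function.update h m a) x l = a.2.1 + a.2.2 * zeta (m + 1) (rx (m + 1) x, l) +
      ∑ i : Fin 3, gam m (rh m h) i * zeta (m + 1) (rx (m + 1) x, l) ^ ((i : ℕ) + 2) := by
  have h1 : rh m (Function.update h m a) = rh m h :=
    rh_congr fun k hk => Function.update_of_ne hk.ne _ _
  show ((Function.update h m a) m).2.1 + ((Function.update h m a) m).2.2 *
      zeta (m + 1) (rx (m + 1) x, l) + ∑ i : Fin 3, gam m (rh m (Function.update h m a)) i *
        zeta (m + 1) (rx (m + 1) x, l) ^ ((i : ℕ) + 2) = _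
  rw [h1, Function.update_self]

open scoped Classical in
theorem loc1 (m : ℕ) (h : ∀ k, Af k) (x : ℕ → Bool) (lm : Lf m) (l : Lf (m + 1))
    (v : Ef (m + 1)) :
    (Finset.univ.filter (fun a : Af m =>
      lam m a x = lm ∧ val (m + 1) (Function.update h m a) x l = v)).card =
      Fintype.card (Ef (m + 1)) := by
  set z := zeta (m + 1) (rx (m + 1) x, l) with hz
  set K := ∑ i : Fin 3, gam m (rh m h) i * z ^ ((i : ℕ) + 2) with hK
  let F : Ef (m + 1) → Af m := fun w =>
    (lm - ∑ i : Fin 5, cc m (v - w * z - K, w) i * xi m (rx m x) ^ ((i : ℕ) + 1),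
      (v - w * z - K, w))
  rw [← Finset.card_univ]
  symm
  refine Finset.card_bij (fun w _ => F w) ?_ ?_ ?_
  · intro w _
    rw [Finset.mem_filter]
    refine ⟨Finset.mem_univ _, ?_, ?_⟩
    · show lm - ∑ i : Fin 5, cc m (v - w * z - K, w) i * xi m (rx m x) ^ ((i : ℕ) + 1) +
        ∑ i : Fin 5, cc m (v - w * z - K, w) i * xi m (rx m x) ^ ((i : ℕ) + 1) = lm
      ring
    · rw [val_update]
      show v - w * z - K + w * z + K = v
      ring
  · intro w _ w' _ hw
    exact congrArg (fun a : Af m => a.2.2) hw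
  · intro a ha
    rw [Finset.mem_filter] at ha
    obtain ⟨-, h1, h2⟩ := ha
    rw [val_update, ← hz, ← hK] at h2
    refine ⟨a.2.2, Finset.mem_univ _, ?_⟩
    have e1 : v - a.2.2 * z - K = a.2.1 := by rw [← h2]; ring
    show (lm - ∑ i : Fin 5, cc m (v - a.2.2 * z - K, a.2.2) i * xi m (rx m x) ^ ((i : ℕ) + 1),
      (v - a.2.2 * z - K, a.2.2)) = a
    rw [e1, ← h1]
    unfold lam
    refine Prod.ext ?_ rfl
    show a.1 + ∑ i : Fin 5, cc m a.2 i * xi m (rx m x) ^ ((i : ℕ) + 1) -
      ∑ i : Fin 5, cc m a.2 i * xi m (rx m x) ^ ((i : ℕ) + 1) = a.1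
    ring

open scoped Classical in
theorem loc2 (m : ℕ) (h : ∀ k, Af k) (x x' : ℕ → Bool) (lm : Lf m) (l l' : Lf (m + 1))
    (v v' : Ef (m + 1)) (hne : l ≠ l' ∨ ∃ k ≤ m + 1, x k ≠ x' k) :
    (Finset.univ.filter (fun a : Af m =>
      lam m a x = lm ∧ val (m + 1) (Function.update h m a) x l = v ∧
        val (m + 1) (Function.update h m a) x' l' = v')).card ≤ 1 := by
  rw [Finset.card_le_one]
  intro a ha b hb
  rw [Finset.mem_filter] at ha hb
  obtain ⟨-, a1, a2, a3⟩ := ha
  obtain ⟨-, b1, b2, b3⟩ := hb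
  rw [val_update] at a2 a3 b2 b3
  set z := zeta (m + 1) (rx (m + 1) x, l) with hz
  set z' := zeta (m + 1) (rx (m + 1) x', l') with hz'
  have hzz : z ≠ z' := by
    intro he
    have := (zeta (m + 1)).injective he
    rcases hne with h1 | ⟨k, hk, h1⟩
    · exact h1 (congrArg Prod.snd this)
    · exact h1 (congrFun (congrArg Prod.fst this) ⟨k, Nat.lt_succ_iff.2 hk⟩)
  have e1 : a.2.1 + a.2.2 * z = b.2.1 + b.2.2 * z := by
    have := a2.trans b2.symm
    exact add_right_cancel this
  have e2 : a.2.1 + a.2.2 * z' = b.2.1 + b.2.2 * z' := by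
    have := a3.trans b3.symm
    exact add_right_cancel this
  have e3 : (a.2.2 - b.2.2) * (z - z') = 0 := by linear_combination e1 - e2
  have e4 : a.2.2 = b.2.2 := by
    rcases mul_eq_zero.1 e3 with h0 | h0
    · exact sub_eq_zero.1 h0
    · exact absurd (sub_eq_zero.1 h0) hzz
  have e5 : a.2.1 = b.2.1 := by
    rw [e4] at e1
    exact add_right_cancel e1
  have e6 : a.2 = b.2 := Prod.ext e5 e4
  refine Prod.ext ?_ e6
  have e7 := a1.trans b1.symm
  unfold lam at e7
  rw [e6] at e7
  exact add_right_cancel e7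

theorem size (m : ℕ) : 2 ^ (m + 1) * Fintype.card (Lf m) * 4 ^ (m + 1) ≤ Fintype.card (Ef m) := by
  rw [card_L, card_E, show (4 : ℕ) = 2 ^ 2 by norm_num, ← pow_mul, ← pow_add, ← pow_add]
  refine Nat.pow_le_pow_right (by norm_num) ?_
  unfold eb
  omega

end DEx

theorem exists_design : Nonempty Design := by
  exact ⟨{ DEx.pre with
    t1 := DEx.t1
    loc1 := DEx.loc1
    loc2 := DEx.loc2
    size := DEx.size }⟩

end Pool.Agent.L1F
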