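import Pool.Agent.Work.MP_3dfed9_an.NormAPI

/-!
# MP_3dfed9_an : congruences, `q_t(r) = q_t(th)` and the sparse bound (U) (section 2)
-/

set_option autoImplicit false

namespace Pool.Agent.L1F

open Finset

namespace PreDesign

variable {D : PreDesign}

theorem In_of_congr {h h' : D.Ln} {t t' : D.Br} {m : ℕ} (hh : ∀ k < m, h k = h' k)
    (ht : ∀ k < m, t k = t' k) (hi : In h m t) : In h' m t' := by
  intro j hj
  have hx : ∀ k ≤ j, xx t k = xx t' k := fun k hk => by
    show (t k).1 = (t' k).1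
    rw [ht k (by omega)]
  obtain ⟨h1, h2⟩ := hi j hj
  rw [← ht j hj, ← hh j hj]
  constructor
  · rw [h1]
    exact D.lam_congr j (h j) _ _ hx
  · rw [h2]
    exact D.val_congr j h h' _ _ _ (fun k hk => hh k (by omega)) hx

theorem In_congr {h h' : D.Ln} {t t' : D.Br} {m : ℕ} (hh : ∀ k < m, h k = h' k)
    (ht : ∀ k < m, t k = t' k) : In h m t ↔ In h' m t' :=
  ⟨In_of_congr hh ht, In_of_congr (fun k hk => (hh k hk).symm) (fun k hk => (ht k hk).symm)⟩

theorem InU_of_congr {h h' : D.Ln} {t t' : D.Br} {m : ℕ} (hh : ∀ k < m, h k = h' k)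
    (ht : ∀ k < m + 1, t k = t' k) (hi : InU h m t) : InU h' m t' := by
  have hx : ∀ k ≤ m, xx t k = xx t' k := fun k hk => by
    show (t k).1 = (t' k).1
    rw [ht k (by omega)]
  refine ⟨In_of_congr hh (fun k hk => ht k (by omega)) hi.1, ?_⟩
  have h2 := hi.2
  rw [← ht m (by omega), h2]
  exact D.val_congr m h h' _ _ _ hh hx

theorem InU_congr {h h' : D.Ln} {t t' : D.Br} {m : ℕ} (hh : ∀ k < m, h k = h' k)
    (ht : ∀ k < m + 1, t k = t' k) : InU h m t ↔ InU h' m t' :=
  ⟨InU_of_congr hh ht, InU_of_congr (fun k hk => (hh k hk).symm) (fun k hk => (ht k hk).symm)⟩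

theorem In_mono {h : D.Ln} {t : D.Br} {m m' : ℕ} (hm : m ≤ m') (hi : In h m' t) : In h m t :=
  fun j hj => hi j (by omega)

theorem InU_of_In {h : D.Ln} {t : D.Br} {m m' : ℕ} (hm : m < m') (hi : In h m' t) : InU h m t :=
  ⟨In_mono hm.le hi, (hi m hm).2⟩

theorem In_tb (h : D.Ln) (x : ℕ → Bool) (m : ℕ) : In h m (tb h x) := by
  intro j _
  exact ⟨rfl, rfl⟩

theorem tb_congr {h h' : D.Ln} {x x' : ℕ → Bool} {m : ℕ} (hh : ∀ k < m, h k = h' k)
    (hx : ∀ k < m, x k = x' k) : ∀ k < m, tb h x k = tb h' x' k := by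
  intro k hk
  have h1 : D.lam k (h k) x = D.lam k (h' k) x' := by
    rw [hh k hk]
    exact D.lam_congr k _ _ _ (fun j hj => hx j (by omega))
  have h2 : D.val k h x (D.lam k (h k) x) = D.val k h' x' (D.lam k (h' k) x') := by
    rw [h1]
    exact D.val_congr k h h' _ _ _ (fun j hj => hh j (by omega)) (fun j hj => hx j (by omega))
  show (x k, D.lam k (h k) x, D.val k h x (D.lam k (h k) x)) =
    (x' k, D.lam k (h' k) x', D.val k h' x' (D.lam k (h' k) x'))
  rw [h2, h1, hx k hk]

theorem eq_tb_of_In {h : D.Ln} {t : D.Br} {m : ℕ} (hi : In h m t) :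
    ∀ k < m, t k = tb h (xx t) k := by
  intro k hk
  obtain ⟨h1, h2⟩ := hi k hk
  rw [h1] at h2
  refine Prod.ext rfl (Prod.ext h1 h2)

theorem update_agree {t t' : D.Br} {m : ℕ} (ht : ∀ k < m, t k = t' k) (c : D.Io m) :
    ∀ k < m + 1, Function.update t m c k = Function.update t' m c k := by
  intro k hk
  by_cases hkm : k = m
  · subst hkm
    simp
  · rw [Function.update_of_ne hkm, Function.update_of_ne hkm]
    exact ht k (by omega)

theorem rv_congr {h h' : D.Ln} {t t' : D.Br} {m : ℕ} (hh : ∀ k < m, h k = h' k)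
    (ht : ∀ k < m, t k = t' k) : rv h m t = rv h' m t' := by
  classical
  unfold rv
  have h1 : nd t m = nd t' m := nd_eq_iff.2 ⟨rfl, ht⟩
  rw [h1]
  congr 1
  refine Finset.sum_congr rfl fun c _ => ?_
  have h2 : nd (Function.update t m c) (m + 1) = nd (Function.update t' m c) (m + 1) :=
    nd_eq_iff.2 ⟨rfl, update_agree ht c⟩
  have h3 : InU h m (Function.update t m c) ↔ InU h' m (Function.update t' m c) :=
    InU_congr hh (update_agree ht c)
  rw [h2]
  simp only [h3]

theorem thv_congr {h h' : D.Ln} {t t' : D.Br} {m : ℕ} (hh : ∀ k < m, h k = h' k)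
    (ht : ∀ k < m, t k = t' k) : thv h m t = thv h' m t' := by
  classical
  unfold thv
  refine Finset.sum_congr rfl fun c _ => ?_
  have h2 : nd (Function.update t m c) (m + 1) = nd (Function.update t' m c) (m + 1) :=
    nd_eq_iff.2 ⟨rfl, update_agree ht c⟩
  have h3 : InU h m (Function.update t m c) ↔ InU h' m (Function.update t' m c) :=
    InU_congr hh (update_agree ht c)
  rw [h2]
  simp only [h3]

theorem Xv_congr {h h' : D.Ln} (n m1 : ℕ) (ε : (ℕ → Bool) → ℝ) (hh : ∀ k < m1, h k = h' k) :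
    Xv h n m1 ε = Xv h' n m1 ε := by
  unfold Xv
  refine Finset.sum_congr rfl fun k hk => Finset.sum_congr rfl fun y _ => ?_
  have hk' := (Finset.mem_Ico.1 hk).2
  have hh' : ∀ j < k, h j = h' j := fun j hj => hh j (by omega)
  rw [rv_congr hh' (tb_congr hh' (fun _ _ => rfl))]

theorem brk_congr (φ : D.V →ₗ[ℝ] ℝ) {h h' : D.Ln} {t t' : D.Br} {m : ℕ}
    (hh : ∀ k < m, h k = h' k) (ht : ∀ k < m, t k = t' k) : brk φ h m t = brk φ h' m t' := by
  classical
  unfold brk
  rw [rv_congr hh ht]
  congr 1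
  refine Finset.sum_congr rfl fun y _ => ?_
  have h1 : (∀ i : Fin m, y i = xx t i) ↔ (∀ i : Fin m, y i = xx t' i) := by
    have h2 : ∀ i : Fin m, xx t i = xx t' i := fun i => by
      show (t i).1 = (t' i).1
      rw [ht i i.2]
    constructor
    · intro h3 i
      rw [h3 i, h2 i]
    · intro h3 i
      rw [h3 i, h2 i]
  simp only [h1]
  rw [rv_congr hh (tb_congr hh (fun _ _ => rfl))]

/-- all children together -/
theorem tot_children (t : D.Br) (m : ℕ) (t' : D.Br) (hm : 1 ≤ m) :
    tot t (∑ c : D.Io m, bv (nd (Function.update t' m c) (m + 1))) = tot t (bv (nd t' m)) := by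
  classical
  rw [map_sum]
  have h1 : ∀ c : D.Io m, tot t (bv (nd (Function.update t' m c) (m + 1))) =
      if c = t m then (if (∀ k < m, t' k = t k) then (1 : ℝ) else 0) else 0 := by
    intro c
    rw [tot_bv]
    have h2 : (0 < (nd (Function.update t' m c) (m + 1)).1 ∧
        nd (Function.update t' m c) (m + 1) = nd t (nd (Function.update t' m c) (m + 1)).1) ↔
        (c = t m ∧ ∀ k < m, t' k = t k) := by
      rw [nd_fst, nd_eq_iff]
      constructor
      · rintro ⟨-, -, h3⟩
        constructor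
        · have := h3 m (by omega)
          simpa using this
        · intro k hk
          have := h3 k (by omega)
          rwa [Function.update_of_ne (by omega)] at this
      · rintro ⟨h3, h4⟩
        refine ⟨by omega, rfl, fun k hk => ?_⟩
        by_cases hkm : k = m
        · subst hkm
          simpa using h3
        · rw [Function.update_of_ne hkm]
          exact h4 k (by omega)
    by_cases h3 : c = t m
    · rw [if_pos h3]
      by_cases h4 : ∀ k < m, t' k = t k
      · rw [if_pos h4, if_pos (h2.2 ⟨h3, h4⟩)]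
      · rw [if_neg h4, if_neg (fun h5 => h4 (h2.1 h5).2)]
    · rw [if_neg h3, if_neg (fun h5 => h3 (h2.1 h5).1)]
  rw [Finset.sum_congr rfl (fun c _ => h1 c), Finset.sum_ite_eq', if_pos (Finset.mem_univ _),
    tot_bv]
  have h2 : (0 < (nd t' m).1 ∧ nd t' m = nd t (nd t' m).1) ↔ (∀ k < m, t' k = t k) := by
    rw [nd_fst, nd_eq_iff]
    constructor
    · rintro ⟨-, -, h3⟩
      exact h3
    · intro h3
      exact ⟨by omega, rfl, h3⟩
  by_cases h4 : ∀ k < m, t' k = t k
  · rw [if_pos h4, if_pos (h2.2 h4)]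
  · rw [if_neg h4, if_neg (fun h5 => h4 (h2.1 h5))]

/-- `q_t` of the relation vectors -/
theorem tot_rv_eq (t : D.Br) (h : D.Ln) (m : ℕ) (t' : D.Br) (hm : 1 ≤ m) (hi : In h m t') :
    tot t (rv h m t') = tot t (thv h m t') := by
  classical
  have _ := hi
  have h1 : (∑ c : D.Io m,
      (if InU h m (Function.update t' m c) then bv (nd (Function.update t' m c) (m + 1)) else 0)) +
      thv h m t' = ∑ c : D.Io m, bv (nd (Function.update t' m c) (m + 1)) := by
    unfold thv
    rw [← Finset.sum_add_distrib]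
    refine Finset.sum_congr rfl fun c _ => ?_
    by_cases h2 : InU h m (Function.update t' m c)
    · rw [if_pos h2, if_pos h2, add_zero]
    · rw [if_neg h2, if_neg h2, zero_add]
  have h2 := tot_children t m t' hm
  rw [← h1, map_add] at h2
  unfold rv
  rw [map_sub]
  linarith

theorem thv_apply (h : D.Ln) (k : ℕ) (t' t : D.Br) (m : ℕ)
    [Decidable (k = m ∧ (∀ j < m, t' j = t j) ∧ ¬ InU h m t)] :
    thv h k t' (nd t (m + 1)) =
      if k = m ∧ (∀ j < m, t' j = t j) ∧ ¬ InU h m t then (1 : ℝ) else 0 := by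
  classical
  unfold thv
  rw [Finsupp.finsetSum_apply]
  by_cases hk : k = m
  · subst hk
    have h1 : ∀ c : D.Io k, (if InU h k (Function.update t' k c) then (0 : D.V)
        else bv (nd (Function.update t' k c) (k + 1))) (nd t (k + 1)) =
        if c = t k then (if (∀ j < k, t' j = t j) ∧ ¬ InU h k t then (1 : ℝ) else 0) else 0 := by
      intro c
      by_cases h2 : c = t k ∧ ∀ j < k, t' j = t j
      · have h3 : ∀ j < k + 1, Function.update t' k c j = t j := by
          intro j hj
          by_cases hjk : j = k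
          · subst hjk
            simpa using h2.1
          · rw [Function.update_of_ne hjk]
            exact h2.2 j (by omega)
        have h4 : InU h k (Function.update t' k c) ↔ InU h k t := InU_congr (fun _ _ => rfl) h3
        have h5 : nd (Function.update t' k c) (k + 1) = nd t (k + 1) := nd_eq_iff.2 ⟨rfl, h3⟩
        rw [if_pos h2.1]
        by_cases h6 : InU h k t
        · rw [if_pos (h4.2 h6), if_neg (fun h7 => h7.2 h6)]
          rfl
        · rw [if_neg (fun h7 => h6 (h4.1 h7)), if_pos ⟨h2.2, h6⟩, h5]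
          simp [bv]
      · have h3 : nd (Function.update t' k c) (k + 1) ≠ nd t (k + 1) := by
          intro h4
          apply h2
          have h5 := (nd_eq_iff.1 h4).2
          refine ⟨?_, fun j hj => ?_⟩
          · have := h5 k (by omega)
            simpa using this
          · have := h5 j (by omega)
            rwa [Function.update_of_ne (by omega)] at this
        have h4 : (if c = t k then (if (∀ j < k, t' j = t j) ∧ ¬ InU h k t then (1 : ℝ) else 0)
            else 0) = 0 := by
          by_cases h5 : c = t k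
          · rw [if_pos h5, if_neg (fun h6 => h2 ⟨h5, h6.1⟩)]
          · rw [if_neg h5]
        rw [h4]
        by_cases h5 : InU h k (Function.update t' k c)
        · rw [if_pos h5]
          rfl
        · rw [if_neg h5]
          unfold bv
          rw [Finsupp.single_apply, if_neg h3]
    rw [Finset.sum_congr rfl (fun c _ => h1 c), Finset.sum_ite_eq', if_pos (Finset.mem_univ _)]
    by_cases h2 : (∀ j < k, t' j = t j) ∧ ¬ InU h k t
    · rw [if_pos h2, if_pos ⟨rfl, h2⟩]
    · rw [if_neg h2, if_neg (fun h3 => h2 h3.2)]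
  · rw [if_neg (fun h2 => hk h2.1)]
    refine Finset.sum_eq_zero fun c _ => ?_
    by_cases h5 : InU h k (Function.update t' k c)
    · rw [if_pos h5]
      rfl
    · rw [if_neg h5]
      unfold bv
      rw [Finsupp.single_apply, if_neg]
      intro h6
      have := (nd_eq_iff.1 h6).1
      omega

theorem ext_restrict {m : ℕ} (x : ℕ → Bool) (k : ℕ) (hk : k < m) :
    ext (A := fun _ => Bool) (fun k : Fin m => x k) k = x k := by
  unfold ext
  rw [dif_pos hk]

theorem tb_agree_iff (h : D.Ln) (m : ℕ) (t : D.Br) (y : Fin m → Bool) :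
    (∀ j < m, tb h (ext (A := fun _ => Bool) y) j = t j) ↔
      (In h m t ∧ y = fun k : Fin m => xx t k) := by
  constructor
  · intro h1
    refine ⟨In_of_congr (fun _ _ => rfl) h1 (In_tb h _ m), ?_⟩
    funext k
    have h2 := h1 k k.2
    have h3 : (tb h (ext (A := fun _ => Bool) y) k).1 = (t k).1 := by rw [h2]
    have h4 : ext (A := fun _ => Bool) y k = (t k).1 := h3
    unfold ext at h4
    rw [dif_pos k.2] at h4
    exact h4
  · rintro ⟨h1, h2⟩ j hj
    subst h2
    rw [eq_tb_of_In h1 j hj]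
    exact tb_congr (fun _ _ => rfl) (fun k hk => ext_restrict (xx t) k hk) j hj

/-- coordinates of `Zv` -/
theorem Zv_apply (h : D.Ln) (n m1 : ℕ) (ε : (ℕ → Bool) → ℝ) (t : D.Br) (m : ℕ)
    [Decidable (In h m t ∧ ¬ InU h m t)] :
    Zv h n m1 ε (nd t (m + 1)) =
      if m ∈ Finset.Ico n m1 then
        if In h m t ∧ ¬ InU h m t then ε (ext (A := fun _ => Bool) (fun k : Fin m => xx t k)) else 0
      else 0 := by
  classical
  unfold Zv
  rw [Finsupp.finsetSum_apply]
  have h1 : ∀ k ∈ Finset.Ico n m1, (∑ y : (Fin k → Bool),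
      ε (ext (A := fun _ => Bool) y) • thv h k (tb h (ext (A := fun _ => Bool) y)))
        (nd t (m + 1)) = if k = m then
          (if In h m t ∧ ¬ InU h m t then
            ε (ext (A := fun _ => Bool) (fun k : Fin m => xx t k)) else 0) else 0 := by
    intro k _
    rw [Finsupp.finsetSum_apply]
    by_cases hk : k = m
    · subst hk
      rw [if_pos rfl]
      have h2 : ∀ y : Fin k → Bool, (ε (ext (A := fun _ => Bool) y) •
          thv h k (tb h (ext (A := fun _ => Bool) y))) (nd t (k + 1)) =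
          if y = (fun j : Fin k => xx t j) then (if In h k t ∧ ¬ InU h k t then
            ε (ext (A := fun _ => Bool) (fun j : Fin k => xx t j)) else 0) else 0 := by
        intro y
        rw [Finsupp.smul_apply, thv_apply, smul_eq_mul]
        by_cases h3 : y = (fun j : Fin k => xx t j)
        · rw [if_pos h3]
          by_cases h4 : In h k t ∧ ¬ InU h k t
          · rw [if_pos h4, if_pos ⟨rfl, (tb_agree_iff h k t y).2 ⟨h4.1, h3⟩, h4.2⟩, mul_one, h3]
          · rw [if_neg h4, if_neg, mul_zero]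
            rintro ⟨-, h5, h6⟩
            exact h4 ⟨((tb_agree_iff h k t y).1 h5).1, h6⟩
        · rw [if_neg h3, if_neg, mul_zero]
          rintro ⟨-, h5, h6⟩
          exact h3 ((tb_agree_iff h k t y).1 h5).2
      rw [Finset.sum_congr rfl (fun y _ => h2 y), Finset.sum_ite_eq', if_pos (Finset.mem_univ _)]
    · rw [if_neg hk]
      refine Finset.sum_eq_zero fun y _ => ?_
      rw [Finsupp.smul_apply, thv_apply, if_neg (fun h2 => hk h2.1), smul_zero]
  rw [Finset.sum_congr rfl h1, Finset.sum_ite_eq']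

theorem exit_unique {h : D.Ln} {t : D.Br} {m m' : ℕ} (h1 : In h m t ∧ ¬ InU h m t)
    (h2 : In h m' t ∧ ¬ InU h m' t) : m = m' := by
  rcases lt_trichotomy m m' with h3 | h3 | h3
  · exact absurd (InU_of_In h3 h2.1) h1.2
  · exact h3
  · exact absurd (InU_of_In h3 h1.1) h2.2

theorem sq_v_Zv_le (h : D.Ln) (n m1 : ℕ) (ε : (ℕ → Bool) → ℝ) (hε : ∀ x, |ε x| ≤ 1) (I : Seg D)
    [Decidable (Exits h I)] :
    (I.v (Zv h n m1 ε)) ^ 2 ≤ if Exits h I then 1 else 0 := by
  classical
  unfold Seg.v segv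
  by_cases hE : Exits h I
  · rw [if_pos hE]
    obtain ⟨m0, ha, hb, hi, hu⟩ := hE
    rw [Finset.sum_eq_single (m0 + 1)]
    · rw [Zv_apply]
      by_cases h1 : m0 ∈ Finset.Ico n m1
      · rw [if_pos h1, if_pos ⟨hi, hu⟩]
        rw [← sq_abs]
        exact pow_le_one₀ (abs_nonneg _) (hε _)
      · rw [if_neg h1]
        norm_num
    · intro m hm hne
      have hm1 := Finset.mem_Ioc.1 hm
      obtain ⟨j, rfl⟩ : ∃ j, m = j + 1 := ⟨m - 1, by omega⟩
      rw [Zv_apply]
      split_ifs with h1 h2
      · exact absurd (congrArg (· + 1) (exit_unique h2 ⟨hi, hu⟩)) hne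
      · rfl
      · rfl
    · intro h1
      exact absurd (Finset.mem_Ioc.2 ⟨by omega, by omega⟩) h1
  · rw [if_neg hE]
    have h1 : ∑ m ∈ Finset.Ioc I.a I.b, Zv h n m1 ε (nd I.t m) = 0 := by
      refine Finset.sum_eq_zero fun m hm => ?_
      have hm1 := Finset.mem_Ioc.1 hm
      obtain ⟨j, rfl⟩ : ∃ j, m = j + 1 := ⟨m - 1, by omega⟩
      rw [Zv_apply]
      split_ifs with h2 h3
      · exact absurd ⟨j, by omega, by omega, h3.1, h3.2⟩ hE
      · rfl
      · rfl
    rw [h1]
    norm_num

/-- **the sparse bound** -/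
theorem N_Zv_le (h : D.Ln) (n m1 : ℕ) (ε : (ℕ → Bool) → ℝ) (hε : ∀ x, |ε x| ≤ 1) :
    N 6 (Zv h n m1 ε) ≤ 3 := by
  classical
  refine N_le 6 _ 3 (by norm_num) fun S I hS => ?_
  have h1 := hS.2 h
  have h2 : (S.filter (fun i => Exits h (I i))).card ≤ 6 := by
    have h3 : (((S.filter (fun i => Exits h (I i))).card : ℕ) : ℕ∞) ≤ ((6 : ℕ) : ℕ∞) := by
      exact h1
    exact_mod_cast h3
  calc ∑ i ∈ S, ((I i).v (Zv h n m1 ε)) ^ 2
      ≤ ∑ i ∈ S, (if Exits h (I i) then (1 : ℝ) else 0) :=
        Finset.sum_le_sum fun i _ => sq_v_Zv_le h n m1 ε hε (I i)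
    _ = ((S.filter (fun i => Exits h (I i))).card : ℝ) := by
        rw [Finset.sum_boole]
    _ ≤ 6 := by exact_mod_cast h2
    _ ≤ 3 ^ 2 := by norm_num

end PreDesign

end Pool.Agent.L1F
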