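import Pool.Agent.Work.MP_3dfed9_an.Core
import Pool.Agent.Work.MP_3dfed9_an.SparseBound

/-!
# MP_3dfed9_an : the space `X` (sections 2 and 4)
-/

set_option autoImplicit false

namespace Pool.Agent.L1F

open Finset PreDesign

/-- completion of the quotient of a seminormed space -/
theorem exists_banach_quotient {V : Type} [AddCommGroup V] [Module ℝ V] (P : V → ℝ)
    (h0 : ∀ v, 0 ≤ P v) (hs : ∀ (a : ℝ) (v : V), P (a • v) = |a| * P v)
    (ht : ∀ v w, P (v + w) ≤ P v + P w) (W : Submodule ℝ V) :
    ∃ (X : Type) (_ : NormedAddCommGroup X) (_ : NormedSpace ℝ X) (_ : CompleteSpace X)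
      (e : V →ₗ[ℝ] X), DenseRange e ∧ (∀ v, ‖e v‖ ≤ P v) ∧ (∀ v ∈ W, e v = 0) ∧
        ∀ v, ∀ ε > 0, ∃ w ∈ W, P (v + w) < ‖e v‖ + ε := by
  let : Norm V := ⟨P⟩
  have core : SeminormedSpace.Core ℝ V :=
    { norm_nonneg := h0
      norm_smul := fun c v => hs c v
      norm_triangle := ht }
  let : SeminormedAddCommGroup V := SeminormedAddCommGroup.ofCore core
  let : NormedSpace ℝ V := { norm_smul_le := fun c v => (hs c v).le }
  let e : V →ₗ[ℝ] UniformSpace.Completion (V ⧸ W) :=
    (UniformSpace.Completion.toComplₗᵢ (𝕜 := ℝ) (E := V ⧸ W)).toLinearMap ∘ₗ W.mkQ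
  have he : ∀ v, ‖e v‖ = ‖(Submodule.Quotient.mk v : V ⧸ W)‖ := fun v =>
    UniformSpace.Completion.norm_coe _
  refine ⟨UniformSpace.Completion (V ⧸ W), inferInstance, inferInstance, inferInstance, e,
    ?_, ?_, ?_, ?_⟩
  · have h1 : DenseRange ((↑) : (V ⧸ W) → UniformSpace.Completion (V ⧸ W)) :=
      UniformSpace.Completion.denseRange_coe
    exact h1.comp (Submodule.Quotient.mk_surjective W).denseRange
      (UniformSpace.Completion.continuous_coe _)
  · intro v
    rw [he]
    exact Submodule.Quotient.norm_mk_le W v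
  · intro v hv
    have h1 : W.mkQ v = 0 := by
      rw [Submodule.mkQ_apply]
      exact (Submodule.Quotient.mk_eq_zero W).2 hv
    show (UniformSpace.Completion.toComplₗᵢ (𝕜 := ℝ) (E := V ⧸ W)) (W.mkQ v) = 0
    rw [h1, map_zero]
  · intro v ε hε
    obtain ⟨m, hm, hlt⟩ := Submodule.Quotient.norm_mk_lt (Submodule.Quotient.mk v : V ⧸ W) hε
    refine ⟨m - v, (Submodule.Quotient.eq W).1 hm, ?_⟩
    rw [he, add_sub_cancel]
    exact hlt

theorem exists_space (D : Design) :
    ∃ (X : Type) (_ : NormedAddCommGroup X) (_ : NormedSpace ℝ X) (_ : CompleteSpace X)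
      (_ : TopologicalSpace.SeparableSpace X) (B : D.toPreDesign.V →ₗ[ℝ] X),
      Good D X B ∧
      ¬ ∃ (T : lp (fun _ : ℕ => ℝ) 1 →L[ℝ] X) (c : ℝ), 0 < c ∧ ∀ x, c * ‖x‖ ≤ ‖T x‖ := by
  classical
  let V := D.toPreDesign.V
  let P : V × V → ℝ := fun z => N ⊤ z.1 + N 6 z.2
  let G : Set (V × V) := {z | ∃ (h : D.toPreDesign.Ln) (m : ℕ) (t : D.toPreDesign.Br), 1 ≤ m ∧
    In h m t ∧ z = (rv h m t, -thv h m t)}
  obtain ⟨X, i1, i2, i3, e, hd, hle, hW, hlt⟩ := exists_banach_quotient (V := V × V) P
    (fun z => add_nonneg (N_nonneg _ _) (N_nonneg _ _))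
    (fun a z => by
      show N ⊤ (a • z.1) + N 6 (a • z.2) = |a| * (N ⊤ z.1 + N 6 z.2)
      rw [N_smul, N_smul, mul_add])
    (fun z w => by
      show N ⊤ (z.1 + w.1) + N 6 (z.2 + w.2) ≤ N ⊤ z.1 + N 6 z.2 + (N ⊤ w.1 + N 6 w.2)
      have h1 := N_add_le ⊤ z.1 w.1
      have h2 := N_add_le 6 z.2 w.2
      linarith) (Submodule.span ℝ G)
  -- functionals
  have hfun : ∀ (q : V × V →ₗ[ℝ] ℝ), (∀ z ∈ G, q z = 0) → (∀ z, |q z| ≤ P z) →
      ∀ z, |q z| ≤ ‖e z‖ := by
    intro q hq hqP z
    have hq' : ∀ w ∈ Submodule.span ℝ G, q w = 0 := by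
      intro w hw
      have : Submodule.span ℝ G ≤ LinearMap.ker q :=
        Submodule.span_le.2 fun w hw => LinearMap.mem_ker.2 (hq w hw)
      exact LinearMap.mem_ker.1 (this hw)
    refine le_of_forall_pos_le_add fun ε hε => ?_
    obtain ⟨w, hw, hlt'⟩ := hlt z ε hε
    have h1 : q z = q (z + w) := by rw [map_add, hq' w hw, add_zero]
    rw [h1]
    exact (hqP _).trans hlt'.le
  have hsep : TopologicalSpace.SeparableSpace X := by
    have hc : Countable D.toPreDesign.Node := by
      show Countable (Σ m : ℕ, (∀ k : Fin m, D.toPreDesign.Io k))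
      infer_instance
    let s : Set X := (Set.range fun n : D.toPreDesign.Node => e (bv n, 0)) ∪
      (Set.range fun n : D.toPreDesign.Node => e (0, bv n))
    have hsc : s.Countable := (Set.countable_range _).union (Set.countable_range _)
    have hspan : Set.range e ⊆ (Submodule.span ℝ s : Set X) := by
      rintro _ ⟨⟨f, g⟩, rfl⟩
      have key1 : ∀ f : V, e (f, 0) ∈ Submodule.span ℝ s := by
        intro f
        induction f using Finsupp.induction_linear with
        | zero =>
          have : e (((0 : V), (0 : V))) = 0 := map_zero e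
          rw [this]; exact Submodule.zero_mem _
        | add f g hf hg =>
          have : e ((f + g, (0 : V))) = e (f, 0) + e (g, 0) := by
            rw [← map_add]; congr 1; simp
          rw [this]
          exact Submodule.add_mem _ hf hg
        | single n a =>
          have hb : (Finsupp.single n a : D.toPreDesign.V) = a • bv n := by
            rw [bv, Finsupp.smul_single, smul_eq_mul, mul_one]
          have : e ((Finsupp.single n a, (0 : V))) = a • e (bv n, 0) := by
            rw [← map_smul, Prod.smul_mk, smul_zero, hb]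
          rw [this]
          exact Submodule.smul_mem _ _ (Submodule.subset_span (Or.inl ⟨n, rfl⟩))
      have key2 : ∀ f : V, e (0, f) ∈ Submodule.span ℝ s := by
        intro f
        induction f using Finsupp.induction_linear with
        | zero =>
          have : e (((0 : V), (0 : V))) = 0 := map_zero e
          rw [this]; exact Submodule.zero_mem _
        | add f g hf hg =>
          have : e (((0 : V), f + g)) = e (0, f) + e (0, g) := by
            rw [← map_add]; congr 1; simp
          rw [this]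
          exact Submodule.add_mem _ hf hg
        | single n a =>
          have hb : (Finsupp.single n a : D.toPreDesign.V) = a • bv n := by
            rw [bv, Finsupp.smul_single, smul_eq_mul, mul_one]
          have : e (((0 : V), Finsupp.single n a)) = a • e (0, bv n) := by
            rw [← map_smul, Prod.smul_mk, smul_zero, hb]
          rw [this]
          exact Submodule.smul_mem _ _ (Submodule.subset_span (Or.inr ⟨n, rfl⟩))
      have : e (f, g) = e (f, 0) + e (0, g) := by rw [← map_add]; congr 1; simp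
      rw [this]
      exact Submodule.add_mem _ (key1 f) (key2 g)
    have h1 : TopologicalSpace.IsSeparable (Submodule.span ℝ s : Set X) :=
      hsc.isSeparable.span
    have h2 : closure (Submodule.span ℝ s : Set X) = Set.univ := by
      refine Set.eq_univ_of_univ_subset ?_
      rw [← hd.closure_range]
      exact closure_mono hspan
    exact TopologicalSpace.isSeparable_univ_iff.1 (h2 ▸ h1.closure)
  let B : V →ₗ[ℝ] X := e ∘ₗ LinearMap.inl ℝ V V
  have hB : ∀ f : V, B f = e (f, 0) := fun f => rfl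
  refine ⟨X, i1, i2, i3, hsep, B, ?_, ?_⟩
  · refine ⟨?_, ?_, ?_⟩
    · intro f
      rw [hB]
      refine (hle _).trans ?_
      show N ⊤ f + N 6 (0 : V) ≤ N ⊤ f
      rw [N_zero, add_zero]
    · intro t
      let q : V × V →ₗ[ℝ] ℝ := (tot t) ∘ₗ LinearMap.fst ℝ V V + (tot t) ∘ₗ LinearMap.snd ℝ V V
      have hq : ∀ z : V × V, q z = tot t z.1 + tot t z.2 := fun z => rfl
      have hqe : ∀ z, ‖q z‖ ≤ 1 * ‖e z‖ := by
        intro z
        rw [one_mul, Real.norm_eq_abs]
        refine hfun q ?_ ?_ z
        · rintro z ⟨h, m, t', hm, hi, rfl⟩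
          rw [hq]
          show tot t (rv h m t') + tot t (-thv h m t') = 0
          rw [map_neg, tot_rv_eq t h m t' hm hi, add_neg_cancel]
        · intro z
          rw [hq]
          refine (abs_add_le _ _).trans ?_
          exact add_le_add (abs_tot_le ⊤ le_top t z.1) (abs_tot_le 6 (by norm_num) t z.2)
      refine ⟨q.extendOfNorm e, ?_, ?_⟩
      · exact (LinearMap.opNorm_extendOfNorm_le hd zero_le_one hqe).trans (by norm_num)
      · intro f
        rw [hB, LinearMap.extendOfNorm_eq hd ⟨1, hqe⟩, hq]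
        show tot t f + tot t (0 : V) = tot t f
        rw [map_zero, add_zero]
    · intro h n m1 ε hn hε
      have hmem : ((Xv h n m1 ε, -Zv h n m1 ε) : V × V) ∈ Submodule.span ℝ G := by
        have hx : ((Xv h n m1 ε, -Zv h n m1 ε) : V × V) =
            ∑ k ∈ Finset.Ico n m1, ∑ y : (Fin k → Bool),
              ε (ext (A := fun _ => Bool) y) •
                ((rv h k (tb h (ext (A := fun _ => Bool) y)),
                  -thv h k (tb h (ext (A := fun _ => Bool) y))) : V × V) := by
          refine Prod.ext ?_ ?_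
          · simp only [Prod.fst_sum, Prod.smul_fst]
            rfl
          · simp only [Prod.snd_sum, Prod.smul_snd, smul_neg, Finset.sum_neg_distrib]
            rfl
        rw [hx]
        refine Submodule.sum_mem _ fun k hk => Submodule.sum_mem _ fun y _ =>
          Submodule.smul_mem _ _ (Submodule.subset_span ?_)
        exact ⟨h, k, _, hn.trans (Finset.mem_Ico.1 hk).1, In_tb h _ k, rfl⟩
      have h1 : e (Xv h n m1 ε, 0) = e (0, Zv h n m1 ε) := by
        have h2 := hW _ hmem
        have h3 : ((Xv h n m1 ε, (0 : V)) : V × V) =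
            (Xv h n m1 ε, -Zv h n m1 ε) + (0, Zv h n m1 ε) := by simp
        rw [h3, map_add, h2, zero_add]
      rw [hB, h1]
      refine (hle _).trans ?_
      show N ⊤ (0 : V) + N 6 (Zv h n m1 ε) ≤ 3
      rw [N_zero, zero_add]
      exact N_Zv_le h n m1 ε hε
  · rintro ⟨T, c, hc, hT⟩
    have hex : ∀ n : ℕ, ∃ z : V × V, ‖e z - T (lp.single 1 n (1 : ℝ))‖ < c / 2 ∧
        P z ≤ ‖T‖ + c / 2 + 1 := by
      intro n
      obtain ⟨z, hz⟩ := hd.exists_dist_lt (T (lp.single 1 n (1 : ℝ))) (half_pos hc)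
      obtain ⟨w, hw, hwlt⟩ := hlt z 1 one_pos
      have hz' : ‖e z - T (lp.single 1 n (1 : ℝ))‖ < c / 2 := by
        rw [dist_comm, dist_eq_norm] at hz
        exact hz
      refine ⟨z + w, ?_, ?_⟩
      · rw [map_add, hW w hw, add_zero]
        exact hz'
      · have h1 : ‖T (lp.single 1 n (1 : ℝ))‖ ≤ ‖T‖ := by
          have := T.le_opNorm (lp.single 1 n (1 : ℝ))
          rwa [lp.norm_single (by norm_num), norm_one, mul_one] at this
        have h2 : ‖e z‖ ≤ ‖T‖ + c / 2 := by
          have := norm_le_norm_add_norm_sub' (e z) (T (lp.single 1 n (1 : ℝ)))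
          linarith
        linarith
    choose z hz1 hz2 using hex
    obtain ⟨S, a, hSa⟩ := core D (fun n => (z n).1) (fun n => (z n).2) (‖T‖ + c / 2 + 1)
      (fun n => (le_add_of_nonneg_right (N_nonneg _ _)).trans (hz2 n))
      (fun n => (le_add_of_nonneg_left (N_nonneg _ _)).trans (hz2 n)) (c / 2) (half_pos hc)
    have h1 : ‖e (∑ n ∈ S, a n • z n)‖ < c / 2 * ∑ n ∈ S, |a n| := by
      refine (hle _).trans_lt ?_
      have e1 : (∑ n ∈ S, a n • z n).1 = ∑ n ∈ S, a n • (z n).1 := by
        simp only [Prod.fst_sum, Prod.smul_fst]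
      have e2 : (∑ n ∈ S, a n • z n).2 = ∑ n ∈ S, a n • (z n).2 := by
        simp only [Prod.snd_sum, Prod.smul_snd]
      show N ⊤ (∑ n ∈ S, a n • z n).1 + N 6 (∑ n ∈ S, a n • z n).2 < _
      rw [e1, e2]
      exact hSa
    have h2 : ‖T (∑ n ∈ S, a n • lp.single 1 n (1 : ℝ)) - e (∑ n ∈ S, a n • z n)‖ ≤
        c / 2 * ∑ n ∈ S, |a n| := by
      rw [map_sum, map_sum, ← Finset.sum_sub_distrib]
      refine (norm_sum_le _ _).trans ?_
      rw [Finset.mul_sum]
      refine Finset.sum_le_sum fun n _ => ?_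
      rw [map_smul, map_smul, ← smul_sub, norm_smul, norm_sub_rev, Real.norm_eq_abs, mul_comm]
      exact mul_le_mul_of_nonneg_right (hz1 n).le (abs_nonneg _)
    have h3 : ‖∑ n ∈ S, a n • lp.single (E := fun _ : ℕ => ℝ) 1 n (1 : ℝ)‖ = ∑ n ∈ S, |a n| := by
      have h4 := lp.norm_sum_single (E := fun _ : ℕ => ℝ) (p := 1) (by norm_num) a S
      simp only [ENNReal.toReal_one, Real.rpow_one] at h4
      rw [← Finset.sum_congr rfl fun n _ => Real.norm_eq_abs (a n), ← h4]
      congr 1
      refine Finset.sum_congr rfl fun n _ => ?_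
      rw [← lp.single_smul, smul_eq_mul, mul_one]
    have h5 := hT (∑ n ∈ S, a n • lp.single 1 n (1 : ℝ))
    rw [h3] at h5
    have h6 := norm_le_norm_add_norm_sub' (T (∑ n ∈ S, a n • lp.single 1 n (1 : ℝ)))
      (e (∑ n ∈ S, a n • z n))
    linarith

end Pool.Agent.L1F
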