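import Pool.Agent.Work.MP_3dfed9_an.PropZ
import Pool.Agent.Work.MP_3dfed9_an.Space
import Pool.Agent.Work.MP_3dfed9_an.Basis
import Pool.Agent.Work.MP_3dfed9_an.DesignEx

/-!
# MP_3dfed9_an : main theorem
-/

set_option autoImplicit false

namespace Pool.Agent.L1F

open Finset PreDesign Filter Topology

theorem main_l1 :
    ¬ (∀ (X : Type) [NormedAddCommGroup X] [NormedSpace ℝ X] [CompleteSpace X]
      [TopologicalSpace.SeparableSpace X],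
      (¬ ∃ (T : lp (fun _ : ℕ => ℝ) 1 →L[ℝ] X) (c : ℝ), 0 < c ∧ ∀ x, c * ‖x‖ ≤ ‖T x‖) →
      ∃ (Y : Type) (_ : NormedAddCommGroup Y) (_ : NormedSpace ℝ Y) (_ : CompleteSpace Y),
        (∃ e : ℕ → Y, ∀ y : Y, ∃! a : ℕ → ℝ,
            Tendsto (fun N => ∑ n ∈ Finset.range N, a n • e n) atTop (𝓝 y)) ∧
        (¬ ∃ (T : lp (fun _ : ℕ => ℝ) 1 →L[ℝ] Y) (c : ℝ), 0 < c ∧ ∀ x, c * ‖x‖ ≤ ‖T x‖) ∧
        ∃ (J : X →L[ℝ] Y) (c : ℝ), 0 < c ∧ ∀ x, c * ‖x‖ ≤ ‖J x‖) := by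
  intro H
  obtain ⟨D⟩ := exists_design
  obtain ⟨X, i1, i2, i3, i4, B, hG, hX⟩ := exists_space D
  obtain ⟨Y, j1, j2, j3, ⟨e, he⟩, hY, J, c, hc, hJ⟩ := H X hX
  obtain ⟨φ, hφ⟩ := basis_coord e he
  apply hY
  exact contains_l1 D B hG J c hc hJ (fun n => (φ n).comp J) e (fun x => hφ (J x))

end Pool.Agent.L1F
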