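import Pool.Agent.Work.MP_3dfed9_an.Defs

/-!
# MP_3dfed9_an : elementary properties of the averages
-/

set_option autoImplicit false

namespace Pool.Agent.L1F

open Finset

variable {A : ℕ → Type} [∀ k, Fintype (A k)] [∀ k, Inhabited (A k)]

theorem avg_den_pos (M : ℕ) : (0 : ℝ) < (Fintype.card (∀ k : Fin M, A k) : ℝ) * 2 ^ M := by
  have h1 : 0 < Fintype.card (∀ k : Fin M, A k) := Fintype.card_pos
  have h2 : (0 : ℝ) < (Fintype.card (∀ k : Fin M, A k) : ℝ) := by exact_mod_cast h1
  positivity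

theorem avg_mono (M : ℕ) (F G : (∀ k, A k) → (ℕ → Bool) → ℝ) (h : ∀ a x, F a x ≤ G a x) :
    avg M F ≤ avg M G := by
  unfold avg
  apply div_le_div_of_nonneg_right _ (avg_den_pos M).le
  exact Finset.sum_le_sum fun g _ => Finset.sum_le_sum fun y _ => h _ _

theorem avg_add (M : ℕ) (F G : (∀ k, A k) → (ℕ → Bool) → ℝ) :
    avg M (fun a x => F a x + G a x) = avg M F + avg M G := by
  unfold avg
  rw [← add_div, ← Finset.sum_add_distrib]
  congr 1
  exact Finset.sum_congr rfl fun g _ => Finset.sum_add_distrib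

theorem avg_smul (M : ℕ) (c : ℝ) (F : (∀ k, A k) → (ℕ → Bool) → ℝ) :
    avg M (fun a x => c * F a x) = c * avg M F := by
  unfold avg
  rw [← mul_div_assoc, Finset.mul_sum]
  congr 1
  exact Finset.sum_congr rfl fun g _ => by rw [Finset.mul_sum]

theorem avg_sub (M : ℕ) (F G : (∀ k, A k) → (ℕ → Bool) → ℝ) :
    avg M (fun a x => F a x - G a x) = avg M F - avg M G := by
  have h := avg_add M F (fun a x => (-1) * G a x)
  rw [avg_smul] at h
  rw [show (fun a x => F a x - G a x) = fun a x => F a x + (-1) * G a x from by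
    funext a x; ring, h]
  ring

theorem avg_const (M : ℕ) (c : ℝ) : avg (A := A) M (fun _ _ => c) = c := by
  unfold avg
  rw [div_eq_iff (avg_den_pos M).ne']
  simp only [Finset.sum_const, Finset.card_univ, nsmul_eq_mul, Fintype.card_pi, Fintype.card_bool,
    Finset.prod_const, Fintype.card_fin, Nat.cast_pow, Nat.cast_ofNat]
  ring

theorem avg_sum {ι : Type} (M : ℕ) (S : Finset ι) (F : ι → (∀ k, A k) → (ℕ → Bool) → ℝ) :
    avg M (fun a x => ∑ i ∈ S, F i a x) = ∑ i ∈ S, avg M (F i) := by
  classical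
  induction S using Finset.induction_on with
  | empty => simp only [Finset.sum_empty]; exact avg_const M 0
  | insert i S hi ih =>
    simp only [Finset.sum_insert hi]
    rw [avg_add, ih]

theorem avg_nonneg (M : ℕ) (F : (∀ k, A k) → (ℕ → Bool) → ℝ) (h : ∀ a x, 0 ≤ F a x) :
    0 ≤ avg M F := by
  have := avg_mono M (fun _ _ => 0) F h
  rwa [avg_const] at this

end Pool.Agent.L1F
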