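import Pool.Agent.Work.MP_3dfed9_an.CoreBlock

/-!
# MP_3dfed9_an : bounded sequences have no lower `ℓ₁` estimate (section 3a)
-/

set_option autoImplicit false

namespace Pool.Agent.L1F

open Finset PreDesign Filter Topology

namespace PreDesign

variable {D : PreDesign}

theorem core_node_finite (l : ℕ) : {s : D.Node | 0 < s.1 ∧ s.1 ≤ l}.Finite := by
  have h : {s : D.Node | 0 < s.1 ∧ s.1 ≤ l} ⊆
      ⋃ m ∈ Finset.range (l + 1), Set.range (fun g : (∀ k : Fin m, D.Io k) => (⟨m, g⟩ : D.Node)) := by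
    rintro ⟨m, g⟩ ⟨_, h2⟩
    simp only [Set.mem_iUnion, Finset.mem_range]
    exact ⟨m, Nat.lt_succ_of_le h2, g, rfl⟩
  refine Set.Finite.subset ?_ h
  refine Set.Finite.biUnion (Finset.finite_toSet _) fun m _ => ?_
  classical
  exact Set.finite_range _

theorem core_abs_apply_le (κ : ℕ∞) (hκ : 1 ≤ κ) (f : D.V) (s : D.Node) (hs : 0 < s.1) :
    |f s| ≤ N κ f := by
  obtain ⟨m, g⟩ := s
  have h := abs_segv_le κ hκ (ext g) (m - 1) m f
  have hs' : 0 < m := hs
  have h1 : Finset.Ioc (m - 1) m = {m} := by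
    ext x
    simp only [Finset.mem_Ioc, Finset.mem_singleton]
    omega
  have h2 : nd (ext g) m = (⟨m, g⟩ : D.Node) := by
    unfold nd
    congr 1
    funext k
    simp [ext]
  rw [segv, h1, Finset.sum_singleton, h2] at h
  exact h

/-- subsequence converging at every node of level `≥ 1` -/
theorem core_subseq (κ κ' : ℕ∞) (hκ : 1 ≤ κ) (hκ' : 1 ≤ κ') (y f : ℕ → D.V) (C : ℝ)
    (hy : ∀ n, N κ (y n) ≤ C) (hf : ∀ n, N κ' (f n) ≤ C) :
    ∃ φ : ℕ → ℕ, StrictMono φ ∧ ∀ s : D.Node, 0 < s.1 →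
      (∃ a, Tendsto (fun n => y (φ n) s) atTop (𝓝 a)) ∧
        ∃ b, Tendsto (fun n => f (φ n) s) atTop (𝓝 b) := by
  classical
  have : Countable D.Node := by
    have : ∀ m : ℕ, Countable (∀ k : Fin m, D.Io k) := fun m => Finite.to_countable
    infer_instance
  let G : ℕ → (D.Node × Bool → ℝ) := fun n p =>
    if 0 < p.1.1 then (if p.2 then y n p.1 else f n p.1) else 0
  have hC : 0 ≤ C := le_trans (N_nonneg κ (y 0)) (hy 0)
  have hG : ∀ n, G n ∈ Set.pi Set.univ fun _ : D.Node × Bool => Set.Icc (-C) C := by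
    intro n p _
    simp only [G]
    split_ifs with h1 h2
    · exact abs_le.1 ((core_abs_apply_le κ hκ (y n) p.1 h1).trans (hy n))
    · exact abs_le.1 ((core_abs_apply_le κ' hκ' (f n) p.1 h1).trans (hf n))
    · exact ⟨by linarith, hC⟩
  obtain ⟨a, _, φ, hφ, hlim⟩ := (isCompact_univ_pi fun _ : D.Node × Bool =>
    (isCompact_Icc (a := -C) (b := C))).tendsto_subseq hG
  refine ⟨φ, hφ, fun s hs => ?_⟩
  rw [tendsto_pi_nhds] at hlim
  refine ⟨⟨a (s, true), ?_⟩, ⟨a (s, false), ?_⟩⟩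
  · have := hlim (s, true)
    simpa [G, hs] using this
  · have := hlim (s, false)
    simpa [G, hs] using this

/-- the part of low level of a sequence tending to zero at the nodes is small -/
theorem core_small (κ : ℕ∞) (d : ℕ → D.V) (hd : ∀ s : D.Node, 0 < s.1 →
    Tendsto (fun n => d n s) atTop (𝓝 0)) (l : ℕ) (ε : ℝ) (hε : 0 < ε) :
    ∀ᶠ n in atTop, N κ (res 0 l (d n)) ≤ ε := by
  classical
  set F := (core_node_finite (D := D) l).toFinset with hF
  have h1 : Tendsto (fun n => ∑ s ∈ F, |d n s|) atTop (𝓝 0) := by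
    have : (0 : ℝ) = ∑ s ∈ F, |(0 : ℝ)| := by simp
    rw [this]
    refine tendsto_finsetSum _ fun s hs => ?_
    rw [hF, Set.Finite.mem_toFinset] at hs
    exact (hd s hs.1).abs
  filter_upwards [h1.eventually (gt_mem_nhds hε)] with n hn
  refine (N_le_sum κ _).trans (le_trans ?_ hn.le)
  have h2 : (res 0 l (d n)).support ⊆ F := by
    intro s hs
    rw [hF, Set.Finite.mem_toFinset]
    have : s ∈ (d n).support.filter fun s => 0 < s.1 ∧ s.1 ≤ l := by
      rw [← Finsupp.support_filter]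
      exact hs
    exact (Finset.mem_filter.1 this).2
  refine le_trans (Finset.sum_le_sum fun s hs => ?_)
    (Finset.sum_le_sum_of_subset_of_nonneg h2 fun s _ _ => abs_nonneg _)
  unfold res
  rw [Finsupp.filter_apply]
  split_ifs
  · exact le_rfl
  · rw [abs_zero]; exact abs_nonneg _

theorem core_split (d : D.V) (l r : ℕ)
    (hd : ∀ s, d s ≠ 0 → s.1 ≤ r) (s : D.Node) (hs : 0 < s.1) :
    d s = (res 0 l d + res l r d) s := by
  rw [Finsupp.add_apply]
  unfold res
  rw [Finsupp.filter_apply, Finsupp.filter_apply]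
  by_cases h : s.1 ≤ l
  · rw [if_pos ⟨hs, h⟩, if_neg (by omega), add_zero]
  · by_cases h2 : d s = 0
    · rw [h2]; split_ifs <;> simp
    · rw [if_neg (by omega), if_pos ⟨by omega, hd s h2⟩, zero_add]

theorem core_supp_bound (d : D.V) : ∃ r, ∀ s, d s ≠ 0 → s.1 ≤ r := by
  refine ⟨d.support.sup fun s => s.1, fun s hs => ?_⟩
  exact Finset.le_sup (f := fun s : D.Node => s.1) (Finsupp.mem_support_iff.2 hs)

end PreDesign

theorem core (D : Design) (y f : ℕ → D.toPreDesign.V)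
    (C : ℝ) (hCy : ∀ n, N ⊤ (y n) ≤ C) (hCf : ∀ n, N 6 (f n) ≤ C) (c : ℝ) (hc : 0 < c) :
    ∃ (S : Finset ℕ) (a : ℕ → ℝ),
      N ⊤ (∑ n ∈ S, a n • y n) + N 6 (∑ n ∈ S, a n • f n) < c * ∑ n ∈ S, |a n| := by
  classical
  obtain ⟨φ, hφ, hconv⟩ := core_subseq (D := D.toPreDesign) ⊤ 6 le_top (by norm_num) y f C hCy hCf
  -- differences
  set dy : ℕ → D.toPreDesign.V := fun n => y (φ (2 * n + 1)) - y (φ (2 * n)) with hdy
  set df : ℕ → D.toPreDesign.V := fun n => f (φ (2 * n + 1)) - f (φ (2 * n)) with hdf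
  have ht1 : Tendsto (fun n : ℕ => 2 * n + 1) atTop atTop :=
    tendsto_atTop_mono (fun n => by simp only [id]; omega) tendsto_id
  have ht2 : Tendsto (fun n : ℕ => 2 * n) atTop atTop :=
    tendsto_atTop_mono (fun n => by simp only [id]; omega) tendsto_id
  have hdy0 : ∀ s : D.toPreDesign.Node, 0 < s.1 → Tendsto (fun n => dy n s) atTop (𝓝 0) := by
    intro s hs
    obtain ⟨⟨a, ha⟩, _⟩ := hconv s hs
    have := (ha.comp ht1).sub (ha.comp ht2)
    rw [sub_self] at this
    exact this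
  have hdf0 : ∀ s : D.toPreDesign.Node, 0 < s.1 → Tendsto (fun n => df n s) atTop (𝓝 0) := by
    intro s hs
    obtain ⟨_, ⟨a, ha⟩⟩ := hconv s hs
    have := (ha.comp ht1).sub (ha.comp ht2)
    rw [sub_self] at this
    exact this
  have hdyC : ∀ n, N ⊤ (dy n) ≤ 2 * C := by
    intro n
    have h1 : dy n = y (φ (2 * n + 1)) + -(y (φ (2 * n))) := sub_eq_add_neg _ _
    rw [h1]
    refine (N_add_le _ _ _).trans ?_
    rw [N_neg]
    linarith [hCy (φ (2 * n + 1)), hCy (φ (2 * n))]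
  have hdfC : ∀ n, N 6 (df n) ≤ 2 * C := by
    intro n
    have h1 : df n = f (φ (2 * n + 1)) + -(f (φ (2 * n))) := sub_eq_add_neg _ _
    rw [h1]
    refine (N_add_le _ _ _).trans ?_
    rw [N_neg]
    linarith [hCf (φ (2 * n + 1)), hCf (φ (2 * n))]
  -- the recursion
  have hstep : ∀ p : ℕ × ℕ, ∃ q : ℕ × ℕ, p.1 < q.1 ∧ p.2 < q.2 ∧
      N ⊤ (res 0 p.2 (dy q.1)) ≤ c / 2 ∧ N 6 (res 0 p.2 (df q.1)) ≤ c / 2 ∧
      (∀ s, dy q.1 s ≠ 0 → s.1 ≤ q.2) ∧ ∀ s, df q.1 s ≠ 0 → s.1 ≤ q.2 := by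
    rintro ⟨n0, l⟩
    obtain ⟨n, h1, h2, h3⟩ := ((core_small ⊤ dy hdy0 l (c / 2) (by positivity)).and
      ((core_small 6 df hdf0 l (c / 2) (by positivity)).and (eventually_gt_atTop n0))).exists
    obtain ⟨r1, hr1⟩ := core_supp_bound (dy n)
    obtain ⟨r2, hr2⟩ := core_supp_bound (df n)
    refine ⟨(n, l + 1 + r1 + r2), h3, by simp only; omega, h1, h2, fun s hs => ?_, fun s hs => ?_⟩
    · have := hr1 s hs
      simp only
      omega
    · have := hr2 s hs
      simp only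
      omega
  choose F hF using hstep
  let st : ℕ → ℕ × ℕ := fun k => Nat.rec (0, 0) (fun _ p => F p) k
  have hst : ∀ k, st (k + 1) = F (st k) := fun k => rfl
  set nn : ℕ → ℕ := fun k => (st (k + 1)).1 with hnn
  set l : ℕ → ℕ := fun k => (st k).2 with hl
  have hnm : StrictMono nn := by
    refine strictMono_nat_of_lt_succ fun k => ?_
    simp only [hnn]
    rw [hst (k + 1)]
    exact (hF (st (k + 1))).1
  have hlt : ∀ k, l k < l (k + 1) := fun k => by
    simp only [hl]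
    rw [hst k]
    exact (hF (st k)).2.1
  have hsy : ∀ k, N ⊤ (res 0 (l k) (dy (nn k))) ≤ c / 2 := fun k => (hF (st k)).2.2.1
  have hsf : ∀ k, N 6 (res 0 (l k) (df (nn k))) ≤ c / 2 := fun k => (hF (st k)).2.2.2.1
  have hby : ∀ k s, dy (nn k) s ≠ 0 → s.1 ≤ l (k + 1) := fun k => (hF (st k)).2.2.2.2.1
  have hbf : ∀ k s, df (nn k) s ≠ 0 → s.1 ≤ l (k + 1) := fun k => (hF (st k)).2.2.2.2.2
  have hres : ∀ (l r : ℕ) (g : D.toPreDesign.V) (s : D.toPreDesign.Node), res l r g s ≠ 0 →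
      l < s.1 ∧ s.1 ≤ r := by
    intro l r g s hs
    unfold res at hs
    rw [Finsupp.filter_apply] at hs
    by_contra hcon
    rw [if_neg hcon] at hs
    exact hs rfl
  obtain ⟨S, a, hSa⟩ := core_block D (fun k => res (l k) (l (k + 1)) (dy (nn k)))
    (fun k => res (l k) (l (k + 1)) (df (nn k))) l (fun k => l (k + 1)) hlt (fun k => le_rfl)
    (fun k s hs => hres _ _ _ s hs) (fun k s hs => hres _ _ _ s hs) (2 * C)
    (fun k => (N_res_le _ _ _ _).trans (hdyC _)) (fun k => (N_res_le _ _ _ _).trans (hdfC _)) c hc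
  -- estimate for the differences
  have hest : ∀ (κ : ℕ∞) (d : ℕ → D.toPreDesign.V),
      (∀ k s, d (nn k) s ≠ 0 → s.1 ≤ l (k + 1)) → (∀ k, N κ (res 0 (l k) (d (nn k))) ≤ c / 2) →
      N κ (∑ k ∈ S, a k • d (nn k)) ≤
        N κ (∑ k ∈ S, a k • res (l k) (l (k + 1)) (d (nn k))) + c / 2 * ∑ k ∈ S, |a k| := by
    intro κ d h1 h2
    have h3 : N κ (∑ k ∈ S, a k • d (nn k)) =
        N κ ((∑ k ∈ S, a k • res (l k) (l (k + 1)) (d (nn k))) +
          ∑ k ∈ S, a k • res 0 (l k) (d (nn k))) := by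
      refine N_congr κ _ _ fun s hs => ?_
      rw [← Finset.sum_add_distrib, Finsupp.finsetSum_apply, Finsupp.finsetSum_apply]
      refine Finset.sum_congr rfl fun k _ => ?_
      rw [← smul_add, Finsupp.smul_apply, Finsupp.smul_apply,
        core_split (d (nn k)) (l k) (l (k + 1)) (h1 k) s hs, add_comm]
    rw [h3]
    refine (N_add_le _ _ _).trans (add_le_add le_rfl ?_)
    refine (N_sum_le κ S _).trans ?_
    rw [Finset.mul_sum]
    refine Finset.sum_le_sum fun k _ => ?_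
    rw [N_smul, mul_comm]
    exact mul_le_mul_of_nonneg_right (h2 k) (abs_nonneg _)
  have hfin : N ⊤ (∑ k ∈ S, a k • dy (nn k)) + N 6 (∑ k ∈ S, a k • df (nn k)) <
      2 * c * ∑ k ∈ S, |a k| := by
    have e1 := hest ⊤ dy hby hsy
    have e2 := hest 6 df hbf hsf
    linarith
  -- reindex
  let ψ : ℕ × Bool → ℕ := fun p => if p.2 then φ (2 * nn p.1 + 1) else φ (2 * nn p.1)
  have hψ : Function.Injective ψ := by
    rintro ⟨k, b⟩ ⟨k', b'⟩ h
    simp only [ψ] at h
    cases b <;> cases b' <;> simp only [if_true, if_false, Bool.false_eq_true] at h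
    · have := hφ.injective h
      have := hnm.injective (by omega : nn k = nn k')
      rw [this]
    · have := hφ.injective h
      omega
    · have := hφ.injective h
      omega
    · have := hφ.injective h
      have := hnm.injective (by omega : nn k = nn k')
      rw [this]
  let a' : ℕ × Bool → ℝ := fun p => if p.2 then a p.1 else -a p.1
  let b : ℕ → ℝ := Function.extend ψ a' 0
  have hb : ∀ p, b (ψ p) = a' p := fun p => hψ.extend_apply _ _ _
  have hsum : ∀ g : ℕ → D.toPreDesign.V,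
      ∑ n ∈ (S ×ˢ (Finset.univ : Finset Bool)).image ψ, b n • g n =
        ∑ k ∈ S, a k • (g (φ (2 * nn k + 1)) - g (φ (2 * nn k))) := by
    intro g
    rw [Finset.sum_image fun _ _ _ _ h => hψ h, Finset.sum_product]
    refine Finset.sum_congr rfl fun k _ => ?_
    rw [Fintype.sum_bool, hb, hb]
    simp only [a', ψ, if_true, Bool.false_eq_true, if_false]
    rw [neg_smul, smul_sub, sub_eq_add_neg]
  have habs : ∑ n ∈ (S ×ˢ (Finset.univ : Finset Bool)).image ψ, |b n| = 2 * ∑ k ∈ S, |a k| := by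
    rw [Finset.sum_image fun _ _ _ _ h => hψ h, Finset.sum_product, Finset.mul_sum]
    refine Finset.sum_congr rfl fun k _ => ?_
    rw [Fintype.sum_bool, hb, hb]
    simp only [a', if_true, Bool.false_eq_true, if_false]
    rw [abs_neg]
    ring
  refine ⟨(S ×ˢ (Finset.univ : Finset Bool)).image ψ, b, ?_⟩
  rw [hsum y, hsum f, habs]
  calc _ < 2 * c * ∑ k ∈ S, |a k| := hfin
    _ = _ := by ring

end Pool.Agent.L1F
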