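import Pool.Agent.Work.MP_3dfed9_an.SmallSup

/-!
# MP_3dfed9_an : level-block sequences have no lower `ℓ₁` estimate (section 3d)
-/

set_option autoImplicit false

namespace Pool.Agent.L1F

open Finset PreDesign

/-- adding a late block with small supremum over segments -/
theorem step_block {D : PreDesign} (κ : ℕ∞) (hκ : 1 ≤ κ) (v w : D.V) (R : ℕ)
    (hv : ∀ s, v s ≠ 0 → s.1 ≤ R) (hw : ∀ s, w s ≠ 0 → R < s.1) (δ A E : ℝ) (hA : 0 ≤ A)
    (hE : 0 ≤ E) (hδ : ∀ (t : D.Br) (p q : ℕ), |segv t p q w| ≤ δ) (hvA : N κ v ≤ A)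
    (hwE : N κ w ≤ E)
    (hsm : (Fintype.card (∀ k : Fin R, D.Io k) : ℝ) * (2 * A * δ) ≤ 1) :
    N κ (v + w) ≤ Real.sqrt (A ^ 2 + E ^ 2 + 1) := by
  classical
  apply N_le κ _ _ (Real.sqrt_nonneg _)
  intro S I hI
  rw [Real.sq_sqrt (by positivity)]
  have hδ0 : 0 ≤ δ := (abs_nonneg _).trans (hδ (fun _ => default) 0 0)
  have hx : ∀ i, |(I i).v v| ≤ A := fun i => (abs_segv_le κ hκ _ _ _ v).trans hvA
  have hpt : ∀ i ∈ S, ((I i).v (v + w)) ^ 2 ≤ ((I i).v v) ^ 2 + ((I i).v w) ^ 2 +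
      if (I i).a < R ∧ R < (I i).b then 2 * A * δ else 0 := by
    intro i _
    have hadd : (I i).v (v + w) = (I i).v v + (I i).v w := segv_add _ _ _ _ _
    rw [hadd]
    by_cases hc : (I i).a < R ∧ R < (I i).b
    · rw [if_pos hc]
      have h1 : (I i).v v * (I i).v w ≤ A * δ := by
        calc (I i).v v * (I i).v w ≤ |(I i).v v * (I i).v w| := le_abs_self _
          _ = |(I i).v v| * |(I i).v w| := abs_mul _ _
          _ ≤ A * δ := mul_le_mul (hx i) (hδ _ _ _) (abs_nonneg _) hA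
      nlinarith
    · rw [if_neg hc]
      have h0 : (I i).v v * (I i).v w = 0 := by
        rcases Nat.lt_or_ge R (I i).b with h | h
        · have ha : R ≤ (I i).a := by
            by_contra h'
            exact hc ⟨by omega, h⟩
          have : (I i).v v = 0 := by
            unfold Seg.v segv
            refine Finset.sum_eq_zero fun m hm => ?_
            rw [Finset.mem_Ioc] at hm
            by_contra hne
            have := hv _ hne
            simp only [nd] at this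
            omega
          rw [this, zero_mul]
        · have : (I i).v w = 0 := by
            unfold Seg.v segv
            refine Finset.sum_eq_zero fun m hm => ?_
            rw [Finset.mem_Ioc] at hm
            by_contra hne
            have := hw _ hne
            simp only [nd] at this
            omega
          rw [this, mul_zero]
      nlinarith
  have hcount : ((S.filter fun i => (I i).a < R ∧ R < (I i).b).card : ℝ) ≤
      (Fintype.card (∀ k : Fin R, D.Io k) : ℝ) := by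
    have : (S.filter fun i => (I i).a < R ∧ R < (I i).b).card ≤
        (Finset.univ : Finset (∀ k : Fin R, D.Io k)).card := by
      refine Finset.card_le_card_of_injOn (fun i => fun k : Fin R => (I i).t k)
        (fun _ _ => Finset.mem_coe.2 (Finset.mem_univ _)) ?_
      intro i hi j hj hij
      by_contra hne
      rw [Finset.mem_coe, Finset.mem_filter] at hi hj
      have hd := hI.1 i hi.1 j hj.1 hne R (Finset.mem_Ioc.2 ⟨hi.2.1, hi.2.2.le⟩)
        (Finset.mem_Ioc.2 ⟨hj.2.1, hj.2.2.le⟩)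
      apply hd
      unfold nd
      simp only at hij
      rw [hij]
    have h2 : (Finset.univ : Finset (∀ k : Fin R, D.Io k)).card =
        Fintype.card (∀ k : Fin R, D.Io k) := Finset.card_univ
    rw [h2] at this
    exact_mod_cast this
  have hsum : ∑ i ∈ S, (if (I i).a < R ∧ R < (I i).b then 2 * A * δ else 0) ≤ 1 := by
    rw [← Finset.sum_filter, Finset.sum_const, nsmul_eq_mul]
    refine le_trans ?_ hsm
    exact mul_le_mul_of_nonneg_right hcount (by positivity)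
  have h1 : ∑ i ∈ S, ((I i).v v) ^ 2 ≤ A ^ 2 := (sq_sum_le κ S I hI v).trans
    (pow_le_pow_left₀ (N_nonneg _ _) hvA 2)
  have h2 : ∑ i ∈ S, ((I i).v w) ^ 2 ≤ E ^ 2 := (sq_sum_le κ S I hI w).trans
    (pow_le_pow_left₀ (N_nonneg _ _) hwE 2)
  calc ∑ i ∈ S, ((I i).v (v + w)) ^ 2
      ≤ ∑ i ∈ S, (((I i).v v) ^ 2 + ((I i).v w) ^ 2 +
        if (I i).a < R ∧ R < (I i).b then 2 * A * δ else 0) := Finset.sum_le_sum hpt
    _ = ∑ i ∈ S, ((I i).v v) ^ 2 + ∑ i ∈ S, ((I i).v w) ^ 2 +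
        ∑ i ∈ S, (if (I i).a < R ∧ R < (I i).b then 2 * A * δ else 0) := by
      rw [Finset.sum_add_distrib, Finset.sum_add_distrib]
    _ ≤ A ^ 2 + E ^ 2 + 1 := by linarith

theorem core_block_aux (D : Design) (y f : ℕ → D.toPreDesign.V) (l r : ℕ → ℕ)
    (hlr : ∀ n, l n < r n) (hrl : ∀ n, r n ≤ l (n + 1))
    (hy : ∀ n s, y n s ≠ 0 → l n < s.1 ∧ s.1 ≤ r n)
    (hf : ∀ n s, f n s ≠ 0 → l n < s.1 ∧ s.1 ≤ r n)
    (C : ℝ) (hCy : ∀ n, N ⊤ (y n) ≤ C) (hCf : ∀ n, N 6 (f n) ≤ C) (j : ℕ) :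
    ∃ (S : Finset ℕ) (a : ℕ → ℝ) (R : ℕ), (∀ n ∈ S, r n ≤ R) ∧ ∑ n ∈ S, |a n| = 2 * j ∧
      N ⊤ (∑ n ∈ S, a n • y n) ≤ Real.sqrt (j * (4 * C ^ 2 + 1)) ∧
      N 6 (∑ n ∈ S, a n • f n) ≤ Real.sqrt (j * (4 * C ^ 2 + 1)) := by
  have hC : 0 ≤ C := (N_nonneg _ _).trans (hCy 0)
  have hln : ∀ n, n ≤ l n := by
    intro n
    induction n with
    | zero => exact Nat.zero_le _
    | succ n ih =>
      have := hlr n
      have := hrl n
      omega
  induction j with
  | zero =>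
    refine ⟨∅, fun _ => 0, 0, by simp, by simp, ?_, ?_⟩
    · simp [N_zero]
    · simp [N_zero]
  | succ j ih =>
    obtain ⟨S, a, R, hS, hsum, hN1, hN2⟩ := ih
    obtain ⟨A, hAdef⟩ : ∃ A, A = Real.sqrt (j * (4 * C ^ 2 + 1)) := ⟨_, rfl⟩
    have hA : 0 ≤ A := by rw [hAdef]; exact Real.sqrt_nonneg _
    have hA2 : A ^ 2 = j * (4 * C ^ 2 + 1) := by
      rw [hAdef, Real.sq_sqrt (by positivity)]
    rw [← hAdef] at hN1 hN2
    obtain ⟨Λ, hΛ⟩ : ∃ Λ : ℝ, Λ = (Fintype.card (∀ k : Fin R, D.toPreDesign.Io k) : ℝ) :=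
      ⟨_, rfl⟩
    have hΛ0 : 0 ≤ Λ := by rw [hΛ]; positivity
    obtain ⟨δ, hδdef⟩ : ∃ δ : ℝ, δ = 1 / (2 * A * Λ + 1) := ⟨_, rfl⟩
    have hden : 0 < 2 * A * Λ + 1 := by positivity
    have hδ : 0 < δ := by rw [hδdef]; positivity
    have hsm : Λ * (2 * A * δ) ≤ 1 := by
      have : Λ * (2 * A * δ) = (2 * A * Λ) / (2 * A * Λ + 1) := by rw [hδdef]; ring
      rw [this, div_le_one hden]
      linarith
    obtain ⟨S', a', hS', hsum', hseg⟩ := smallSup D y f l r hlr hrl hy hf C hCy hCf δ hδ R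
    have hlt : ∀ n ∈ S, n < R := fun n hn => by
      have := hS n hn
      have := hlr n
      have := hln n
      omega
    have hdisj : Disjoint S S' := by
      rw [Finset.disjoint_left]
      intro n h1 h2
      have := hlt n h1
      have := hS' n h2
      omega
    obtain ⟨b, hb⟩ : ∃ b : ℕ → ℝ, b = fun n => if n < R then a n else a' n := ⟨_, rfl⟩
    have hbS : ∀ n ∈ S, b n = a n := fun n hn => by rw [hb]; exact if_pos (hlt n hn)
    have hbS' : ∀ n ∈ S', b n = a' n := fun n hn => by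
      rw [hb]; exact if_neg (not_lt.2 (hS' n hn))
    have hsplit : ∀ g : ℕ → D.toPreDesign.V, ∑ n ∈ S ∪ S', b n • g n =
        ∑ n ∈ S, a n • g n + ∑ n ∈ S', a' n • g n := by
      intro g
      rw [Finset.sum_union hdisj]
      congr 1
      · exact Finset.sum_congr rfl fun n hn => by rw [hbS n hn]
      · exact Finset.sum_congr rfl fun n hn => by rw [hbS' n hn]
    have hR' : ∃ R', R ≤ R' ∧ ∀ n ∈ S', r n ≤ R' :=
      ⟨R + ∑ n ∈ S', r n, by omega, fun n hn => by
        have := Finset.single_le_sum (f := r) (fun i _ => Nat.zero_le _) hn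
        omega⟩
    obtain ⟨R', hRR', hR'⟩ := hR'
    have hstep : ∀ (κ : ℕ∞) (_ : 1 ≤ κ) (g : ℕ → D.toPreDesign.V)
        (_ : ∀ n s, g n s ≠ 0 → l n < s.1 ∧ s.1 ≤ r n) (_ : ∀ n, N κ (g n) ≤ C)
        (_ : N κ (∑ n ∈ S, a n • g n) ≤ A)
        (_ : ∀ (t : D.toPreDesign.Br) (p q : ℕ), |segv t p q (∑ n ∈ S', a' n • g n)| ≤ δ),
        N κ (∑ n ∈ S ∪ S', b n • g n) ≤ Real.sqrt ((↑(j + 1) : ℝ) * (4 * C ^ 2 + 1)) := by
      intro κ hκ g hg hCg hNg hsg
      have hsupp : ∀ (T : Finset ℕ) (c : ℕ → ℝ) (s : D.toPreDesign.Node),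
          (∑ n ∈ T, c n • g n) s ≠ 0 → ∃ n ∈ T, g n s ≠ 0 := by
        intro T c s hs
        rw [Finsupp.finset_sum_apply] at hs
        obtain ⟨n, hn, hne⟩ := Finset.exists_ne_zero_of_sum_ne_zero hs
        refine ⟨n, hn, fun h0 => hne ?_⟩
        rw [Finsupp.smul_apply, h0, smul_zero]
      have h1 := step_block (D := D.toPreDesign) κ hκ (∑ n ∈ S, a n • g n)
        (∑ n ∈ S', a' n • g n) R
        (fun s hs => by
          obtain ⟨n, hn, hne⟩ := hsupp _ _ _ hs
          exact (hg n s hne).2.trans (hS n hn))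
        (fun s hs => by
          obtain ⟨n, hn, hne⟩ := hsupp _ _ _ hs
          have e1 := (hg n s hne).1
          have e2 := hS' n hn
          have e3 := hln n
          omega)
        δ A (2 * C) hA (by positivity) hsg hNg
        (by
          calc N κ (∑ n ∈ S', a' n • g n) ≤ ∑ n ∈ S', N κ (a' n • g n) := N_sum_le κ S' _
            _ = ∑ n ∈ S', |a' n| * N κ (g n) :=
                Finset.sum_congr rfl fun n _ => N_smul κ _ _
            _ ≤ ∑ n ∈ S', |a' n| * C := Finset.sum_le_sum fun n _ =>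
                mul_le_mul_of_nonneg_left (hCg n) (abs_nonneg _)
            _ = 2 * C := by rw [← Finset.sum_mul, hsum'])
        (by rw [← hΛ]; exact hsm)
      rw [hsplit g]
      refine h1.trans (Real.sqrt_le_sqrt ?_)
      rw [hA2]
      push_cast
      nlinarith
    refine ⟨S ∪ S', b, R', ?_, ?_, ?_, ?_⟩
    · intro n hn
      rcases Finset.mem_union.1 hn with h | h
      · exact (hS n h).trans hRR'
      · exact hR' n h
    · rw [Finset.sum_union hdisj]
      have e1 : ∑ n ∈ S, |b n| = ∑ n ∈ S, |a n| :=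
        Finset.sum_congr rfl fun n hn => by rw [hbS n hn]
      have e2 : ∑ n ∈ S', |b n| = ∑ n ∈ S', |a' n| :=
        Finset.sum_congr rfl fun n hn => by rw [hbS' n hn]
      rw [e1, e2, hsum, hsum']
      push_cast
      ring
    · exact hstep ⊤ le_top y hy hCy hN1 fun t p q => (hseg t p q).1
    · exact hstep 6 (by norm_num) f hf hCf hN2 fun t p q => (hseg t p q).2

theorem core_block (D : Design) (y f : ℕ → D.toPreDesign.V) (l r : ℕ → ℕ) (hlr : ∀ n, l n < r n)
    (hrl : ∀ n, r n ≤ l (n + 1)) (hy : ∀ n s, y n s ≠ 0 → l n < s.1 ∧ s.1 ≤ r n)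
    (hf : ∀ n s, f n s ≠ 0 → l n < s.1 ∧ s.1 ≤ r n)
    (C : ℝ) (hCy : ∀ n, N ⊤ (y n) ≤ C) (hCf : ∀ n, N 6 (f n) ≤ C) (c : ℝ) (hc : 0 < c) :
    ∃ (S : Finset ℕ) (a : ℕ → ℝ),
      N ⊤ (∑ n ∈ S, a n • y n) + N 6 (∑ n ∈ S, a n • f n) < c * ∑ n ∈ S, |a n| := by
  obtain ⟨j, hj⟩ := exists_nat_gt ((4 * C ^ 2 + 1) / c ^ 2)
  obtain ⟨S, a, R, _, hsum, h1, h2⟩ := core_block_aux D y f l r hlr hrl hy hf C hCy hCf j
  refine ⟨S, a, ?_⟩
  have hpos : 0 < 4 * C ^ 2 + 1 := by positivity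
  have hj0 : (0 : ℝ) < j := lt_trans (by positivity) hj
  have h3 : 4 * C ^ 2 + 1 < c ^ 2 * j := by
    rw [div_lt_iff₀ (by positivity)] at hj
    linarith
  have h4 : Real.sqrt (j * (4 * C ^ 2 + 1)) < c * j := by
    rw [Real.sqrt_lt' (by positivity)]
    nlinarith
  rw [hsum]
  linarith

end Pool.Agent.L1F
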