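import Pool.Agent.Work.MP_3dfed9_an.SparseBound

/-!
# MP_3dfed9_an : counting (section 5)
-/

set_option autoImplicit false

namespace Pool.Agent.L1F

open Finset PreDesign

section snoc

variable {A : ℕ → Type} [∀ k, Fintype (A k)] [∀ k, Inhabited (A k)]

/-- append one coordinate -/
def sn {k : ℕ} (g : ∀ j : Fin k, A j) (a : A k) : ∀ j : Fin (k + 1), A j :=
  Fin.snoc (α := fun j : Fin (k + 1) => A j) g a

theorem ext_sn {k : ℕ} (g : ∀ j : Fin k, A j) (a : A k) :
    ext (sn g a) = Function.update (ext g) k a := by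
  funext j
  rcases lt_trichotomy j k with h | h | h
  · rw [Function.update_of_ne h.ne]
    have h1 : j < k + 1 := by omega
    unfold ext sn
    rw [dif_pos h1, dif_pos h]
    have := Fin.snoc_castSucc (α := fun j : Fin (k + 1) => A j) (x := a) (p := g) ⟨j, h⟩
    exact this
  · subst h
    rw [Function.update_self]
    unfold ext sn
    rw [dif_pos (Nat.lt_succ_self j)]
    exact Fin.snoc_last (α := fun i : Fin (j + 1) => A i) (x := a) (p := g)
  · rw [Function.update_of_ne h.ne']
    have h1 : ¬ j < k + 1 := by omega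
    have h2 : ¬ j < k := by omega
    unfold ext
    rw [dif_neg h1, dif_neg h2]

theorem ext_apply_lt {M : ℕ} (g : ∀ j : Fin M, A j) {j : ℕ} (h : j < M) :
    ext g j = g ⟨j, h⟩ := by
  unfold ext
  rw [dif_pos h]

/-- the equivalence `H_{k+1} ≃ A_k × H_k` -/
def snEquiv (k : ℕ) : A k × (∀ j : Fin k, A j) ≃ (∀ j : Fin (k + 1), A j) :=
  Fin.snocEquiv (fun j : Fin (k + 1) => A j)

theorem snEquiv_apply (k : ℕ) (p : A k × (∀ j : Fin k, A j)) : snEquiv k p = sn p.2 p.1 := rfl

theorem card_filter_sn {k : ℕ} (P : (∀ j : Fin (k + 1), A j) → Prop) [DecidablePred P]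
    [∀ g : (∀ j : Fin k, A j), DecidablePred (fun a : A k => P (sn g a))] :
    (Finset.univ.filter P).card =
      ∑ g : (∀ j : Fin k, A j), (Finset.univ.filter (fun a : A k => P (sn g a))).card := by
  rw [Finset.card_filter, ← Equiv.sum_comp (snEquiv k), Fintype.sum_prod_type_right]
  refine Finset.sum_congr rfl fun g _ => ?_
  rw [Finset.card_filter]
  refine Finset.sum_congr rfl fun a _ => ?_
  rw [snEquiv_apply]
  split_ifs <;> rfl

end snoc

section count

variable (D : Design)

theorem InU_succ_iff {h : D.toPreDesign.Ln} {k : ℕ} {t : D.toPreDesign.Br} :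
    InU h (k + 1) t ↔ InU h k t ∧ D.lam k (h k) (xx t) = (t k).2.1 ∧
      D.val (k + 1) h (xx t) (t (k + 1)).2.1 = (t (k + 1)).2.2 := by
  unfold InU In
  constructor
  · rintro ⟨h1, h2⟩
    refine ⟨⟨fun j hj => h1 j (by omega), (h1 k (by omega)).2⟩, (h1 k (by omega)).1.symm, h2.symm⟩
  · rintro ⟨⟨h1, h2⟩, h3, h4⟩
    refine ⟨fun j hj => ?_, h4.symm⟩
    rcases Nat.lt_succ_iff_lt_or_eq.mp hj with hj' | hj'
    · exact h1 j hj'
    · subst hj'
      exact ⟨h3.symm, h2⟩

theorem In_succ_iff {h : D.toPreDesign.Ln} {k : ℕ} {t : D.toPreDesign.Br} :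
    In h (k + 1) t ↔ InU h k t ∧ D.lam k (h k) (xx t) = (t k).2.1 := by
  unfold InU In
  constructor
  · intro h1
    exact ⟨⟨fun j hj => h1 j (by omega), (h1 k (by omega)).2⟩, (h1 k (by omega)).1.symm⟩
  · rintro ⟨⟨h1, h2⟩, h3⟩ j hj
    rcases Nat.lt_succ_iff_lt_or_eq.mp hj with hj' | hj'
    · exact h1 j hj'
    · subst hj'
      exact ⟨h3.symm, h2⟩

theorem InU_update_iff {h : D.toPreDesign.Ln} {k : ℕ} {t : D.toPreDesign.Br} (a : D.A k) :
    InU (Function.update h k a) k t ↔ InU h k t := by
  refine InU_congr (fun j hj => ?_) (fun _ _ => rfl)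
  rw [Function.update_of_ne hj.ne]

theorem InU_sn_iff {k : ℕ} (g : ∀ j : Fin k, D.A j) (a : D.A k) (t : D.toPreDesign.Br) :
    InU (ext (sn g a)) (k + 1) t ↔ InU (ext g) k t ∧ (D.lam k a (xx t) = (t k).2.1 ∧
      D.val (k + 1) (Function.update (ext g) k a) (xx t) (t (k + 1)).2.1 = (t (k + 1)).2.2) := by
  rw [ext_sn, InU_succ_iff, InU_update_iff, Function.update_self]

theorem In_sn_iff {k : ℕ} (g : ∀ j : Fin k, D.A j) (a : D.A k) (t : D.toPreDesign.Br) :
    In (ext (sn g a)) (k + 1) t ↔ InU (ext g) k t ∧ D.lam k a (xx t) = (t k).2.1 := by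
  rw [ext_sn, In_succ_iff, InU_update_iff, Function.update_self]

end count

theorem Lset_congr (D : Design) {t t' : D.toPreDesign.Br} {k : ℕ} (h : ∀ j < k + 1, t j = t' j) :
    Lset t k = Lset t' k := by
  classical
  unfold Lset
  ext g
  simp only [Finset.mem_filter, Finset.mem_univ, true_and]
  exact InU_congr (fun _ _ => rfl) h

theorem mem_Lset (D : Design) {t : D.toPreDesign.Br} {k : ℕ} {g : ∀ j : Fin k, D.A j} :
    g ∈ Lset t k ↔ InU (ext g) k t := by
  classical
  unfold Lset
  simp only [Finset.mem_filter, Finset.mem_univ, true_and]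

open scoped Classical in
theorem card_lam_val (D : Design) (t : D.toPreDesign.Br) (k : ℕ) (h : D.toPreDesign.Ln) :
    (Finset.univ.filter (fun a : D.A k => D.lam k a (xx t) = (t k).2.1 ∧
      D.val (k + 1) (Function.update h k a) (xx t) (t (k + 1)).2.1 = (t (k + 1)).2.2)).card =
    Fintype.card (D.E (k + 1)) := by
  have := D.loc1 k h (xx t) (t k).2.1 (t (k + 1)).2.1 (t (k + 1)).2.2
  convert this using 2

open scoped Classical in
theorem card_lam (D : Design) (x : ℕ → Bool) (k : ℕ) (lm : D.L k) :
    (Finset.univ.filter (fun a : D.A k => D.lam k a x = lm)).card =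
      Fintype.card (D.E (k + 1)) * Fintype.card (D.E (k + 1)) := by
  have h0 : D.toPreDesign.Ln := fun _ => default
  have l0 : D.L (k + 1) := default
  have h1 : ∀ v : D.E (k + 1), (Finset.univ.filter (fun a : D.A k => D.lam k a x = lm ∧
      D.val (k + 1) (Function.update h0 k a) x l0 = v)).card = Fintype.card (D.E (k + 1)) := by
    intro v
    have := D.loc1 k h0 x lm l0 v
    convert this using 2
  have h2 : (Finset.univ.filter (fun a : D.A k => D.lam k a x = lm)).card =
      ∑ v : D.E (k + 1), (Finset.univ.filter (fun a : D.A k => D.lam k a x = lm ∧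
      D.val (k + 1) (Function.update h0 k a) x l0 = v)).card := by
    rw [Finset.card_eq_sum_card_fiberwise
      (f := fun a : D.A k => D.val (k + 1) (Function.update h0 k a) x l0) (t := Finset.univ)
      (fun _ _ => Finset.mem_coe.2 (Finset.mem_univ _))]
    refine Finset.sum_congr rfl fun v _ => ?_
    rw [Finset.filter_filter]
  rw [h2, Finset.sum_congr rfl fun v _ => h1 v, Finset.sum_const, Finset.card_univ, smul_eq_mul]

theorem card_Lset_succ (D : Design) (t : D.toPreDesign.Br) (k : ℕ) :
    (Lset t (k + 1)).card = Fintype.card (D.E (k + 1)) * (Lset t k).card := by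
  classical
  unfold Lset
  rw [card_filter_sn, Finset.card_filter, Finset.mul_sum]
  refine Finset.sum_congr rfl fun g _ => ?_
  by_cases hg : InU (ext g) k t
  · rw [if_pos hg, mul_one, ← card_lam_val D t k (ext g)]
    congr 1
    refine Finset.filter_congr fun a _ => ?_
    rw [InU_sn_iff]
    exact and_iff_right hg
  · rw [if_neg hg, mul_zero, Finset.card_eq_zero, Finset.filter_eq_empty_iff]
    intro a _ h
    exact hg ((InU_sn_iff D g a t).1 h).1

open scoped Classical in
/-- the induction for (C1) -/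
theorem card_extU (D : Design) (k M : ℕ) (hk : k ≤ M) : ∃ c : ℕ, 0 < c ∧
    ∀ (t : D.toPreDesign.Br) (g : ∀ j : Fin k, D.A j),
      (Finset.univ.filter (fun h : ∀ j : Fin M, D.A j =>
        InU (ext h) M t ∧ ∀ j : Fin k, ext h j = g j)).card = if g ∈ Lset t k then c else 0 := by
  induction M, hk using Nat.le_induction with
  | base =>
    refine ⟨1, one_pos, fun t g => ?_⟩
    have h1 : ∀ h : (∀ j : Fin k, D.A j), (∀ j : Fin k, ext h j = g j) ↔ h = g := by
      intro h
      constructor
      · intro h1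
        funext j
        rw [← h1 j, ext_apply_lt h j.2]
      · rintro rfl j
        exact ext_apply_lt h j.2
    have h2 : (Finset.univ.filter (fun h : ∀ j : Fin k, D.A j =>
        InU (ext h) k t ∧ ∀ j : Fin k, ext h j = g j)) =
        if g ∈ Lset t k then {g} else ∅ := by
      ext h
      simp only [Finset.mem_filter, Finset.mem_univ, true_and, h1]
      split_ifs with hg
      · rw [Finset.mem_singleton]
        constructor
        · exact fun h => h.2
        · rintro rfl
          exact ⟨(mem_Lset D).1 hg, rfl⟩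
      · constructor
        · rintro ⟨h2, rfl⟩
          exact absurd ((mem_Lset D).2 h2) hg
        · intro h; simp at h
    rw [h2]
    split_ifs <;> simp
  | succ M hM ih =>
    obtain ⟨c, hc, ih⟩ := ih
    refine ⟨Fintype.card (D.E (M + 1)) * c, Nat.mul_pos Fintype.card_pos hc, fun t g => ?_⟩
    rw [card_filter_sn]
    have h1 : ∀ h : (∀ j : Fin M, D.A j),
        (Finset.univ.filter (fun a : D.A M => InU (ext (sn h a)) (M + 1) t ∧
          ∀ j : Fin k, ext (sn h a) j = g j)).card =
        Fintype.card (D.E (M + 1)) *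
          if (InU (ext h) M t ∧ ∀ j : Fin k, ext h j = g j) then 1 else 0 := by
      intro h
      have h2 : ∀ a : D.A M, (∀ j : Fin k, ext (sn h a) j = g j) ↔
          ∀ j : Fin k, ext h j = g j := by
        intro a
        refine forall_congr' fun j => ?_
        rw [ext_sn, Function.update_of_ne (by have := j.2; omega)]
      split_ifs with hg
      · rw [mul_one, ← card_lam_val D t M (ext h)]
        congr 1
        refine Finset.filter_congr fun a _ => ?_
        rw [InU_sn_iff, h2]
        constructor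
        · exact fun h => h.1.2
        · exact fun h => ⟨⟨hg.1, h⟩, hg.2⟩
      · rw [mul_zero, Finset.card_eq_zero, Finset.filter_eq_empty_iff]
        intro a _ h
        rw [InU_sn_iff, h2] at h
        exact hg ⟨h.1.1, h.2⟩
    rw [Finset.sum_congr rfl fun h _ => h1 h, ← Finset.mul_sum, ← Finset.card_filter, ih t g]
    split_ifs <;> simp

/-- (C1) -/
theorem card_ext (D : Design) (k M : ℕ) (hk : k < M) : ∃ c : ℕ, 0 < c ∧
    ∀ (t : D.toPreDesign.Br) (g : ∀ j : Fin k, D.A j) [DecidablePred (fun h : ∀ j : Fin M, D.A j =>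
        In (ext h) M t ∧ ∀ j : Fin k, ext h j = g j)] [Decidable (g ∈ Lset t k)],
      (Finset.univ.filter (fun h : ∀ j : Fin M, D.A j =>
        In (ext h) M t ∧ ∀ j : Fin k, ext h j = g j)).card = if g ∈ Lset t k then c else 0 := by
  classical
  obtain ⟨M, rfl⟩ : ∃ M', M = M' + 1 := ⟨M - 1, by omega⟩
  obtain ⟨c, hc, hcard⟩ := card_extU D k M (by omega)
  refine ⟨Fintype.card (D.E (M + 1)) * Fintype.card (D.E (M + 1)) * c,
    Nat.mul_pos (Nat.mul_pos Fintype.card_pos Fintype.card_pos) hc, fun t g _ _ => ?_⟩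
  have h0 : (Finset.univ.filter (fun h : ∀ j : Fin (M + 1), D.A j =>
        In (ext h) (M + 1) t ∧ ∀ j : Fin k, ext h j = g j)).card =
      Fintype.card (D.E (M + 1)) * Fintype.card (D.E (M + 1)) *
        (if g ∈ Lset t k then c else 0) := by
    have hcard' : (if g ∈ Lset t k then c else 0) = (Finset.univ.filter (fun h : ∀ j : Fin M, D.A j =>
        InU (ext h) M t ∧ ∀ j : Fin k, ext h j = g j)).card := by
      rw [hcard t g]
      split_ifs <;> rfl
    rw [hcard']
    have e : (Finset.univ.filter (fun h : ∀ j : Fin (M + 1), D.A j =>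
        In (ext h) (M + 1) t ∧ ∀ j : Fin k, ext h j = g j)).card = 
        ∑ h : (∀ j : Fin M, D.A j), (Finset.univ.filter (fun a : D.A M =>
          In (ext (sn h a)) (M + 1) t ∧ ∀ j : Fin k, ext (sn h a) j = g j)).card := by
      rw [card_filter_sn]
    rw [e]
    have h1 : ∀ h : (∀ j : Fin M, D.A j),
        (Finset.univ.filter (fun a : D.A M => In (ext (sn h a)) (M + 1) t ∧
          ∀ j : Fin k, ext (sn h a) j = g j)).card =
        Fintype.card (D.E (M + 1)) * Fintype.card (D.E (M + 1)) *
          if (InU (ext h) M t ∧ ∀ j : Fin k, ext h j = g j) then 1 else 0 := by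
      intro h
      have h2 : ∀ a : D.A M, (∀ j : Fin k, ext (sn h a) j = g j) ↔
          ∀ j : Fin k, ext h j = g j := by
        intro a
        refine forall_congr' fun j => ?_
        rw [ext_sn, Function.update_of_ne (by have := j.2; omega)]
      split_ifs with hg
      · rw [mul_one, ← card_lam D (xx t) M (t M).2.1]
        congr 1
        refine Finset.filter_congr fun a _ => ?_
        rw [In_sn_iff, h2]
        constructor
        · exact fun h => h.1.2
        · exact fun h => ⟨⟨hg.1, h⟩, hg.2⟩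
      · rw [mul_zero, Finset.card_eq_zero, Finset.filter_eq_empty_iff]
        intro a _ h
        rw [In_sn_iff, h2] at h
        exact hg ⟨h.1.1, h.2⟩
    rw [Finset.sum_congr rfl fun h _ => h1 h, ← Finset.mul_sum, ← Finset.card_filter]
  rw [h0]
  split_ifs <;> simp

/-- the set of lines is nonempty at a branch of a line -/
theorem Lset_tb_nonempty (D : Design) (h : D.toPreDesign.Ln) (x : ℕ → Bool) (k : ℕ) :
    (Lset (tb h x) k).Nonempty := by
  refine ⟨fun j => h j, ?_⟩
  rw [mem_Lset]
  have h1 : InU h k (tb h x) := ⟨In_tb h x k, rfl⟩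
  refine (InU_congr (fun j hj => ?_) (fun _ _ => rfl)).1 h1
  rw [ext_apply_lt _ hj]

open scoped Classical in
/-- the key step of (C2): a fixed `x`, a fixed value of the branch -/
theorem posterior_fiber (D : Design) (k M : ℕ) (hk : k < M)
    (Ψ : D.toPreDesign.Ln → D.toPreDesign.Br → ℝ)
    (hΨ : ∀ h h' t t', (∀ j < k, h j = h' j) → (∀ j < M, t j = t' j) → Ψ h t = Ψ h' t')
    (t : D.toPreDesign.Br) :
    ∑ h ∈ (Finset.univ : Finset (∀ j : Fin M, D.A j)).filter (fun h => In (ext h) M t),
      Ψ (ext h) t =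
    ∑ h ∈ (Finset.univ : Finset (∀ j : Fin M, D.A j)).filter (fun h => In (ext h) M t),
      (∑ g ∈ Lset t k, Ψ (ext g) t) / ((Lset t k).card : ℝ) := by
  obtain ⟨c, hc, hcard⟩ := card_ext D k M hk
  set S := (Finset.univ : Finset (∀ j : Fin M, D.A j)).filter (fun h => In (ext h) M t) with hS
  let r : (∀ j : Fin M, D.A j) → (∀ j : Fin k, D.A j) := fun h j => ext h j
  have hfib : ∀ g : (∀ j : Fin k, D.A j), (S.filter (fun h => r h = g)).card =
      if g ∈ Lset t k then c else 0 := by
    intro g
    have := hcard t g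
    rw [← this, hS, Finset.filter_filter]
    congr 1
    refine Finset.filter_congr fun h _ => ?_
    refine and_congr_right fun _ => ?_
    exact funext_iff
  have h1 : ∀ F : (∀ j : Fin k, D.A j) → ℝ, ∑ h ∈ S, F (r h) = c * ∑ g ∈ Lset t k, F g := by
    intro F
    rw [← Finset.sum_fiberwise S r, Finset.mul_sum]
    rw [← Finset.sum_filter_add_sum_filter_not Finset.univ (fun g => g ∈ Lset t k)]
    have e1 : ∀ g : (∀ j : Fin k, D.A j), ∑ h ∈ S with r h = g, F (r h) =
        (if g ∈ Lset t k then (c : ℝ) else 0) * F g := by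
      intro g
      rw [Finset.sum_congr rfl (g := fun _ => F g) (fun h hh => by
        rw [(Finset.mem_filter.1 hh).2]), Finset.sum_const, hfib g, nsmul_eq_mul]
      split_ifs <;> simp
    rw [Finset.sum_congr rfl fun g _ => e1 g, Finset.sum_congr rfl fun g _ => e1 g]
    have e2 : ∑ g ∈ Finset.univ.filter (fun g => g ∉ Lset t k),
        (if g ∈ Lset t k then (c : ℝ) else 0) * F g = 0 := by
      refine Finset.sum_eq_zero fun g hg => ?_
      rw [if_neg (Finset.mem_filter.1 hg).2, zero_mul]
    rw [e2, add_zero]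
    have e3 : Finset.univ.filter (fun g => g ∈ Lset t k) = Lset t k := by
      ext g; simp
    rw [e3]
    refine Finset.sum_congr rfl fun g hg => ?_
    rw [if_pos hg]
  have h2 : ∑ h ∈ S, Ψ (ext h) t = ∑ h ∈ S, Ψ (ext (r h)) t := by
    refine Finset.sum_congr rfl fun h _ => ?_
    refine hΨ _ _ _ _ (fun j hj => ?_) (fun _ _ => rfl)
    rw [ext_apply_lt (r h) hj]
  have h3 : (S.card : ℝ) = c * (Lset t k).card := by
    have := h1 (fun _ => 1)
    simpa using this
  rw [h2, h1 (fun g => Ψ (ext g) t), Finset.sum_const, nsmul_eq_mul, h3]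
  rcases Nat.eq_zero_or_pos (Lset t k).card with h0 | h0
  · rw [h0]
    rw [Finset.card_eq_zero] at h0
    rw [h0]
    simp
  · have : ((Lset t k).card : ℝ) ≠ 0 := by positivity
    field_simp

/-- (C2) the conditional law of `h|k` -/
theorem avg_posterior (D : Design) (k M : ℕ) (hk : k < M)
    (Ψ : D.toPreDesign.Ln → D.toPreDesign.Br → ℝ)
    (hΨ : ∀ h h' t t', (∀ j < k, h j = h' j) → (∀ j < M, t j = t' j) → Ψ h t = Ψ h' t') :
    avg M (fun h x => Ψ h (tb h x)) =
      avg M (fun h x => (∑ g ∈ Lset (tb h x) k, Ψ (ext g) (tb h x)) /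
        ((Lset (tb h x) k).card : ℝ)) := by
  classical
  unfold avg
  congr 1
  rw [Finset.sum_comm, Finset.sum_comm (s := (Finset.univ : Finset (∀ k : Fin M, D.A k)))]
  refine Finset.sum_congr rfl fun y _ => ?_
  set x : ℕ → Bool := ext (A := fun _ => Bool) y with hx
  let T : (∀ j : Fin M, D.A j) → (∀ j : Fin M, D.Io j) := fun h j => tb (ext h) x j
  rw [← Finset.sum_fiberwise Finset.univ T, ← Finset.sum_fiberwise Finset.univ T]
  refine Finset.sum_congr rfl fun τ _ => ?_
  by_cases hτ : ∃ h0, T h0 = τ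
  · obtain ⟨h0, hh0⟩ := hτ
    set t : D.toPreDesign.Br := tb (ext h0) x with ht
    have hTt : ∀ h, T h = τ ↔ In (ext h) M t := by
      intro h
      constructor
      · intro hh
        have h1 : In (ext h) M (tb (ext h) x) := In_tb _ _ _
        refine (In_congr (fun _ _ => rfl) (fun j hj => ?_)).1 h1
        have := congrFun (hh.trans hh0.symm) ⟨j, hj⟩
        exact this
      · intro hh
        rw [← hh0]
        funext j
        have h1 := eq_tb_of_In hh j j.2
        have h2 : xx t = x := rfl
        rw [h2] at h1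
        exact h1.symm
    have hagree : ∀ h, T h = τ → ∀ j < M, tb (ext h) x j = t j := by
      intro h hh j hj
      have := congrFun (hh.trans hh0.symm) ⟨j, hj⟩
      exact this
    have hL : ∀ h, T h = τ → Lset (tb (ext h) x) k = Lset t k := by
      intro h hh
      exact Lset_congr D (fun j hj => hagree h hh j (by omega))
    have hS : (Finset.univ.filter (fun h => T h = τ)) =
        (Finset.univ : Finset (∀ j : Fin M, D.A j)).filter (fun h => In (ext h) M t) := by
      refine Finset.filter_congr fun h _ => hTt h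
    have h1 : ∑ h ∈ Finset.univ with T h = τ, Ψ (ext h) (tb (ext h) x) =
        ∑ h ∈ Finset.univ with T h = τ, Ψ (ext h) t := by
      refine Finset.sum_congr rfl fun h hh => ?_
      exact hΨ _ _ _ _ (fun _ _ => rfl) (hagree h (Finset.mem_filter.1 hh).2)
    have h2 : ∑ h ∈ Finset.univ with T h = τ, (∑ g ∈ Lset (tb (ext h) x) k,
        Ψ (ext g) (tb (ext h) x)) / ((Lset (tb (ext h) x) k).card : ℝ) =
        ∑ h ∈ Finset.univ with T h = τ, (∑ g ∈ Lset t k, Ψ (ext g) t) /
          ((Lset t k).card : ℝ) := by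
      refine Finset.sum_congr rfl fun h hh => ?_
      have hh' := (Finset.mem_filter.1 hh).2
      rw [hL h hh']
      congr 1
      refine Finset.sum_congr rfl fun g _ => ?_
      exact hΨ _ _ _ _ (fun _ _ => rfl) (hagree h hh')
    rw [h1, h2, hS]
    exact posterior_fiber D k M hk Ψ hΨ t
  · have : (Finset.univ.filter (fun h => T h = τ)) = ∅ := by
      rw [Finset.filter_eq_empty_iff]
      intro h _ hh
      exact hτ ⟨h, hh⟩
    rw [this]
    simp

/-- two traces of a line at different nodes differ in `x` or in `l` -/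
theorem node_ne (D : Design) {t t' : D.toPreDesign.Br} {k : ℕ} {h : D.toPreDesign.Ln}
    (h1 : InU h k t) (h2 : InU h k t') (hl : (t k).2.1 = (t' k).2.1)
    (hx : ∀ j ≤ k, xx t j = xx t' j) : nd t (k + 1) = nd t' (k + 1) := by
  have key : ∀ j ≤ k, t j = t' j := by
    intro j hj
    have e1 : (t j).1 = (t' j).1 := hx j hj
    have e2 : (t j).2.1 = (t' j).2.1 := by
      rcases hj.lt_or_eq with hj' | rfl
      · rw [(h1.1 j hj').1, (h2.1 j hj').1]
        exact D.lam_congr j (h j) _ _ (fun i hi => hx i (by omega))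
      · exact hl
    have e3 : (t j).2.2 = (t' j).2.2 := by
      have f1 : (t j).2.2 = D.val j h (xx t) (t j).2.1 := by
        rcases hj.lt_or_eq with hj' | rfl
        · exact (h1.1 j hj').2
        · exact h1.2
      have f2 : (t' j).2.2 = D.val j h (xx t') (t' j).2.1 := by
        rcases hj.lt_or_eq with hj' | rfl
        · exact (h2.1 j hj').2
        · exact h2.2
      rw [f1, f2, e2]
      exact D.val_congr j h h _ _ _ (fun _ _ => rfl) (fun i hi => hx i (by omega))
    exact Prod.ext e1 (Prod.ext e2 e3)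
  unfold nd
  congr 1
  funext j
  exact key j (by have := j.2; omega)

theorem sp1 (D : Design) (t t' : D.toPreDesign.Br) (k : ℕ) (hk : 1 ≤ k)
    (hne : nd t (k + 1) ≠ nd t' (k + 1))
    [DecidablePred (fun g : ∀ j : Fin k, D.A j => InU (ext g) k t')] :
    ((Lset t k).filter (fun g => InU (ext g) k t')).card * Fintype.card (D.E k) ≤
      (Lset t k).card := by
  classical
  obtain ⟨k, rfl⟩ : ∃ k', k = k' + 1 := ⟨k - 1, by omega⟩
  rw [card_Lset_succ, mul_comm]
  refine Nat.mul_le_mul_left _ ?_
  have h0 : ((Lset t (k + 1)).filter (fun g => InU (ext g) (k + 1) t')) =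
      Finset.univ.filter (fun g => InU (ext g) (k + 1) t ∧ InU (ext g) (k + 1) t') := by
    ext g
    simp only [Finset.mem_filter, mem_Lset, Finset.mem_univ, true_and]
  rw [h0, card_filter_sn]
  have h1 : (Lset t k).card = ∑ g : (∀ j : Fin k, D.A j), if InU (ext g) k t then 1 else 0 := by
    rw [← Finset.card_filter]
    rfl
  rw [h1]
  refine Finset.sum_le_sum fun g _ => ?_
  split_ifs with hg
  · by_cases hcase : (t (k + 1)).2.1 ≠ (t' (k + 1)).2.1 ∨ ∃ j ≤ k + 1, xx t j ≠ xx t' j
    · have h2 := D.loc2 k (ext g) (xx t) (xx t') (t k).2.1 (t (k + 1)).2.1 (t' (k + 1)).2.1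
        (t (k + 1)).2.2 (t' (k + 1)).2.2 hcase
      refine le_trans (Finset.card_le_card ?_) h2
      intro a ha
      simp only [Finset.mem_filter, Finset.mem_univ, true_and] at ha ⊢
      obtain ⟨ha1, ha2⟩ := ha
      rw [InU_sn_iff] at ha1 ha2
      exact ⟨ha1.2.1, ha1.2.2, ha2.2.2⟩
    · rw [Nat.le_one_iff_eq_zero_or_eq_one]
      left
      rw [Finset.card_eq_zero, Finset.filter_eq_empty_iff]
      rintro a _ ⟨ha1, ha2⟩
      push Not at hcase
      exact hne (node_ne D ha1 ha2 hcase.1 hcase.2)
  · rw [Nat.le_zero, Finset.card_eq_zero, Finset.filter_eq_empty_iff]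
    rintro a _ ⟨ha1, _⟩
    exact hg ((InU_sn_iff D g a t).1 ha1).1

theorem sp2 (D : Design) (t t' : D.toPreDesign.Br) (k : ℕ) (hk : 1 ≤ k)
    (hne : nd t (k + 1) ≠ nd t' (k + 1))
    [DecidablePred (fun g : ∀ j : Fin (k + 1), D.A j => In (ext g) (k + 1) t')] :
    ((Lset t (k + 1)).filter (fun g => In (ext g) (k + 1) t')).card * Fintype.card (D.E k) ≤
      (Lset t (k + 1)).card := by
  classical
  rw [card_Lset_succ]
  refine le_trans ?_ (Nat.mul_le_mul_left _ (sp1 D t t' k hk hne))
  rw [← mul_assoc]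
  refine Nat.mul_le_mul_right _ ?_
  have h0 : ((Lset t (k + 1)).filter (fun g => In (ext g) (k + 1) t')) =
      Finset.univ.filter (fun g => InU (ext g) (k + 1) t ∧ In (ext g) (k + 1) t') := by
    ext g
    simp only [Finset.mem_filter, mem_Lset, Finset.mem_univ, true_and]
  have h1 : ((Lset t k).filter (fun g => InU (ext g) k t')).card =
      ∑ g : (∀ j : Fin k, D.A j), if (InU (ext g) k t ∧ InU (ext g) k t') then 1 else 0 := by
    rw [← Finset.card_filter]
    congr 1
    ext g
    simp only [Finset.mem_filter, mem_Lset, Finset.mem_univ, true_and]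
  rw [h0, card_filter_sn, h1, Finset.mul_sum]
  refine Finset.sum_le_sum fun g _ => ?_
  split_ifs with hg
  · rw [mul_one, ← card_lam_val D t k (ext g)]
    refine Finset.card_le_card ?_
    intro a ha
    simp only [Finset.mem_filter, Finset.mem_univ, true_and] at ha ⊢
    rw [InU_sn_iff] at ha
    exact ha.1.2
  · rw [mul_zero, Nat.le_zero, Finset.card_eq_zero, Finset.filter_eq_empty_iff]
    rintro a _ ⟨ha1, ha2⟩
    rw [In_sn_iff] at ha2
    exact hg ⟨((InU_sn_iff D g a t).1 ha1).1, ha2.1⟩

end Pool.Agent.L1F
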