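import Mathlib

/-!
# MP_3dfed9_an : definitions

Abstract design, branches, lines, nodes, segments, the two tree norms, the relation vectors.
See the proof note (kind `proof`, id 1396) on the problem.
-/

set_option autoImplicit false

namespace Pool.Agent.L1F

open Finset

/-- extension of a finite sequence by default values -/
def ext {A : ℕ → Type} [∀ k, Inhabited (A k)] {M : ℕ} (g : ∀ k : Fin M, A k) : ∀ k, A k :=
  fun k => if h : k < M then g ⟨k, h⟩ else default

/-- the average of `F` over `H_M × X_M` -/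
noncomputable def avg {A : ℕ → Type} [∀ k, Fintype (A k)] [∀ k, Inhabited (A k)] (M : ℕ)
    (F : (∀ k, A k) → (ℕ → Bool) → ℝ) : ℝ :=
  (∑ g : (∀ k : Fin M, A k), ∑ y : (Fin M → Bool), F (ext g) (ext (A := fun _ => Bool) y)) /
    ((Fintype.card (∀ k : Fin M, A k) : ℝ) * 2 ^ M)

/-- the data of a design -/
structure PreDesign where
  /-- the coordinates of lines -/
  A : ℕ → Type
  /-- the labels `λ` -/
  L : ℕ → Type
  /-- the labels `v` -/
  E : ℕ → Type
  fA : ∀ k, Fintype (A k)
  fL : ∀ k, Fintype (L k)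
  fE : ∀ k, Fintype (E k)
  iA : ∀ k, Inhabited (A k)
  iL : ∀ k, Inhabited (L k)
  iE : ∀ k, Inhabited (E k)
  /-- the label `λ` revealed at coordinate `m` -/
  lam : ∀ m, A m → (ℕ → Bool) → L m
  /-- the label `v` revealed at coordinate `m` -/
  val : ∀ m, (∀ k, A k) → (ℕ → Bool) → L m → E m
  lam_congr : ∀ (m : ℕ) (a : A m) (x x' : ℕ → Bool), (∀ k ≤ m, x k = x' k) →
    lam m a x = lam m a x'
  val_congr : ∀ (m : ℕ) (h h' : ∀ k, A k) (x x' : ℕ → Bool) (l : L m),
    (∀ k < m, h k = h' k) → (∀ k ≤ m, x k = x' k) → val m h x l = val m h' x' l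

attribute [instance] PreDesign.fA PreDesign.fL PreDesign.fE PreDesign.iA PreDesign.iL PreDesign.iE

namespace PreDesign

variable (D : PreDesign)

/-- the labels of the tree -/
abbrev Io (k : ℕ) : Type := Bool × D.L k × D.E k

/-- branches -/
abbrev Br : Type := ∀ k, D.Io k

/-- lines -/
abbrev Ln : Type := ∀ k, D.A k

/-- nodes: a level `m` and the first `m` coordinates -/
abbrev Node : Type := Σ m : ℕ, (∀ k : Fin m, D.Io k)

/-- finitely supported functions on nodes -/
abbrev V : Type := D.Node →₀ ℝ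

variable {D}

/-- the node of level `m` on the branch `t` -/
def nd (t : D.Br) (m : ℕ) : D.Node := ⟨m, fun k => t k⟩

/-- the `x`-part of a branch -/
def xx (t : D.Br) : ℕ → Bool := fun k => (t k).1

/-- `t|m ∈ S_{h|m}` -/
def In (h : D.Ln) (m : ℕ) (t : D.Br) : Prop :=
  ∀ j < m, (t j).2.1 = D.lam j (h j) (xx t) ∧ (t j).2.2 = D.val j h (xx t) (t j).2.1

/-- `t|m+1 ∈ U_{h|m}` -/
def InU (h : D.Ln) (m : ℕ) (t : D.Br) : Prop :=
  In h m t ∧ (t m).2.2 = D.val m h (xx t) (t m).2.1

/-- the branch of the line `h` with `x`-part `x` -/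
def tb (h : D.Ln) (x : ℕ → Bool) : D.Br :=
  fun k => (x k, D.lam k (h k) x, D.val k h x (D.lam k (h k) x))

/-- truncation of a branch at level `M` -/
def trunc (M : ℕ) (t : D.Br) : D.Br := fun k => if k < M then t k else default

/-- the basis vector of a node -/
noncomputable def bv (s : D.Node) : D.V := Finsupp.single s 1

open scoped Classical in
/-- the vector `b_{t|m} - ∑_{c ∈ U} b_c` -/
noncomputable def rv (h : D.Ln) (m : ℕ) (t : D.Br) : D.V :=
  bv (nd t m) - ∑ c : D.Io m,
    if InU h m (Function.update t m c) then bv (nd (Function.update t m c) (m + 1)) else 0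

open scoped Classical in
/-- the vector `∑_{c child, c ∉ U} b_c` -/
noncomputable def thv (h : D.Ln) (m : ℕ) (t : D.Br) : D.V :=
  ∑ c : D.Io m,
    if InU h m (Function.update t m c) then 0 else bv (nd (Function.update t m c) (m + 1))

open scoped Classical in
/-- the functional of a whole branch (levels `≥ 1`) -/
noncomputable def tot (t : D.Br) : D.V →ₗ[ℝ] ℝ :=
  Finsupp.linearCombination ℝ (fun s : D.Node => if 0 < s.1 ∧ s = nd t s.1 then (1 : ℝ) else 0)

/-- the functional of the segment `(a, b]` of the branch `t` -/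
noncomputable def segv (t : D.Br) (a b : ℕ) (f : D.V) : ℝ := ∑ m ∈ Finset.Ioc a b, f (nd t m)

/-- segments -/
structure Seg (D : PreDesign) where
  t : D.Br
  a : ℕ
  b : ℕ

/-- the value of a segment -/
noncomputable def Seg.v (I : Seg D) (f : D.V) : ℝ := segv I.t I.a I.b f

/-- the segment `(t, a, b)` exits the line `h` -/
def Exits (h : D.Ln) (I : Seg D) : Prop :=
  ∃ m, I.a ≤ m ∧ m < I.b ∧ In h m I.t ∧ ¬ InU h m I.t

/-- disjointness of segments -/
def Disj (I J : Seg D) : Prop :=
  ∀ m, m ∈ Finset.Ioc I.a I.b → m ∈ Finset.Ioc J.a J.b → nd I.t m ≠ nd J.t m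

open scoped Classical in
/-- a finite family of pairwise disjoint segments at most `κ` of which exit any line -/
def Allowed {ι : Type} (κ : ℕ∞) (S : Finset ι) (I : ι → Seg D) : Prop :=
  (∀ i ∈ S, ∀ j ∈ S, i ≠ j → Disj (I i) (I j)) ∧
    ∀ h : D.Ln, (((S.filter (fun i => Exits h (I i))).card : ℕ) : ℕ∞) ≤ κ

/-- the norm `N_κ` -/
noncomputable def N (κ : ℕ∞) (f : D.V) : ℝ :=
  sSup {r : ℝ | ∃ (S : Finset ℕ) (I : ℕ → Seg D), Allowed κ S I ∧
    r = Real.sqrt (∑ i ∈ S, ((I i).v f) ^ 2)}

open scoped Classical in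
/-- restriction to the levels in `(l, r]` -/
noncomputable def res (l r : ℕ) (f : D.V) : D.V := f.filter (fun s => l < s.1 ∧ s.1 ≤ r)

open scoped Classical in
/-- the set `L(t,k)` of lines of level `k` through `t|k` with `t|k+1` in the trace -/
noncomputable def Lset (t : D.Br) (k : ℕ) : Finset (∀ j : Fin k, D.A j) :=
  Finset.univ.filter (fun g => InU (ext g) k t)

open scoped Classical in
/-- the bracket of the forced relation -/
noncomputable def brk (φ : D.V →ₗ[ℝ] ℝ) (h : D.Ln) (k : ℕ) (t : D.Br) : ℝ :=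
  φ (rv h k t) - ∑ y : (Fin k → Bool),
    if (∀ i : Fin k, y i = xx t i) then 0
    else |φ (rv h k (tb h (ext (A := fun _ => Bool) y)))|

/-- the combination `∑_{n ≤ k < m1} ∑_{y ∈ {0,1}^k} ε(y) r(h,k,tb(h,y))` -/
noncomputable def Xv (h : D.Ln) (n m1 : ℕ) (ε : (ℕ → Bool) → ℝ) : D.V :=
  ∑ k ∈ Finset.Ico n m1, ∑ y : (Fin k → Bool),
    ε (ext (A := fun _ => Bool) y) • rv h k (tb h (ext (A := fun _ => Bool) y))

/-- the corresponding combination of the vectors `thv` -/
noncomputable def Zv (h : D.Ln) (n m1 : ℕ) (ε : (ℕ → Bool) → ℝ) : D.V :=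
  ∑ k ∈ Finset.Ico n m1, ∑ y : (Fin k → Bool),
    ε (ext (A := fun _ => Bool) y) • thv h k (tb h (ext (A := fun _ => Bool) y))

end PreDesign

open PreDesign

open scoped Classical in
/-- a design -/
structure Design extends PreDesign where
  /-- six distinct common nodes determine the line -/
  t1 : ∀ (m : ℕ) (h h' : toPreDesign.Ln) (t : Fin 6 → toPreDesign.Br),
    (∀ i j, i ≠ j → ∃ k < m, t i k ≠ t j k) →
    (∀ i, PreDesign.In h m (t i)) → (∀ i, PreDesign.In h' m (t i)) → ∀ k < m, h k = h' k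
  /-- masks and slopes: exact count -/
  loc1 : ∀ (m : ℕ) (h : toPreDesign.Ln) (x : ℕ → Bool) (lm : L m) (l : L (m + 1)) (v : E (m + 1)),
    (Finset.univ.filter (fun a : A m =>
      lam m a x = lm ∧ val (m + 1) (Function.update h m a) x l = v)).card =
      Fintype.card (E (m + 1))
  /-- two values of a line determine the coordinate -/
  loc2 : ∀ (m : ℕ) (h : toPreDesign.Ln) (x x' : ℕ → Bool) (lm : L m) (l l' : L (m + 1))
    (v v' : E (m + 1)), (l ≠ l' ∨ ∃ k ≤ m + 1, x k ≠ x' k) →
    (Finset.univ.filter (fun a : A m =>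
      lam m a x = lm ∧ val (m + 1) (Function.update h m a) x l = v ∧
        val (m + 1) (Function.update h m a) x' l' = v')).card ≤ 1
  size : ∀ m : ℕ, 2 ^ (m + 1) * Fintype.card (L m) * 4 ^ (m + 1) ≤ Fintype.card (E m)

/-- the data of the space `X`: vectors `b_s` with the three properties used in the second half -/
structure Good (D : Design) (X : Type) [NormedAddCommGroup X] [NormedSpace ℝ X]
    (B : D.toPreDesign.V →ₗ[ℝ] X) : Prop where
  /-- the James tree norm dominates -/
  b2 : ∀ f : D.toPreDesign.V, ‖B f‖ ≤ PreDesign.N ⊤ f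
  /-- branch functionals -/
  b3 : ∀ t : D.toPreDesign.Br, ∃ q : X →L[ℝ] ℝ, ‖q‖ ≤ 2 ∧
    ∀ f : D.toPreDesign.V, q (B f) = PreDesign.tot t f
  /-- the sign combinations along a line are bounded -/
  b4 : ∀ (h : D.toPreDesign.Ln) (n m1 : ℕ) (ε : (ℕ → Bool) → ℝ), 1 ≤ n →
    (∀ x, |ε x| ≤ 1) → ‖B (PreDesign.Xv h n m1 ε)‖ ≤ 3

end Pool.Agent.L1F
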