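import Pool.Agent.Work.MP_3dfed9_an.Defs

/-!
# MP_3dfed9_an : the ultrafilter lemma FA (section 7)
-/

set_option autoImplicit false

namespace Pool.Agent.L1F

open Finset

/-! ### densities on `H_M × X_M^I` -/

/-- the finite space of a line of level `M` and an `I`-tuple of points of level `M` -/
abbrev FaOm (A : ℕ → Type) (I : Type) (M : ℕ) : Type := (∀ k : Fin M, A k) × (I → Fin M → Bool)

section fa

variable {A : ℕ → Type} [∀ k, Fintype (A k)] [∀ k, Inhabited (A k)] {I : Type} [Fintype I]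
  [DecidableEq I]

open scoped Classical in
/-- indicator of an event -/
noncomputable def faInd {M : ℕ} (Q : (∀ k, A k) → (I → ℕ → Bool) → Prop) (ω : FaOm A I M) : ℝ :=
  if Q (ext ω.1) (fun i => ext (A := fun _ => Bool) (ω.2 i)) then 1 else 0

/-- the density of an event -/
noncomputable def faD (M : ℕ) (Q : (∀ k, A k) → (I → ℕ → Bool) → Prop) : ℝ :=
  (∑ ω : FaOm A I M, faInd Q ω) / Fintype.card (FaOm A I M)

omit [∀ k, Fintype (A k)] [Fintype I] [DecidableEq I] in
theorem faInd_nonneg {M : ℕ} (Q : (∀ k, A k) → (I → ℕ → Bool) → Prop) (ω : FaOm A I M) :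
    0 ≤ faInd Q ω := by
  unfold faInd; split_ifs <;> norm_num

omit [∀ k, Fintype (A k)] [Fintype I] [DecidableEq I] in
theorem faInd_le_one {M : ℕ} (Q : (∀ k, A k) → (I → ℕ → Bool) → Prop) (ω : FaOm A I M) :
    faInd Q ω ≤ 1 := by
  unfold faInd; split_ifs <;> norm_num

omit [∀ k, Fintype (A k)] [Fintype I] [DecidableEq I] in
theorem faInd_mul {M : ℕ} (Q R : (∀ k, A k) → (I → ℕ → Bool) → Prop) (ω : FaOm A I M) :
    faInd Q ω * faInd R ω = faInd (fun h x => Q h x ∧ R h x) ω := by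
  unfold faInd
  by_cases h1 : Q (ext ω.1) (fun i => ext (A := fun _ => Bool) (ω.2 i)) <;>
    by_cases h2 : R (ext ω.1) (fun i => ext (A := fun _ => Bool) (ω.2 i)) <;> simp [h1, h2]

omit [∀ k, Fintype (A k)] [Fintype I] [DecidableEq I] in
theorem faInd_mono {M : ℕ} {Q R : (∀ k, A k) → (I → ℕ → Bool) → Prop}
    (h : ∀ g x, Q g x → R g x) (ω : FaOm A I M) : faInd Q ω ≤ faInd R ω := by
  unfold faInd
  by_cases h1 : Q (ext ω.1) (fun i => ext (A := fun _ => Bool) (ω.2 i))
  · rw [if_pos h1, if_pos (h _ _ h1)]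
  · rw [if_neg h1]; split_ifs <;> norm_num

theorem faCard_pos (M : ℕ) : (0 : ℝ) < Fintype.card (FaOm A I M) := by
  have : Nonempty (FaOm A I M) := ⟨(fun _ => default, fun _ _ => false)⟩
  exact_mod_cast Fintype.card_pos

theorem faD_mono {M : ℕ} {Q R : (∀ k, A k) → (I → ℕ → Bool) → Prop}
    (h : ∀ g x, Q g x → R g x) : faD M Q ≤ faD M R := by
  unfold faD
  exact div_le_div_of_nonneg_right (Finset.sum_le_sum fun ω _ => faInd_mono h ω)
    (faCard_pos M).le

theorem faD_nonneg {M : ℕ} (Q : (∀ k, A k) → (I → ℕ → Bool) → Prop) : 0 ≤ faD M Q :=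
  div_nonneg (Finset.sum_nonneg fun ω _ => faInd_nonneg Q ω) (faCard_pos M).le

theorem faD_le_one {M : ℕ} (Q : (∀ k, A k) → (I → ℕ → Bool) → Prop) : faD M Q ≤ 1 := by
  unfold faD
  rw [div_le_one (faCard_pos M)]
  refine (Finset.sum_le_sum fun ω _ => faInd_le_one Q ω).trans ?_
  simp

theorem fa_exists {M : ℕ} {Q : (∀ k, A k) → (I → ℕ → Bool) → Prop} (h : 0 < faD M Q) :
    ∃ (g : ∀ k, A k) (x : I → ℕ → Bool), Q g x := by
  by_contra hne
  push Not at hne
  have : faD M Q = 0 := by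
    unfold faD
    rw [Finset.sum_eq_zero, zero_div]
    intro ω _
    unfold faInd
    rw [if_neg (hne _ _)]
  linarith

/-- Cauchy-Schwarz -/
theorem fa_cs (M N : ℕ) (Q : ℕ → (∀ k, A k) → (I → ℕ → Bool) → Prop) :
    (∑ i ∈ range N, faD M (Q i)) ^ 2 ≤
      ∑ i ∈ range N, ∑ j ∈ range N, faD M (fun h x => Q i h x ∧ Q j h x) := by
  have hc := faCard_pos (A := A) (I := I) M
  have h1 : ∑ i ∈ range N, faD M (Q i) =
      (∑ ω : FaOm A I M, ∑ i ∈ range N, faInd (Q i) ω) / Fintype.card (FaOm A I M) := by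
    unfold faD
    rw [← Finset.sum_div, Finset.sum_comm]
  have h2 : ∑ i ∈ range N, ∑ j ∈ range N, faD M (fun h x => Q i h x ∧ Q j h x) =
      (∑ ω : FaOm A I M, (∑ i ∈ range N, faInd (Q i) ω) ^ 2) / Fintype.card (FaOm A I M) := by
    unfold faD
    simp_rw [← Finset.sum_div]
    congr 1
    simp_rw [← faInd_mul]
    have : ∀ i ∈ range N, ∑ j ∈ range N, ∑ ω : FaOm A I M, faInd (Q i) ω * faInd (Q j) ω =
        ∑ ω : FaOm A I M, ∑ j ∈ range N, faInd (Q i) ω * faInd (Q j) ω :=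
      fun i _ => Finset.sum_comm
    rw [Finset.sum_congr rfl this, Finset.sum_comm]
    refine Finset.sum_congr rfl fun ω _ => ?_
    rw [sq, Finset.sum_mul_sum]
  rw [h1, h2, div_pow, div_le_div_iff₀ (pow_pos hc 2) hc]
  have h3 := sq_sum_le_card_mul_sum_sq (s := (Finset.univ : Finset (FaOm A I M)))
    (f := fun ω => ∑ i ∈ range N, faInd (Q i) ω)
  rw [Finset.card_univ] at h3
  calc _ ≤ ((Fintype.card (FaOm A I M) : ℝ) * ∑ ω : FaOm A I M, (∑ i ∈ range N, faInd (Q i) ω) ^ 2)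
        * Fintype.card (FaOm A I M) := mul_le_mul_of_nonneg_right h3 hc.le
    _ = _ := by ring

/-- transport along an equivalence of the index sets -/
theorem faD_equiv {I' : Type} [Fintype I'] [DecidableEq I'] (e : I' ≃ I) (M : ℕ)
    (Q : (∀ k, A k) → (I → ℕ → Bool) → Prop) :
    faD M Q = faD M (fun h (x : I' → ℕ → Bool) => Q h (fun i => x (e.symm i))) := by
  unfold faD
  let E : FaOm A I' M ≃ FaOm A I M :=
    Equiv.prodCongr (Equiv.refl _) (Equiv.arrowCongr e (Equiv.refl _))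
  rw [← Fintype.card_congr E, ← E.sum_comp]
  congr 1

/-- squaring -/
theorem fa_square (M : ℕ) (Q : (∀ k, A k) → (I → ℕ → Bool) → Prop) :
    (faD M Q) ^ 2 ≤
      faD M (fun h (x : Bool × I → ℕ → Bool) => ∀ b, Q h (fun i => x (b, i))) := by
  classical
  let E : ((∀ k : Fin M, A k) × ((I → Fin M → Bool) × (I → Fin M → Bool))) ≃
      FaOm A (Bool × I) M :=
    Equiv.prodCongr (Equiv.refl _)
      ((Equiv.boolArrowEquivProd _).symm.trans (Equiv.curry _ _ _).symm)
  have hE : ∀ (g : ∀ k : Fin M, A k) (y y' : I → Fin M → Bool),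
      faInd (fun h (x : Bool × I → ℕ → Bool) => ∀ b, Q h (fun i => x (b, i))) (E (g, (y, y'))) =
      faInd Q ((g, y) : FaOm A I M) * faInd Q ((g, y') : FaOm A I M) := by
    intro g y y'
    unfold faInd
    have h1 : ∀ i, (E (g, (y, y'))).2 (false, i) = y i := fun i => rfl
    have h2 : ∀ i, (E (g, (y, y'))).2 (true, i) = y' i := fun i => rfl
    have h3 : (E (g, (y, y'))).1 = g := rfl
    simp only [Bool.forall_bool, h1, h2, h3]
    by_cases q1 : Q (ext g) (fun i => ext (A := fun _ => Bool) (y i)) <;>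
      by_cases q2 : Q (ext g) (fun i => ext (A := fun _ => Bool) (y' i)) <;> simp [q1, q2]
  unfold faD
  rw [← Fintype.card_congr E, ← E.sum_comp]
  have h4 : ∀ g : (∀ k : Fin M, A k), ∑ y : (I → Fin M → Bool) × (I → Fin M → Bool),
      faInd (fun h (x : Bool × I → ℕ → Bool) => ∀ b, Q h (fun i => x (b, i))) (E (g, y)) =
      (∑ y : I → Fin M → Bool, faInd Q ((g, y) : FaOm A I M)) ^ 2 := by
    intro g
    rw [Fintype.sum_prod_type, sq, Finset.sum_mul_sum]
    exact Finset.sum_congr rfl fun y _ => Finset.sum_congr rfl fun y' _ => hE g y y'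
  have h6 : ∑ w, faInd (fun h (x : Bool × I → ℕ → Bool) => ∀ b, Q h (fun i => x (b, i))) (E w) =
      ∑ g : (∀ k : Fin M, A k), (∑ y : I → Fin M → Bool, faInd Q ((g, y) : FaOm A I M)) ^ 2 := by
    rw [Fintype.sum_prod_type]
    exact Finset.sum_congr rfl fun g _ => h4 g
  rw [h6, Fintype.sum_prod_type, Fintype.card_prod, Fintype.card_prod, Fintype.card_prod]
  set a : (∀ k : Fin M, A k) → ℝ := fun g => ∑ y : I → Fin M → Bool,
    faInd Q ((g, y) : FaOm A I M) with ha
  have h5 := sq_sum_le_card_mul_sum_sq (s := (Finset.univ : Finset (∀ k : Fin M, A k))) (f := a)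
  rw [Finset.card_univ] at h5
  have hp1 : (0 : ℝ) < Fintype.card (∀ k : Fin M, A k) := by exact_mod_cast Fintype.card_pos
  have hp2 : (0 : ℝ) < Fintype.card (I → Fin M → Bool) := by exact_mod_cast Fintype.card_pos
  push_cast
  rw [div_pow, div_le_div_iff₀ (by positivity) (by positivity)]
  calc _ ≤ ((Fintype.card (∀ k : Fin M, A k) : ℝ) * ∑ g, a g ^ 2) *
        ((Fintype.card (∀ k : Fin M, A k) : ℝ) * (Fintype.card (I → Fin M → Bool) *
          Fintype.card (I → Fin M → Bool))) := by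
        refine mul_le_mul_of_nonneg_right h5 (by positivity)
    _ = _ := by ring

/-- two different points rarely coincide up to level `n` -/
theorem fa_coll_pair {n M : ℕ} (hn : n ≤ M) (i j : I) (hij : i ≠ j) :
    faD M (fun (_ : ∀ k, A k) (x : I → ℕ → Bool) => ∀ k < n, x i k = x j k) ≤ 1 / 2 ^ n := by
  classical
  unfold faD
  rw [div_le_div_iff₀ (faCard_pos M) (by positivity), one_mul]
  set Sb : Finset (FaOm A I M) := Finset.univ.filter
    (fun ω => ∀ k : Fin n, ω.2 i (Fin.castLE hn k) = ω.2 j (Fin.castLE hn k)) with hSb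
  have h1 : ∑ ω : FaOm A I M,
      faInd (fun (_ : ∀ k, A k) (x : I → ℕ → Bool) => ∀ k < n, x i k = x j k) ω = Sb.card := by
    rw [hSb, Finset.card_filter]
    push_cast
    refine Finset.sum_congr rfl fun ω _ => ?_
    unfold faInd
    have : (∀ k < n, ext (A := fun _ => Bool) (ω.2 i) k = ext (A := fun _ => Bool) (ω.2 j) k) ↔
        (∀ k : Fin n, ω.2 i (Fin.castLE hn k) = ω.2 j (Fin.castLE hn k)) := by
      constructor
      · intro h k
        have := h k k.2
        rw [ext, ext, dif_pos (lt_of_lt_of_le k.2 hn), dif_pos (lt_of_lt_of_le k.2 hn)] at this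
        exact this
      · intro h k hk
        have := h ⟨k, hk⟩
        rw [ext, ext, dif_pos (lt_of_lt_of_le hk hn), dif_pos (lt_of_lt_of_le hk hn)]
        exact this
    simp only [this]
  rw [h1]
  have h2 : (Sb ×ˢ (Finset.univ : Finset (Fin n → Bool))).card ≤
      (Finset.univ : Finset (FaOm A I M)).card := by
    refine Finset.card_le_card_of_injOn
      (fun p => (p.1.1, Function.update p.1.2 i
        (fun k => if hk : (k : ℕ) < n then xor (p.1.2 i k) (p.2 ⟨k, hk⟩) else p.1.2 i k)))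
      (fun _ _ => Finset.mem_coe.2 (Finset.mem_univ _)) ?_
    rintro ⟨⟨g, y⟩, c⟩ hp ⟨⟨g', y'⟩, c'⟩ hp' he
    simp only [hSb, coe_product, Finset.coe_filter, Finset.mem_univ, true_and, Set.mem_prod,
      Set.mem_ofPred_eq] at hp hp'
    simp only [Prod.mk.injEq] at he
    obtain ⟨he1, he2⟩ := he
    have hy : ∀ l, l ≠ i → y l = y' l := by
      intro l hl
      have := congrFun he2 l
      rwa [Function.update_of_ne hl, Function.update_of_ne hl] at this
    have hi := congrFun he2 i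
    rw [Function.update_self, Function.update_self] at hi
    have hlow : ∀ k : Fin n, y i (Fin.castLE hn k) = y' i (Fin.castLE hn k) := by
      intro k
      rw [hp.1 k, hp'.1 k, hy j hij.symm]
    have hc : c = c' := by
      funext k
      have h3 := congrFun hi (Fin.castLE hn k)
      have hk : ((Fin.castLE hn k : Fin M) : ℕ) < n := k.2
      simp only [hk, dif_pos] at h3
      have h4 : (⟨((Fin.castLE hn k : Fin M) : ℕ), hk⟩ : Fin n) = k := rfl
      rw [h4, hlow k] at h3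
      exact (Bool.xor_right_inj).1 h3
    have hyi : y i = y' i := by
      funext k
      by_cases hk : (k : ℕ) < n
      · exact hlow ⟨k, hk⟩
      · have h3 := congrFun hi k
        simpa only [hk, dif_neg, not_false_eq_true] using h3
    have hyy : y = y' := by
      funext l
      by_cases hl : l = i
      · rw [hl]; exact hyi
      · exact hy l hl
    rw [he1, hyy, hc]
  rw [Finset.card_product, Finset.card_univ, Finset.card_univ, Fintype.card_fun,
    Fintype.card_bool, Fintype.card_fin] at h2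
  exact_mod_cast h2

/-- finite unions -/
theorem faD_exists_le {κ : Type} [Fintype κ] (M : ℕ)
    (Q : κ → (∀ k, A k) → (I → ℕ → Bool) → Prop) :
    faD M (fun h x => ∃ a, Q a h x) ≤ ∑ a, faD M (Q a) := by
  unfold faD
  rw [← Finset.sum_div, Finset.sum_comm]
  refine div_le_div_of_nonneg_right (Finset.sum_le_sum fun ω _ => ?_) (faCard_pos M).le
  by_cases h : ∃ a, Q a (ext ω.1) (fun i => ext (A := fun _ => Bool) (ω.2 i))
  · obtain ⟨a, ha⟩ := h
    refine (faInd_le_one _ ω).trans ?_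
    have : (1 : ℝ) = faInd (Q a) ω := by unfold faInd; rw [if_pos ha]
    rw [this]
    exact Finset.single_le_sum (fun b _ => faInd_nonneg (Q b) ω) (Finset.mem_univ a)
  · have : faInd (fun h x => ∃ a, Q a h x) ω = 0 := by unfold faInd; rw [if_neg h]
    rw [this]
    exact Finset.sum_nonneg fun b _ => faInd_nonneg (Q b) ω

theorem faD_or_le (M : ℕ) (Q R : (∀ k, A k) → (I → ℕ → Bool) → Prop) :
    faD M (fun h x => Q h x ∨ R h x) ≤ faD M Q + faD M R := by
  have := faD_exists_le M (fun b : Bool => if b then Q else R)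
  simp only [Bool.exists_bool, Fintype.sum_bool, if_true, Bool.false_eq_true, if_false] at this
  refine le_trans (faD_mono ?_) this
  intro g x h
  exact h.symm

/-- collisions are rare -/
theorem fa_coll {n M : ℕ} (hn : n ≤ M) :
    faD M (fun (_ : ∀ k, A k) (x : I → ℕ → Bool) => ∃ p : I × I, p.1 ≠ p.2 ∧
      ∀ k < n, x p.1 k = x p.2 k) ≤ (Fintype.card I : ℝ) ^ 2 * (1 / 2 ^ n) := by
  refine (faD_exists_le M _).trans ?_
  have h : ∀ p ∈ (Finset.univ : Finset (I × I)), faD M (fun (_ : ∀ k, A k) (x : I → ℕ → Bool) =>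
      p.1 ≠ p.2 ∧ ∀ k < n, x p.1 k = x p.2 k) ≤ 1 / 2 ^ n := by
    intro p _
    by_cases hp : p.1 = p.2
    · have : faD M (fun (_ : ∀ k, A k) (x : I → ℕ → Bool) =>
          p.1 ≠ p.2 ∧ ∀ k < n, x p.1 k = x p.2 k) ≤ 0 := by
        by_contra hne
        push Not at hne
        obtain ⟨g, x, h1, h2⟩ := fa_exists hne
        exact h1 hp
      exact this.trans (by positivity)
    · exact (faD_mono fun g x h => h.2).trans (fa_coll_pair hn p.1 p.2 hp)
  refine (Finset.sum_le_card_nsmul _ _ _ h).trans ?_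
  rw [Finset.card_univ, Fintype.card_prod, nsmul_eq_mul]
  push_cast
  rw [sq]

/-! ### the ultrafilter -/

/-- a nonprincipal ultrafilter -/
noncomputable abbrev faU : Ultrafilter ℕ := Filter.hyperfilter ℕ

theorem faU_ge (n : ℕ) : ∀ᶠ m in (faU : Filter ℕ), n ≤ m :=
  Nat.hyperfilter_le_atTop (Filter.eventually_ge_atTop n)

/-- the selection step (ii) -/
theorem fa_two {F : ℕ → (∀ k, A k) → (I → ℕ → Bool) → Prop}
    {D : ℕ → ℕ → (∀ k, A k) → (I → ℕ → Bool) → Prop} {v : ℝ} (hv : 0 < v)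
    (h : ∀ᶠ n in (faU : Filter ℕ), ∀ᶠ M in (faU : Filter ℕ),
      v ≤ faD M (fun g x => F M g x ∧ D n M g x)) :
    ∀ᶠ n in (faU : Filter ℕ), ∀ᶠ n' in (faU : Filter ℕ), ∀ᶠ M in (faU : Filter ℕ),
      v ^ 2 / 2 ≤ faD M (fun g x => (F M g x ∧ D n M g x) ∧ (F M g x ∧ D n' M g x)) := by
  by_contra hne
  rw [← Ultrafilter.eventually_not] at hne
  have hne2 : ∀ᶠ n in (faU : Filter ℕ), ∀ᶠ n' in (faU : Filter ℕ), ∀ᶠ M in (faU : Filter ℕ),
      faD M (fun g x => (F M g x ∧ D n M g x) ∧ (F M g x ∧ D n' M g x)) < v ^ 2 / 2 := by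
    filter_upwards [hne] with n hn
    rw [← Ultrafilter.eventually_not] at hn
    filter_upwards [hn] with n' hn'
    rw [← Ultrafilter.eventually_not] at hn'
    filter_upwards [hn'] with M hM
    exact not_le.1 hM
  obtain ⟨s, hs1, hs2⟩ := exists_seq_of_forall_finset_exists
    (fun n => (∀ᶠ M in (faU : Filter ℕ), v ≤ faD M (fun g x => F M g x ∧ D n M g x)) ∧
      ∀ᶠ n' in (faU : Filter ℕ), ∀ᶠ M in (faU : Filter ℕ),
        faD M (fun g x => (F M g x ∧ D n M g x) ∧ (F M g x ∧ D n' M g x)) < v ^ 2 / 2)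
    (fun n n' => ∀ᶠ M in (faU : Filter ℕ),
        faD M (fun g x => (F M g x ∧ D n M g x) ∧ (F M g x ∧ D n' M g x)) < v ^ 2 / 2) (by
      intro t ht
      have h1 : ∀ᶠ n' in (faU : Filter ℕ), ∀ n ∈ t, ∀ᶠ M in (faU : Filter ℕ),
          faD M (fun g x => (F M g x ∧ D n M g x) ∧ (F M g x ∧ D n' M g x)) < v ^ 2 / 2 :=
        (Filter.eventually_all_finset t).2 fun n hn => (ht n hn).2
      obtain ⟨y, hy1, hy2, hy3⟩ := (h.and (hne2.and h1)).exists
      exact ⟨y, ⟨hy1, hy2⟩, hy3⟩)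
  obtain ⟨N, hN⟩ := exists_nat_gt (2 / v ^ 2)
  have hNp : 0 < N := by
    rcases Nat.eq_zero_or_pos N with h0 | h0
    · rw [h0] at hN
      have : (0 : ℝ) < 2 / v ^ 2 := by positivity
      simp at hN
      linarith
    · exact h0
  have hev : ∀ᶠ M in (faU : Filter ℕ), (∀ i ∈ range N, v ≤ faD M (fun g x => F M g x ∧
      D (s i) M g x)) ∧ ∀ i ∈ range N, ∀ j ∈ range N, i < j →
        faD M (fun g x => (F M g x ∧ D (s i) M g x) ∧ (F M g x ∧ D (s j) M g x)) < v ^ 2 / 2 := by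
    refine Filter.Eventually.and ((Filter.eventually_all_finset _).2 fun i _ => (hs1 i).1) ?_
    refine (Filter.eventually_all_finset _).2 fun i _ => ?_
    refine (Filter.eventually_all_finset _).2 fun j _ => ?_
    by_cases hij : i < j
    · filter_upwards [hs2 i j hij] with M hM _ using hM
    · exact Filter.Eventually.of_forall fun M h => absurd h hij
  obtain ⟨M, hM1, hM2⟩ := hev.exists
  have hcs := fa_cs M N (fun i g x => F M g x ∧ D (s i) M g x)
  have hl : ((N : ℝ) * v) ^ 2 ≤ (∑ i ∈ range N, faD M (fun g x => F M g x ∧ D (s i) M g x)) ^ 2 := by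
    refine pow_le_pow_left₀ (by positivity) ?_ 2
    have := Finset.card_nsmul_le_sum (range N) _ v hM1
    rwa [Finset.card_range, nsmul_eq_mul] at this
  have hr : ∑ i ∈ range N, ∑ j ∈ range N, faD M (fun g x => (F M g x ∧ D (s i) M g x) ∧
      (F M g x ∧ D (s j) M g x)) ≤ ∑ i ∈ range N, ∑ j ∈ range N,
        (v ^ 2 / 2 + if i = j then 1 else 0) := by
    refine Finset.sum_le_sum fun i hi => Finset.sum_le_sum fun j hj => ?_
    rcases lt_trichotomy i j with hij | hij | hij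
    · have := hM2 i hi j hj hij
      rw [if_neg hij.ne]
      linarith
    · rw [if_pos hij]
      have := faD_le_one (M := M) (fun g x => (F M g x ∧ D (s i) M g x) ∧
        (F M g x ∧ D (s j) M g x))
      have h2 : 0 ≤ v ^ 2 / 2 := by positivity
      linarith
    · have := hM2 j hj i hi hij
      rw [if_neg hij.ne']
      have h2 : faD M (fun g x => (F M g x ∧ D (s i) M g x) ∧ (F M g x ∧ D (s j) M g x)) ≤
        faD M (fun g x => (F M g x ∧ D (s j) M g x) ∧ (F M g x ∧ D (s i) M g x)) :=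
        faD_mono fun g x h => ⟨h.2, h.1⟩
      linarith
  have hr2 : ∑ i ∈ range N, ∑ j ∈ range N, (v ^ 2 / 2 + if i = j then (1 : ℝ) else 0) =
      (N : ℝ) * (N * (v ^ 2 / 2)) + N := by
    have : ∀ i ∈ range N, ∑ j ∈ range N, (v ^ 2 / 2 + if i = j then (1 : ℝ) else 0) =
        N * (v ^ 2 / 2) + 1 := by
      intro i hi
      rw [Finset.sum_add_distrib, Finset.sum_const, Finset.card_range, nsmul_eq_mul,
        Finset.sum_ite_eq, if_pos hi]
    rw [Finset.sum_congr rfl this, Finset.sum_const, Finset.card_range, nsmul_eq_mul]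
    ring
  rw [hr2] at hr
  have hfin := hl.trans (hcs.trans hr)
  have hNr : (0 : ℝ) < N := by exact_mod_cast hNp
  rw [div_lt_iff₀ (by positivity)] at hN
  nlinarith [mul_lt_mul_of_pos_left hN hNr]

/-- the pigeonhole step for a fixed level: a class of the line and a sign function -/
theorem fa_pigeon {n m' M : ℕ} (hn : n ≤ M) (s : I → Bool)
    (Q : (∀ k, A k) → (I → ℕ → Bool) → Prop) {a : ℝ} (ha : a ≤ faD M Q)
    (hpos : (Fintype.card I : ℝ) ^ 2 * (1 / 2 ^ n) ≤ a / 2) :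
    ∃ p : (∀ k : Fin m', A k) × ((Fin n → Bool) → Bool),
      a / 2 / (Fintype.card ((∀ k : Fin m', A k) × ((Fin n → Bool) → Bool)) : ℝ) ≤
      faD M (fun g x => Q g x ∧ (∀ k < m', g k = ext p.1 k) ∧
        ∀ i, p.2 (fun k => x i k) = s i) := by
  classical
  have h1 : faD M Q ≤ faD M (fun (_ : ∀ k, A k) (x : I → ℕ → Bool) => ∃ p : I × I, p.1 ≠ p.2 ∧
      ∀ k < n, x p.1 k = x p.2 k) +
      ∑ p : (∀ k : Fin m', A k) × ((Fin n → Bool) → Bool),
        faD M (fun g x => Q g x ∧ (∀ k < m', g k = ext p.1 k) ∧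
        ∀ i, p.2 (fun k => x i k) = s i) := by
    refine le_trans (faD_mono ?_) ((faD_or_le M _ _).trans (add_le_add le_rfl
      (faD_exists_le M (fun (p : (∀ k : Fin m', A k) × ((Fin n → Bool) → Bool)) g x =>
        Q g x ∧ (∀ k < m', g k = ext p.1 k) ∧ ∀ i, p.2 (fun k => x i k) = s i))))
    intro g x hQ
    by_cases hcol : ∃ p : I × I, p.1 ≠ p.2 ∧ ∀ k < n, x p.1 k = x p.2 k
    · exact Or.inl hcol
    · right
      push Not at hcol
      refine ⟨(fun k => g k, fun y => decide (∃ i, y = (fun k : Fin n => x i k) ∧ s i = true)),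
        hQ, ?_, ?_⟩
      · intro k hk
        rw [ext, dif_pos hk]
      · intro i
        by_cases hs : s i = true
        · rw [hs]
          exact decide_eq_true ⟨i, rfl, hs⟩
        · rw [Bool.not_eq_true] at hs
          rw [hs]
          refine decide_eq_false ?_
          rintro ⟨j, hj1, hj2⟩
          by_cases hij : i = j
          · rw [hij] at hs
            rw [hs] at hj2
            exact Bool.false_ne_true hj2
          · obtain ⟨k, hk, hk2⟩ := hcol (i, j) hij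
            exact hk2 (congrFun hj1 ⟨k, hk⟩)
  have h2 := fa_coll (A := A) (I := I) hn
  have h3 : a / 2 ≤ ∑ p : (∀ k : Fin m', A k) × ((Fin n → Bool) → Bool),
        faD M (fun g x => Q g x ∧ (∀ k < m', g k = ext p.1 k) ∧
        ∀ i, p.2 (fun k => x i k) = s i) := by linarith
  by_contra hne
  push Not at hne
  have hcard : (0 : ℝ) < Fintype.card ((∀ k : Fin m', A k) × ((Fin n → Bool) → Bool)) := by
    have : Nonempty ((∀ k : Fin m', A k) × ((Fin n → Bool) → Bool)) :=
      ⟨(fun _ => default, fun _ => false)⟩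
    exact_mod_cast Fintype.card_pos
  have h4 : ∑ p : (∀ k : Fin m', A k) × ((Fin n → Bool) → Bool),
        faD M (fun g x => Q g x ∧ (∀ k < m', g k = ext p.1 k) ∧
        ∀ i, p.2 (fun k => x i k) = s i) < ∑ p : (∀ k : Fin m', A k) × ((Fin n → Bool) → Bool),
        a / 2 / (Fintype.card ((∀ k : Fin m', A k) × ((Fin n → Bool) → Bool)) : ℝ) := by
    refine Finset.sum_lt_sum_of_nonempty ?_ fun p _ => hne p
    exact ⟨(fun _ => default, fun _ => false), Finset.mem_univ _⟩
  rw [Finset.sum_const, Finset.card_univ, nsmul_eq_mul, mul_div_cancel₀ _ hcard.ne'] at h4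
  linarith

end fa

/-! ### the states of the induction -/

/-- a state -/
structure FaSt (A : ℕ → Type) where
  /-- the level up to which the line is fixed -/
  m : ℕ
  /-- the levels `ν_j` -/
  ν : ℕ → ℕ
  /-- the line -/
  h : ∀ k, A k
  /-- the signs -/
  ε : ℕ → (ℕ → Bool) → Bool

section st

variable {A : ℕ → Type} [∀ k, Fintype (A k)] [∀ k, Inhabited (A k)]

/-- the event of a state -/
def FaSt.F (P : ℕ → ℕ → (∀ k, A k) → (ℕ → Bool) → Prop) (J : ℕ) (S : FaSt A) (M : ℕ)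
    (g : ∀ k, A k) (x : (Fin J → Bool) → ℕ → Bool) : Prop :=
  (∀ k < S.m, g k = S.h k) ∧
    ∀ (σ : Fin J → Bool) (j : Fin J), P (S.ν j) M g (x σ) ∧ S.ε j (x σ) = σ j

/-- the invariants -/
def FaGood (P : ℕ → ℕ → (∀ k, A k) → (ℕ → Bool) → Prop) (m1 : ℕ → ℕ) (n0 : ℕ) (J : ℕ)
    (S : FaSt A) : Prop :=
  (∀ j < J, n0 ≤ S.ν j) ∧ (∀ i j, i < j → j < J → S.ν i < S.ν j) ∧ (∀ j < J, m1 (S.ν j) ≤ S.m) ∧
    J ≤ S.m ∧ (∀ j < J, ∀ x x' : ℕ → Bool, (∀ k < S.ν j, x k = x' k) → S.ε j x = S.ε j x') ∧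
    ∃ v : ℝ, 0 < v ∧ ∀ᶠ n in (faU : Filter ℕ), ∀ᶠ M in (faU : Filter ℕ),
      v ≤ faD M (fun g x => S.F P J M g x ∧ ∀ σ, P n M g (x σ))

theorem fa_step (P : ℕ → ℕ → (∀ k, A k) → (ℕ → Bool) → Prop) (m1 : ℕ → ℕ) (n0 : ℕ) (J : ℕ)
    (S : FaSt A) (hS : FaGood P m1 n0 J S) :
    ∃ S' : FaSt A, FaGood P m1 n0 (J + 1) S' ∧ (∀ j < J, S'.ν j = S.ν j ∧ S'.ε j = S.ε j) ∧
      S.m ≤ S'.m ∧ ∀ k < S.m, S'.h k = S.h k := by
  classical
  obtain ⟨h1, h2, h3, h4, h5, v, hv, hev⟩ := hS
  have htwo := fa_two (F := S.F P J) (D := fun n M g x => ∀ σ, P n M g (x σ)) hv hev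
  set a : ℝ := (v ^ 2 / 2) ^ 2 with ha
  have hap : 0 < a := by positivity
  have hsmall : ∀ᶠ n in (faU : Filter ℕ),
      (Fintype.card (Fin (J + 1) → Bool) : ℝ) ^ 2 * (1 / 2 ^ n) ≤ a / 2 := by
    have ht : Filter.Tendsto (fun n : ℕ => (Fintype.card (Fin (J + 1) → Bool) : ℝ) ^ 2 *
        (1 / 2) ^ n) Filter.atTop (nhds ((Fintype.card (Fin (J + 1) → Bool) : ℝ) ^ 2 * 0)) :=
      (tendsto_pow_atTop_nhds_zero_of_lt_one (by norm_num) (by norm_num)).const_mul _
    rw [mul_zero] at ht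
    have := Nat.hyperfilter_le_atTop (ht.eventually (gt_mem_nhds (half_pos hap)))
    filter_upwards [this] with n hn
    rw [one_div, ← inv_pow, ← one_div]
    exact hn.le
  obtain ⟨n, ⟨hn, hn2⟩, hn3, hn4⟩ := ((htwo.and hsmall).and
    ((faU_ge n0).and (faU_ge (1 + ∑ j ∈ range J, S.ν j)))).exists
  have hnν : ∀ j < J, S.ν j < n := by
    intro j hj
    have := Finset.single_le_sum (f := S.ν) (fun i _ => Nat.zero_le _) (Finset.mem_range.2 hj)
    omega
  set m' := max (S.m + 1) (m1 n) with hm'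
  let e : Bool × (Fin J → Bool) ≃ (Fin (J + 1) → Bool) := Fin.snocEquiv (fun _ => Bool)
  set K : ℝ := (Fintype.card ((∀ k : Fin m', A k) × ((Fin n → Bool) → Bool)) : ℝ) with hK
  have hKp : 0 < K := by
    have : Nonempty ((∀ k : Fin m', A k) × ((Fin n → Bool) → Bool)) :=
      ⟨(fun _ => default, fun _ => false)⟩
    rw [hK]
    exact_mod_cast Fintype.card_pos
  have hp : ∀ᶠ n' in (faU : Filter ℕ), ∀ᶠ M in (faU : Filter ℕ),
      ∃ p : (∀ k : Fin m', A k) × ((Fin n → Bool) → Bool),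
      a / 2 / K ≤ faD M (fun g (x : (Fin (J + 1) → Bool) → ℕ → Bool) =>
        (∀ b, (S.F P J M g (fun i => x (e (b, i))) ∧ ∀ σ, P n M g (x (e (b, σ)))) ∧
          (S.F P J M g (fun i => x (e (b, i))) ∧ ∀ σ, P n' M g (x (e (b, σ))))) ∧
        (∀ k < m', g k = ext p.1 k) ∧
        ∀ i, p.2 (fun k => x i k) = i (Fin.last J)) := by
    filter_upwards [hn] with n' hn'
    filter_upwards [hn', faU_ge n] with M hM hnM
    refine fa_pigeon hnM (fun σ : Fin (J + 1) → Bool => σ (Fin.last J)) _ ?_ hn2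
    have hsq := fa_square M (fun g x => (S.F P J M g x ∧ ∀ σ, P n M g (x σ)) ∧
      (S.F P J M g x ∧ ∀ σ, P n' M g (x σ)))
    rw [faD_equiv e.symm] at hsq
    exact (pow_le_pow_left₀ (by positivity) hM 2).trans hsq
  have hp2 : ∃ p : (∀ k : Fin m', A k) × ((Fin n → Bool) → Bool),
      ∀ᶠ n' in (faU : Filter ℕ), ∀ᶠ M in (faU : Filter ℕ),
      a / 2 / K ≤ faD M (fun g (x : (Fin (J + 1) → Bool) → ℕ → Bool) =>
        (∀ b, (S.F P J M g (fun i => x (e (b, i))) ∧ ∀ σ, P n M g (x (e (b, σ)))) ∧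
          (S.F P J M g (fun i => x (e (b, i))) ∧ ∀ σ, P n' M g (x (e (b, σ))))) ∧
        (∀ k < m', g k = ext p.1 k) ∧
        ∀ i, p.2 (fun k => x i k) = i (Fin.last J)) := by
    rw [← Ultrafilter.eventually_exists_iff]
    filter_upwards [hp] with n' hn'
    rw [← Ultrafilter.eventually_exists_iff]
    exact hn'
  obtain ⟨p, hp3⟩ := hp2
  have hvp : 0 < a / 2 / K := by positivity
  obtain ⟨n₁, hn₁⟩ := hp3.exists
  obtain ⟨M₁, hM₁⟩ := hn₁.exists
  obtain ⟨g₁, x₁, hg₁, hg₂, -⟩ := fa_exists (hvp.trans_le hM₁)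
  refine ⟨⟨m', fun j => if j < J then S.ν j else n, ext p.1,
    fun j => if j < J then S.ε j else fun x => p.2 (fun k => x k)⟩, ⟨?_, ?_, ?_, ?_, ?_, ?_⟩,
    ?_, ?_, ?_⟩
  · intro j hj
    show n0 ≤ if j < J then S.ν j else n
    split_ifs with hjJ
    · exact h1 j hjJ
    · exact hn3
  · intro i j hij hj
    show (if i < J then S.ν i else n) < if j < J then S.ν j else n
    rw [if_pos (by omega : i < J)]
    split_ifs with hjJ
    · exact h2 i j hij hjJ
    · exact hnν i (by omega)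
  · intro j hj
    show m1 (if j < J then S.ν j else n) ≤ m'
    split_ifs with hjJ
    · exact (h3 j hjJ).trans ((Nat.le_succ _).trans (le_max_left _ _))
    · exact le_max_right _ _
  · show J + 1 ≤ m'
    exact (Nat.succ_le_succ h4).trans (le_max_left _ _)
  · intro j hj x x' hx
    by_cases hjJ : j < J
    · simp only [hjJ, if_true] at hx ⊢
      exact h5 j hjJ x x' hx
    · simp only [hjJ, if_false] at hx ⊢
      have : (fun k : Fin n => x k) = fun k : Fin n => x' k := by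
        funext k
        exact hx k k.2
      rw [this]
  · refine ⟨a / 2 / K, hvp, ?_⟩
    filter_upwards [hp3] with n' hn'
    filter_upwards [hn'] with M hM
    refine hM.trans (faD_mono ?_)
    rintro g x ⟨hb, hg, hx⟩
    have hσ : ∀ σ : Fin (J + 1) → Bool, e (σ (Fin.last J), fun i => σ i.castSucc) = σ :=
      fun σ => e.apply_symm_apply σ
    refine ⟨⟨hg, ?_⟩, ?_⟩
    · intro σ j
      obtain ⟨⟨⟨hF1, hF2⟩, hD⟩, -⟩ := hb (σ (Fin.last J))
      refine Fin.lastCases ?_ (fun i => ?_) j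
      · have h6 : ¬ ((Fin.last J : Fin (J + 1)) : ℕ) < J := by simp
        simp only [h6, if_false]
        refine ⟨?_, hx σ⟩
        have := hD (fun i => σ i.castSucc)
        rwa [hσ] at this
      · have h6 : ((i.castSucc : Fin (J + 1)) : ℕ) < J := by simp
        simp only [h6, if_true]
        have := hF2 (fun i => σ i.castSucc) i
        beta_reduce at this
        rw [hσ] at this
        exact this
    · intro σ
      obtain ⟨-, -, hD⟩ := hb (σ (Fin.last J))
      have := hD (fun i => σ i.castSucc)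
      rwa [hσ] at this
  · intro j hj
    simp only [hj, if_true, and_self]
  · exact (Nat.le_succ _).trans (le_max_left _ _)
  · intro k hk
    show ext p.1 k = S.h k
    rw [← hg₂ k (hk.trans_le ((Nat.le_succ _).trans (le_max_left _ _)))]
    exact (hg₁ true).1.1.1 k hk

open scoped Classical in
theorem fa_avg (M : ℕ) (Q : (∀ k, A k) → (ℕ → Bool) → Prop) :
    avg M (fun h x => if Q h x then 1 else 0) =
      faD M (fun h (x : (Fin 0 → Bool) → ℕ → Bool) => ∀ σ, Q h (x σ)) := by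
  unfold avg faD
  rw [Fintype.sum_prod_type, Fintype.card_prod]
  push_cast
  have h1 : (Fintype.card ((Fin 0 → Bool) → Fin M → Bool) : ℝ) = 2 ^ M := by
    rw [Fintype.card_fun, Fintype.card_fun]
    simp
  rw [h1]
  congr 1
  refine Finset.sum_congr rfl fun g _ => ?_
  let E : (Fin M → Bool) ≃ ((Fin 0 → Bool) → Fin M → Bool) :=
    (Equiv.funUnique (Fin 0 → Bool) (Fin M → Bool)).symm
  rw [← E.sum_comp]
  refine Finset.sum_congr rfl fun y _ => ?_
  unfold faInd
  have : (∀ σ : Fin 0 → Bool, Q (ext g) (ext (A := fun _ => Bool) ((E y) σ))) ↔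
      Q (ext g) (ext (A := fun _ => Bool) y) := by
    constructor
    · intro h
      exact h default
    · intro h σ
      exact h
  simp only [this]

open scoped Classical in
theorem fa_init (P : ℕ → ℕ → (∀ k, A k) → (ℕ → Bool) → Prop) (m1 : ℕ → ℕ) (c : ℝ) (hc : 0 < c)
    (n0 : ℕ)
    (hP : ∀ n ≥ n0, ∃ M0, ∀ M ≥ M0, c ≤ avg M (fun h x => if P n M h x then 1 else 0)) :
    FaGood P m1 n0 0 ⟨0, fun _ => 0, fun _ => default, fun _ _ => false⟩ := by
  refine ⟨fun j hj => absurd hj (Nat.not_lt_zero _), fun i j _ hj => absurd hj (Nat.not_lt_zero _),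
    fun j hj => absurd hj (Nat.not_lt_zero _), le_rfl,
    fun j hj => absurd hj (Nat.not_lt_zero _), c, hc, ?_⟩
  filter_upwards [faU_ge n0] with n hn
  obtain ⟨M0, hM0⟩ := hP n hn
  filter_upwards [faU_ge M0] with M hM
  refine (hM0 M hM).trans ?_
  rw [fa_avg]
  refine faD_mono fun g x h => ⟨⟨fun k hk => absurd hk (Nat.not_lt_zero _), fun _ j => j.elim0⟩, h⟩

end st

open scoped Classical in
theorem fa {A : ℕ → Type} [∀ k, Fintype (A k)] [∀ k, Inhabited (A k)]
    (P : ℕ → ℕ → (∀ k, A k) → (ℕ → Bool) → Prop) (m1 : ℕ → ℕ) (c : ℝ) (hc : 0 < c) (n0 : ℕ)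
    (hP : ∀ n ≥ n0, ∃ M0, ∀ M ≥ M0, c ≤ avg M (fun h x => if P n M h x then 1 else 0)) :
    ∃ (ν : ℕ → ℕ) (h : ∀ k, A k) (ε : ℕ → (ℕ → Bool) → Bool), StrictMono ν ∧ (∀ j, n0 ≤ ν j) ∧
      (∀ j x x', (∀ k < ν j, x k = x' k) → ε j x = ε j x') ∧
      ∀ (J : ℕ) (σ : ℕ → Bool) (M1 : ℕ), ∃ M ≥ M1, ∃ (h' : ∀ k, A k) (x : ℕ → Bool), ∀ j < J,
        (∀ k < m1 (ν j), h' k = h k) ∧ P (ν j) M h' x ∧ ε j x = σ j := by
  have hstep := fa_step P m1 n0
  choose! nx hnx1 hnx2 hnx3 hnx4 using hstep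
  let S : ℕ → FaSt A := fun J => Nat.rec ⟨0, fun _ => 0, fun _ => default, fun _ _ => false⟩
    (fun J S => nx J S) J
  have hS1 : ∀ J, S (J + 1) = nx J (S J) := fun J => rfl
  have hG : ∀ J, FaGood P m1 n0 J (S J) := by
    intro J
    induction J with
    | zero => exact fa_init P m1 c hc n0 hP
    | succ J ih => rw [hS1]; exact hnx1 J _ ih
  have hext : ∀ J J', J ≤ J' → (∀ j < J, (S J').ν j = (S J).ν j ∧ (S J').ε j = (S J).ε j) ∧
      (S J).m ≤ (S J').m ∧ ∀ k < (S J).m, (S J').h k = (S J).h k := by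
    intro J J' hJ
    induction J', hJ using Nat.le_induction with
    | base => exact ⟨fun j _ => ⟨rfl, rfl⟩, le_rfl, fun k _ => rfl⟩
    | succ J' hJ ih =>
      obtain ⟨i1, i2, i3⟩ := ih
      rw [hS1]
      have hg := hG J'
      refine ⟨fun j hj => ?_, i2.trans (hnx3 J' _ hg), fun k hk => ?_⟩
      · obtain ⟨e1, e2⟩ := hnx2 J' _ hg j (hj.trans_le hJ)
        exact ⟨e1.trans (i1 j hj).1, e2.trans (i1 j hj).2⟩
      · exact (hnx4 J' _ hg k (hk.trans_le i2)).trans (i3 k hk)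
  have hm : ∀ J, J ≤ (S J).m := fun J => (hG J).2.2.2.1
  have hh : ∀ J, ∀ k < (S J).m, (S (k + 1)).h k = (S J).h k := by
    intro J k hk
    rcases le_total J (k + 1) with h | h
    · exact (hext _ _ h).2.2 k hk
    · exact ((hext _ _ h).2.2 k (hm (k + 1))).symm
  have hν : ∀ J, ∀ j < J, (S (j + 1)).ν j = (S J).ν j := by
    intro J j hj
    exact ((hext (j + 1) J hj).1 j (Nat.lt_succ_self j)).1.symm
  have hε : ∀ J, ∀ j < J, (S (j + 1)).ε j = (S J).ε j := by
    intro J j hj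
    exact ((hext (j + 1) J hj).1 j (Nat.lt_succ_self j)).2.symm
  refine ⟨fun j => (S (j + 1)).ν j, fun k => (S (k + 1)).h k, fun j => (S (j + 1)).ε j,
    ?_, ?_, ?_, ?_⟩
  · refine strictMono_nat_of_lt_succ fun j => ?_
    show (S (j + 1)).ν j < (S (j + 1 + 1)).ν (j + 1)
    rw [hν (j + 1 + 1) j (by omega)]
    exact (hG (j + 1 + 1)).2.1 j (j + 1) (by omega) (by omega)
  · intro j
    exact (hG (j + 1)).1 j (by omega)
  · intro j x x' hx
    exact (hG (j + 1)).2.2.2.2.1 j (by omega) x x' hx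
  · intro J σ M1
    obtain ⟨-, -, g3, -, -, v, hv, hev⟩ := hG J
    obtain ⟨n, hn⟩ := hev.exists
    obtain ⟨M, hM, hM1⟩ := (hn.and (faU_ge M1)).exists
    obtain ⟨h', x, ⟨hF1, hF2⟩, -⟩ := fa_exists (hv.trans_le hM)
    refine ⟨M, hM1, h', x (fun j => σ j), fun j hj => ⟨fun k hk => ?_, ?_⟩⟩
    · have hk' : k < (S J).m := by
        have h6 : k < m1 ((S (j + 1)).ν j) := hk
        rw [hν J j hj] at h6
        exact h6.trans_le (g3 j hj)
      rw [hF1 k hk']
      exact (hh J k hk').symm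
    · have := hF2 (fun j => σ j) ⟨j, hj⟩
      show P ((S (j + 1)).ν j) M h' (x fun j => σ j) ∧ (S (j + 1)).ε j (x fun j => σ j) = σ j
      rw [hν J j hj, hε J j hj]
      exact this

end Pool.Agent.L1F
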