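import Pool.Agent.Work.MP_3dfed9_an.Count

/-!
# MP_3dfed9_an : the forced relation (section 6)
-/

set_option autoImplicit false

namespace Pool.Agent.L1F

open Finset PreDesign

namespace ForcedAux

open scoped Classical in
theorem N_comb_le {D : PreDesign} {ι : Type} (κ : ℕ∞) (m : ℕ) (S : Finset ι) (c : ι → ℝ)
    (s : ι → D.Node) (s0 : D.Node) (hs : ∀ i ∈ S, (s i).1 = m) (hs0 : s0.1 = m) (β μ : ℝ)
    (hβ : 0 ≤ β) (h0 : ∑ i ∈ S with s i = s0, c i = 1)
    (h1 : ∀ s1, s1 ≠ s0 → ∑ i ∈ S with s i = s1, |c i| ≤ β)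
    (h2 : ∑ i ∈ S, |c i| ≤ μ) :
    N κ (∑ i ∈ S, c i • bv (s i) - bv s0) ≤ Real.sqrt (β * μ) := by
  set f : D.V := ∑ i ∈ S, c i • bv (s i) - bv s0 with hf
  have hval : ∀ s1, f s1 = (∑ i ∈ S with s i = s1, c i) - if s0 = s1 then 1 else 0 := by
    intro s1
    rw [hf, Finsupp.sub_apply, Finsupp.finsetSum_apply]
    congr 1
    · rw [Finset.sum_filter]
      refine Finset.sum_congr rfl fun i _ => ?_
      rw [Finsupp.smul_apply, bv, Finsupp.single_apply, smul_eq_mul]
      split_ifs <;> simp
    · rw [bv, Finsupp.single_apply]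
  have hf0 : f s0 = 0 := by
    rw [hval, h0, if_pos rfl, sub_self]
  have hf1 : ∀ s1, s1 ≠ s0 → f s1 = ∑ i ∈ S with s i = s1, c i := by
    intro s1 h
    rw [hval, if_neg (Ne.symm h), sub_zero]
  have habs : ∀ s1, |f s1| ≤ ∑ i ∈ S with s i = s1, |c i| := by
    intro s1
    by_cases h : s1 = s0
    · subst h
      rw [hf0, abs_zero]
      exact Finset.sum_nonneg fun i _ => abs_nonneg _
    · rw [hf1 s1 h]
      exact Finset.abs_sum_le_sum_abs _ _
  have hlev : ∀ s1, f s1 ≠ 0 → s1.1 = m := by
    intro s1 h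
    by_cases h' : s1 = s0
    · rw [h', hs0]
    · rw [hf1 s1 h'] at h
      obtain ⟨i, hi, -⟩ := Finset.exists_ne_zero_of_sum_ne_zero h
      rw [Finset.mem_filter] at hi
      rw [← hi.2, hs i hi.1]
  refine le_trans (N_level κ m f hlev) (Real.sqrt_le_sqrt ?_)
  have h3 : ∀ s1 ∈ f.support, f s1 ^ 2 ≤ β * ∑ i ∈ S with s i = s1, |c i| := by
    intro s1 hs1
    have hne : s1 ≠ s0 := by
      intro h
      rw [Finsupp.mem_support_iff, h] at hs1
      exact hs1 hf0
    rw [← sq_abs, sq]
    exact mul_le_mul (le_trans (habs s1) (h1 s1 hne)) (habs s1) (abs_nonneg _) hβ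
  calc ∑ s ∈ f.support, f s ^ 2 ≤ ∑ s1 ∈ f.support, β * ∑ i ∈ S with s i = s1, |c i| :=
        Finset.sum_le_sum h3
    _ = β * ∑ s1 ∈ f.support, ∑ i ∈ S with s i = s1, |c i| := by rw [Finset.mul_sum]
    _ ≤ β * ∑ i ∈ S, |c i| := by
        refine mul_le_mul_of_nonneg_left ?_ hβ
        have hd : (↑f.support : Set D.Node).PairwiseDisjoint
            (fun s1 => S.filter (fun i => s i = s1)) := by
          intro a _ b _ hab
          rw [Function.onFun, Finset.disjoint_left]
          intro i hi hi'
          rw [Finset.mem_filter] at hi hi'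
          exact hab (hi.2.symm.trans hi'.2)
        rw [← Finset.sum_biUnion hd]
        refine Finset.sum_le_sum_of_subset_of_nonneg ?_ fun i _ _ => abs_nonneg _
        intro i hi
        rw [Finset.mem_biUnion] at hi
        obtain ⟨a, _, hi⟩ := hi
        exact (Finset.mem_filter.1 hi).1
    _ ≤ β * μ := mul_le_mul_of_nonneg_left h2 hβ

theorem ext_apply {A : ℕ → Type} [∀ k, Inhabited (A k)] {M : ℕ} (g : ∀ k : Fin M, A k) {j : ℕ}
    (hj : j < M) : ext g j = g ⟨j, hj⟩ := by
  rw [ext, dif_pos hj]

theorem nd_eq {D : PreDesign} {t t' : D.Br} {m : ℕ} : nd t m = nd t' m ↔ ∀ k < m, t k = t' k := by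
  rw [nd_eq_iff]
  simp

theorem exists_nd {D : PreDesign} (s : D.Node) : ∃ t : D.Br, s = nd t s.1 := by
  obtain ⟨m, s⟩ := s
  refine ⟨ext (A := fun k => D.Io k) s, ?_⟩
  rw [nd]
  refine Sigma.ext rfl (heq_of_eq ?_)
  funext k
  exact (ext_apply (A := fun k => D.Io k) s k.2).symm

theorem nd_tb_iff {D : PreDesign} {h : D.Ln} {k : ℕ} {t : D.Br} (hi : In h k t)
    (y : Fin k → Bool) :
    nd (tb h (ext (A := fun _ => Bool) y)) k = nd t k ↔ ∀ i : Fin k, y i = xx t i := by
  rw [nd_eq]
  constructor
  · intro hh i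
    have := congrArg Prod.fst (hh i i.2)
    rw [tb] at this
    simp only at this
    rw [ext_apply (A := fun _ => Bool) y i.2] at this
    exact this
  · intro hh j hj
    rw [eq_tb_of_In hi j hj]
    refine tb_congr (m := k) (fun _ _ => rfl) ?_ j hj
    intro i hi'
    rw [ext_apply (A := fun _ => Bool) y hi']
    exact hh ⟨i, hi'⟩

theorem In_of_nd {D : PreDesign} {h : D.Ln} {k : ℕ} {t : D.Br} {x : ℕ → Bool}
    (hh : nd (tb h x) k = nd t k) : In h k t := by
  rw [nd_eq] at hh
  exact (In_congr (fun _ _ => rfl) hh).1 (In_tb h x k)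

theorem y_of_nd {D : PreDesign} {h : D.Ln} {k : ℕ} {t : D.Br} {y : Fin k → Bool}
    (hh : nd (tb h (ext (A := fun _ => Bool) y)) k = nd t k) : y = fun i : Fin k => xx t i := by
  funext i
  exact (nd_tb_iff (In_of_nd hh) y).1 hh i

/-- the relation vector as a combination over a filtered set -/
theorem rv_eq {D : PreDesign} (h : D.Ln) (m : ℕ) (t : D.Br)
    [DecidablePred fun c : D.Io m => InU h m (Function.update t m c)] :
    rv h m t = bv (nd t m) - ∑ c ∈ (Finset.univ : Finset (D.Io m)).filter
      (fun c => InU h m (Function.update t m c)), bv (nd (Function.update t m c) (m + 1)) := by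
  rw [rv, Finset.sum_filter]
  congr 1
  refine Finset.sum_congr rfl fun c _ => ?_
  congr

theorem upd_congr {D : PreDesign} {t t' : D.Br} {k : ℕ} {c : D.Io k}
    (hh : nd (Function.update t k c) (k + 1) = nd t' (k + 1)) :
    nd t k = nd t' k ∧ c = t' k := by
  rw [nd_eq] at hh
  constructor
  · rw [nd_eq]
    intro j hj
    rw [← hh j (by omega), Function.update_of_ne (by omega)]
  · rw [← hh k (by omega), Function.update_self]

theorem upd_nd {D : PreDesign} {t t' : D.Br} {k : ℕ} (hh : nd t k = nd t' k) :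
    nd (Function.update t k (t' k)) (k + 1) = nd t' (k + 1) := by
  rw [nd_eq] at hh ⊢
  intro j hj
  by_cases h : j = k
  · subst h
    rw [Function.update_self]
  · rw [Function.update_of_ne h]
    exact hh j (by omega)

open scoped Classical in
/-- level `k` -/
theorem level_k (D : Design) (t : D.toPreDesign.Br) (k : ℕ) (hk : 2 ≤ k)
    (hne : (Lset t k).Nonempty)
    (e : (∀ j : Fin k, D.A j) → (Fin k → Bool) → ℝ) (he : ∀ g y, |e g y| ≤ 1)
    (he0 : ∀ g, e g (fun i : Fin k => xx t i) = 1) :
    N ⊤ (∑ p ∈ (Lset t k) ×ˢ (Finset.univ : Finset (Fin k → Bool)),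
        (e p.1 p.2 / ((Lset t k).card : ℝ)) •
          bv (nd (tb (ext p.1) (ext (A := fun _ => Bool) p.2)) k) - bv (nd t k)) ≤ 1 / 2 ^ k := by
  have hcard : (0 : ℝ) < ((Lset t k).card : ℝ) := by
    exact_mod_cast hne.card_pos
  obtain ⟨k', rfl⟩ : ∃ k', k = k' + 1 := ⟨k - 1, by omega⟩
  have hE : (0 : ℝ) < (Fintype.card (D.E k') : ℝ) := by
    exact_mod_cast Fintype.card_pos
  refine le_trans (N_comb_le ⊤ (k' + 1) _ _ _ _ (fun _ _ => rfl) rfl
    (1 / (Fintype.card (D.E k') : ℝ)) (2 ^ (k' + 1)) (by positivity) ?_ ?_ ?_) ?_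
  · -- the coefficient at `nd t k`
    have hset : ((Lset t (k' + 1)) ×ˢ (Finset.univ : Finset (Fin (k' + 1) → Bool))).filter
        (fun p => nd (tb (ext p.1) (ext (A := fun _ => Bool) p.2)) (k' + 1) = nd t (k' + 1)) =
        (Lset t (k' + 1)).image (fun g => (g, fun i : Fin (k' + 1) => xx t i)) := by
      ext ⟨g, y⟩
      simp only [Finset.mem_filter, Finset.mem_product, Finset.mem_univ, and_true,
        Finset.mem_image, Prod.mk.injEq]
      constructor
      · rintro ⟨hg, hh⟩
        exact ⟨g, hg, rfl, (y_of_nd hh).symm⟩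
      · rintro ⟨g', hg', rfl, rfl⟩
        refine ⟨hg', ?_⟩
        have hg2 : InU (ext g') (k' + 1) t := by
          rw [Lset, Finset.mem_filter] at hg'
          exact hg'.2
        exact (nd_tb_iff hg2.1 _).2 fun i => rfl
    rw [hset, Finset.sum_image (by
      intro a _ b _ hab
      exact (Prod.mk.inj hab).1)]
    simp only [he0]
    rw [Finset.sum_const, nsmul_eq_mul]
    field_simp
  · -- the other coefficients
    intro s1 hs1
    by_cases hl : s1.1 = k' + 1
    · obtain ⟨t', ht'⟩ := exists_nd s1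
      rw [hl] at ht'
      subst ht'
      have h1 : ∀ p ∈ ((Lset t (k' + 1)) ×ˢ (Finset.univ : Finset (Fin (k' + 1) → Bool))).filter
          (fun p => nd (tb (ext p.1) (ext (A := fun _ => Bool) p.2)) (k' + 1) = nd t' (k' + 1)),
          |e p.1 p.2 / ((Lset t (k' + 1)).card : ℝ)| ≤ 1 / ((Lset t (k' + 1)).card : ℝ) := by
        intro p _
        rw [abs_div, abs_of_pos hcard]
        exact div_le_div_of_nonneg_right (he _ _) hcard.le
      refine le_trans (Finset.sum_le_card_nsmul _ _ _ h1) ?_
      have h2 : (((Lset t (k' + 1)) ×ˢ (Finset.univ : Finset (Fin (k' + 1) → Bool))).filter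
          (fun p => nd (tb (ext p.1) (ext (A := fun _ => Bool) p.2)) (k' + 1) =
            nd t' (k' + 1))).card ≤
          ((Lset t (k' + 1)).filter (fun g => In (ext g) (k' + 1) t')).card := by
        refine Finset.card_le_card_of_injOn Prod.fst ?_ ?_
        · intro p hp
          simp only [Finset.coe_filter, Finset.mem_product, Finset.mem_univ, and_true,
            Set.mem_setOf_eq] at hp ⊢
          exact ⟨hp.1, In_of_nd hp.2⟩
        · intro p hp q hq hpq
          simp only [Finset.coe_filter, Finset.mem_product, Finset.mem_univ, and_true,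
            Set.mem_setOf_eq] at hp hq
          exact Prod.ext hpq ((y_of_nd hp.2).trans (y_of_nd hq.2).symm)
      have hk1 : 1 ≤ k' := by omega
      have h3 := sp2 D t t' k' hk1 (Ne.symm hs1)
      rw [nsmul_eq_mul, mul_one_div, div_le_div_iff₀ hcard hE, one_mul]
      have h4 : ((((Lset t (k' + 1)).filter (fun g => In (ext g) (k' + 1) t')).card *
        Fintype.card (D.E k') : ℕ) : ℝ) ≤ ((Lset t (k' + 1)).card : ℝ) := by
        exact_mod_cast h3
      push_cast at h4
      refine le_trans (mul_le_mul_of_nonneg_right ?_ hE.le) h4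
      exact_mod_cast h2
    · have : ((Lset t (k' + 1)) ×ˢ (Finset.univ : Finset (Fin (k' + 1) → Bool))).filter
          (fun p => nd (tb (ext p.1) (ext (A := fun _ => Bool) p.2)) (k' + 1) = s1) = ∅ := by
        refine Finset.filter_eq_empty_iff.2 ?_
        intro p _ hh
        exact hl (by rw [← hh]; rfl)
      rw [this, Finset.sum_empty]
      positivity
  · -- the mass
    have h1 : ∀ p ∈ ((Lset t (k' + 1)) ×ˢ (Finset.univ : Finset (Fin (k' + 1) → Bool))),
        |e p.1 p.2 / ((Lset t (k' + 1)).card : ℝ)| ≤ 1 / ((Lset t (k' + 1)).card : ℝ) := by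
      intro p _
      rw [abs_div, abs_of_pos hcard]
      exact div_le_div_of_nonneg_right (he _ _) hcard.le
    refine le_trans (Finset.sum_le_card_nsmul _ _ _ h1) ?_
    rw [Finset.card_product, Finset.card_univ, Fintype.card_fun, Fintype.card_bool,
      Fintype.card_fin, nsmul_eq_mul]
    push_cast
    rw [mul_one_div, mul_comm, mul_div_assoc, div_self hcard.ne', mul_one]
  · rw [Real.sqrt_le_left (by positivity), one_div_mul_eq_div, div_pow, one_pow,
      div_le_div_iff₀ hE (by positivity), one_mul]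
    have h5 := D.size k'
    have h6 : 1 ≤ Fintype.card (D.L k') := Fintype.card_pos
    have h7 : 2 ^ (k' + 1) * 4 ^ (k' + 1) ≤ Fintype.card (D.E k') := by
      refine le_trans ?_ h5
      calc 2 ^ (k' + 1) * 4 ^ (k' + 1) = 2 ^ (k' + 1) * 1 * 4 ^ (k' + 1) := by ring
        _ ≤ _ := by gcongr
    have h8 : ((2 : ℝ) ^ (k' + 1)) ^ 2 = 4 ^ (k' + 1) := by
      rw [← pow_mul, mul_comm, pow_mul]
      norm_num
    rw [h8]
    exact_mod_cast h7

open scoped Classical in
/-- level `k + 1` -/
theorem level_k1 (D : Design) (t : D.toPreDesign.Br) (k : ℕ) (hk : 2 ≤ k)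
    (hne : (Lset t k).Nonempty)
    (e : (∀ j : Fin k, D.A j) → (Fin k → Bool) → ℝ) (he : ∀ g y, |e g y| ≤ 1)
    (he0 : ∀ g, e g (fun i : Fin k => xx t i) = 1) :
    N ⊤ (∑ p ∈ ((Lset t k) ×ˢ ((Finset.univ : Finset (Fin k → Bool)) ×ˢ
          (Finset.univ : Finset (D.toPreDesign.Io k)))).filter
          (fun p => InU (ext p.1) k (Function.update
            (tb (ext p.1) (ext (A := fun _ => Bool) p.2.1)) k p.2.2)),
        (e p.1 p.2.1 / ((Lset t k).card : ℝ)) •
          bv (nd (Function.update (tb (ext p.1) (ext (A := fun _ => Bool) p.2.1)) k p.2.2)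
            (k + 1)) - bv (nd t (k + 1))) ≤ 1 / 2 ^ k := by
  have hcard : (0 : ℝ) < ((Lset t k).card : ℝ) := by
    exact_mod_cast hne.card_pos
  have hE : (0 : ℝ) < (Fintype.card (D.E k) : ℝ) := by
    exact_mod_cast Fintype.card_pos
  refine le_trans (N_comb_le ⊤ (k + 1) _ _ _ _ (fun _ _ => rfl) rfl
    (1 / (Fintype.card (D.E k) : ℝ)) (2 ^ (k + 1) * (Fintype.card (D.L k) : ℝ)) (by positivity)
    ?_ ?_ ?_) ?_
  · -- the coefficient at `nd t (k + 1)`
    have hset : (((Lset t k) ×ˢ ((Finset.univ : Finset (Fin k → Bool)) ×ˢ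
          (Finset.univ : Finset (D.toPreDesign.Io k)))).filter
          (fun p => InU (ext p.1) k (Function.update
            (tb (ext p.1) (ext (A := fun _ => Bool) p.2.1)) k p.2.2))).filter
        (fun p => nd (Function.update (tb (ext p.1) (ext (A := fun _ => Bool) p.2.1)) k p.2.2)
            (k + 1) = nd t (k + 1)) =
        (Lset t k).image (fun g => (g, ((fun i : Fin k => xx t i), t k))) := by
      ext ⟨g, y, c⟩
      simp only [Finset.mem_filter, Finset.mem_product, Finset.mem_univ, and_true,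
        Finset.mem_image, Prod.mk.injEq]
      constructor
      · rintro ⟨⟨hg, -⟩, hh⟩
        obtain ⟨h1, h2⟩ := upd_congr hh
        exact ⟨g, hg, rfl, (y_of_nd h1).symm, h2.symm⟩
      · rintro ⟨g', hg', rfl, rfl, rfl⟩
        have hg2 : InU (ext g') k t := by
          rw [Lset, Finset.mem_filter] at hg'
          exact hg'.2
        have h1 := (nd_tb_iff hg2.1 (fun i : Fin k => xx t i)).2 fun i => rfl
        have h2 := upd_nd h1
        refine ⟨⟨hg', ?_⟩, h2⟩
        rw [nd_eq] at h2
        exact (InU_congr (fun _ _ => rfl) h2).2 hg2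
    rw [hset, Finset.sum_image (by
      intro a _ b _ hab
      exact (Prod.mk.inj hab).1)]
    simp only [he0]
    rw [Finset.sum_const, nsmul_eq_mul]
    field_simp
  · -- the other coefficients
    intro s1 hs1
    by_cases hl : s1.1 = k + 1
    · obtain ⟨t', ht'⟩ := exists_nd s1
      rw [hl] at ht'
      subst ht'
      refine le_trans (Finset.sum_le_card_nsmul _ _ (1 / ((Lset t k).card : ℝ)) ?_) ?_
      · intro p _
        rw [abs_div, abs_of_pos hcard]
        exact div_le_div_of_nonneg_right (he _ _) hcard.le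
      have h2 : ((((Lset t k) ×ˢ ((Finset.univ : Finset (Fin k → Bool)) ×ˢ
          (Finset.univ : Finset (D.toPreDesign.Io k)))).filter
          (fun p => InU (ext p.1) k (Function.update
            (tb (ext p.1) (ext (A := fun _ => Bool) p.2.1)) k p.2.2))).filter
        (fun p => nd (Function.update (tb (ext p.1) (ext (A := fun _ => Bool) p.2.1)) k p.2.2)
            (k + 1) = nd t' (k + 1))).card ≤
          ((Lset t k).filter (fun g => InU (ext g) k t')).card := by
        refine Finset.card_le_card_of_injOn Prod.fst ?_ ?_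
        · intro p hp
          simp only [Finset.coe_filter, Finset.mem_product, Finset.mem_univ, and_true,
            Set.mem_setOf_eq, Finset.mem_filter] at hp ⊢
          refine ⟨hp.1.1, ?_⟩
          have h3 := hp.2
          rw [nd_eq] at h3
          exact (InU_congr (fun _ _ => rfl) h3).1 hp.1.2
        · intro p hp q hq hpq
          simp only [Finset.coe_filter, Finset.mem_product, Finset.mem_univ, and_true,
            Set.mem_setOf_eq, Finset.mem_filter] at hp hq
          obtain ⟨h3, h4⟩ := upd_congr hp.2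
          obtain ⟨h5, h6⟩ := upd_congr hq.2
          exact Prod.ext hpq (Prod.ext ((y_of_nd h3).trans (y_of_nd h5).symm) (h4.trans h6.symm))
      have h3 := sp1 D t t' k (by omega) (Ne.symm hs1)
      rw [nsmul_eq_mul, mul_one_div, div_le_div_iff₀ hcard hE, one_mul]
      have h4 : ((((Lset t k).filter (fun g => InU (ext g) k t')).card *
        Fintype.card (D.E k) : ℕ) : ℝ) ≤ ((Lset t k).card : ℝ) := by
        exact_mod_cast h3
      push_cast at h4
      refine le_trans (mul_le_mul_of_nonneg_right ?_ hE.le) h4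
      exact_mod_cast h2
    · rw [Finset.filter_eq_empty_iff.2, Finset.sum_empty]
      · positivity
      · intro p _ hh
        exact hl (by rw [← hh]; rfl)
  · -- the mass
    refine le_trans (Finset.sum_le_card_nsmul _ _ (1 / ((Lset t k).card : ℝ)) ?_) ?_
    · intro p _
      rw [abs_div, abs_of_pos hcard]
      exact div_le_div_of_nonneg_right (he _ _) hcard.le
    have h2 : (((Lset t k) ×ˢ ((Finset.univ : Finset (Fin k → Bool)) ×ˢ
          (Finset.univ : Finset (D.toPreDesign.Io k)))).filter
          (fun p => InU (ext p.1) k (Function.update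
            (tb (ext p.1) (ext (A := fun _ => Bool) p.2.1)) k p.2.2))).card ≤
        ((Lset t k) ×ˢ ((Finset.univ : Finset (Fin k → Bool)) ×ˢ
          ((Finset.univ : Finset Bool) ×ˢ (Finset.univ : Finset (D.L k))))).card := by
      refine Finset.card_le_card_of_injOn (fun p => (p.1, p.2.1, p.2.2.1, p.2.2.2.1)) ?_ ?_
      · intro p hp
        simp only [Finset.coe_filter, Finset.mem_product, Finset.mem_univ, and_true,
          Set.mem_setOf_eq, Finset.mem_coe] at hp ⊢
        exact hp.1
      · rintro ⟨g, y, b, l, v⟩ hp ⟨g', y', b', l', v'⟩ hq hpq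
        simp only [Finset.coe_filter, Finset.mem_product, Finset.mem_univ, and_true,
          Set.mem_setOf_eq] at hp hq
        simp only [Prod.mk.injEq] at hpq
        obtain ⟨rfl, rfl, rfl, rfl⟩ := hpq
        have h3 := hp.2.2
        have h4 := hq.2.2
        simp only [Function.update_self] at h3 h4
        have h5 : v = v' := by
          rw [h3, h4]
          refine D.val_congr k _ _ _ _ l (fun _ _ => rfl) ?_
          intro j _
          simp only [xx]
          by_cases hj : j = k
          · subst hj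
            rw [Function.update_self, Function.update_self]
          · rw [Function.update_of_ne hj, Function.update_of_ne hj]
        rw [h5]
    rw [Finset.card_product, Finset.card_product, Finset.card_product, Finset.card_univ,
      Finset.card_univ, Finset.card_univ, Fintype.card_fun, Fintype.card_bool,
      Fintype.card_fin] at h2
    have h3 : ((((Lset t k) ×ˢ ((Finset.univ : Finset (Fin k → Bool)) ×ˢ
          (Finset.univ : Finset (D.toPreDesign.Io k)))).filter
          (fun p => InU (ext p.1) k (Function.update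
            (tb (ext p.1) (ext (A := fun _ => Bool) p.2.1)) k p.2.2))).card : ℝ) ≤
        ((Lset t k).card : ℝ) * (2 ^ k * (2 * (Fintype.card (D.L k) : ℝ))) := by
      exact_mod_cast h2
    rw [nsmul_eq_mul, mul_one_div, div_le_iff₀ hcard]
    refine le_trans h3 (le_of_eq ?_)
    ring
  · rw [Real.sqrt_le_left (by positivity), one_div_mul_eq_div, div_pow, one_pow,
      div_le_div_iff₀ hE (by positivity), one_mul]
    have h5 := D.size k
    have h8 : ((2 : ℝ) ^ k) ^ 2 = 4 ^ k := by
      rw [← pow_mul, mul_comm, pow_mul]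
      norm_num
    rw [h8]
    have h9 : 2 ^ (k + 1) * Fintype.card (D.L k) * 4 ^ k ≤ Fintype.card (D.E k) := by
      refine le_trans ?_ h5
      gcongr
      · norm_num
      · omega
    exact_mod_cast h9

end ForcedAux

open ForcedAux

theorem forced (D : Design) (φ : D.toPreDesign.V →ₗ[ℝ] ℝ) (C : ℝ) (hC : 0 ≤ C)
    (hφ : ∀ f, |φ f| ≤ C * N ⊤ f) (t : D.toPreDesign.Br) (k : ℕ) (hk : 2 ≤ k)
    (hne : (Lset t k).Nonempty) :
    φ (bv (nd t k)) - φ (bv (nd t (k + 1))) - C * (4 / 2 ^ k) ≤
      (∑ g ∈ Lset t k, brk φ (ext g) k t) / ((Lset t k).card : ℝ) := by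
  classical
  have hcard : (0 : ℝ) < ((Lset t k).card : ℝ) := by
    exact_mod_cast hne.card_pos
  set e : (∀ j : Fin k, D.A j) → (Fin k → Bool) → ℝ := fun g y =>
    if (∀ i : Fin k, y i = xx t i) then 1 else
      if 0 ≤ φ (rv (ext g) k (tb (ext g) (ext (A := fun _ => Bool) y))) then -1 else 1 with he
  have he1 : ∀ g y, |e g y| ≤ 1 := by
    intro g y
    rw [he]
    simp only
    split_ifs <;> simp
  have he0 : ∀ g, e g (fun i : Fin k => xx t i) = 1 := by
    intro g
    rw [he]
    simp
  have hbrk : ∀ g ∈ Lset t k, brk φ (ext g) k t = ∑ y : (Fin k → Bool),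
      e g y * φ (rv (ext g) k (tb (ext g) (ext (A := fun _ => Bool) y))) := by
    intro g hg
    have hg2 : InU (ext g) k t := by
      rw [Lset, Finset.mem_filter] at hg
      exact hg.2
    rw [brk]
    have h1 : φ (rv (ext g) k t) = ∑ y : (Fin k → Bool),
        if (∀ i : Fin k, y i = xx t i) then
          φ (rv (ext g) k (tb (ext g) (ext (A := fun _ => Bool) y))) else 0 := by
      rw [Finset.sum_eq_single (fun i : Fin k => xx t i)]
      · rw [if_pos (fun _ => rfl)]
        congr 1
        refine rv_congr (fun _ _ => rfl) ?_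
        intro j hj
        have := (nd_tb_iff hg2.1 (fun i : Fin k => xx t i)).2 fun i => rfl
        rw [nd_eq] at this
        exact (this j hj).symm
      · intro y _ hy
        rw [if_neg]
        intro h
        exact hy (funext h)
      · intro h
        exact absurd (Finset.mem_univ _) h
    rw [h1, ← Finset.sum_sub_distrib]
    refine Finset.sum_congr rfl fun y _ => ?_
    rw [he]
    simp only
    by_cases hy : ∀ i : Fin k, y i = xx t i
    · rw [if_pos hy, if_pos hy, if_pos hy]
      ring
    · rw [if_neg hy, if_neg hy, if_neg hy]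
      split_ifs with h2
      · rw [abs_of_nonneg h2]; ring
      · rw [abs_of_neg (not_le.1 h2)]; ring
  have hsum : (∑ g ∈ Lset t k, brk φ (ext g) k t) / ((Lset t k).card : ℝ) =
      φ (∑ p ∈ (Lset t k) ×ˢ (Finset.univ : Finset (Fin k → Bool)),
        (e p.1 p.2 / ((Lset t k).card : ℝ)) •
          bv (nd (tb (ext p.1) (ext (A := fun _ => Bool) p.2)) k)) -
      φ (∑ p ∈ ((Lset t k) ×ˢ ((Finset.univ : Finset (Fin k → Bool)) ×ˢ
          (Finset.univ : Finset (D.toPreDesign.Io k)))).filter
          (fun p => InU (ext p.1) k (Function.update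
            (tb (ext p.1) (ext (A := fun _ => Bool) p.2.1)) k p.2.2)),
        (e p.1 p.2.1 / ((Lset t k).card : ℝ)) •
          bv (nd (Function.update (tb (ext p.1) (ext (A := fun _ => Bool) p.2.1)) k p.2.2)
            (k + 1))) := by
    rw [Finset.sum_congr rfl hbrk, map_sum, map_sum, Finset.sum_filter, Finset.sum_product,
      Finset.sum_product, ← Finset.sum_sub_distrib, Finset.sum_div]
    refine Finset.sum_congr rfl fun g _ => ?_
    rw [Finset.sum_product, ← Finset.sum_sub_distrib, Finset.sum_div]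
    refine Finset.sum_congr rfl fun y _ => ?_
    rw [rv_eq, map_sub, map_sum, Finset.sum_filter, map_smul, smul_eq_mul, mul_sub, sub_div]
    congr 1
    · ring
    · rw [Finset.mul_sum, Finset.sum_div]
      refine Finset.sum_congr rfl fun c _ => ?_
      split_ifs
      · rw [map_smul, smul_eq_mul]; ring
      · simp
  rw [hsum]
  have h1 := level_k D t k hk hne e he1 he0
  have h2 := level_k1 D t k hk hne e he1 he0
  set F1 := (∑ p ∈ (Lset t k) ×ˢ (Finset.univ : Finset (Fin k → Bool)),
        (e p.1 p.2 / ((Lset t k).card : ℝ)) •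
          bv (nd (tb (ext p.1) (ext (A := fun _ => Bool) p.2)) k)) with hF1
  set F2 := (∑ p ∈ ((Lset t k) ×ˢ ((Finset.univ : Finset (Fin k → Bool)) ×ˢ
          (Finset.univ : Finset (D.toPreDesign.Io k)))).filter
          (fun p => InU (ext p.1) k (Function.update
            (tb (ext p.1) (ext (A := fun _ => Bool) p.2.1)) k p.2.2)),
        (e p.1 p.2.1 / ((Lset t k).card : ℝ)) •
          bv (nd (Function.update (tb (ext p.1) (ext (A := fun _ => Bool) p.2.1)) k p.2.2)
            (k + 1))) with hF2
  have h3 := (abs_le.1 (le_trans (hφ _) (mul_le_mul_of_nonneg_left h1 hC))).1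
  have h4 := (abs_le.1 (le_trans (hφ _) (mul_le_mul_of_nonneg_left h2 hC))).2
  rw [map_sub] at h3 h4
  have h5 : C * (4 / 2 ^ k) = 4 * (C * (1 / 2 ^ k)) := by ring
  have h6 : 0 ≤ C * (1 / 2 ^ k) := by positivity
  rw [h5]
  linarith

/-- the sum of the brackets is bounded by any sign combination -/
theorem brk_sum_le (D : Design) (φ : D.toPreDesign.V →ₗ[ℝ] ℝ) (h : D.toPreDesign.Ln)
    (x : ℕ → Bool) (n m1 : ℕ) (ε : (ℕ → Bool) → ℝ) (hε : ∀ x, ε x = 1 ∨ ε x = -1)
    (hdep : ∀ x x', (∀ k < n, x k = x' k) → ε x = ε x') :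
    ∑ k ∈ Finset.Ico n m1, brk φ h k (tb h x) ≤ ε x * φ (Xv h n m1 ε) := by
  classical
  rw [Xv, map_sum, Finset.mul_sum]
  refine Finset.sum_le_sum fun k hk => ?_
  rw [Finset.mem_Ico] at hk
  rw [map_sum, Finset.mul_sum, brk]
  have h1 : φ (rv h k (tb h x)) = ∑ y : (Fin k → Bool),
      if (∀ i : Fin k, y i = xx (tb h x) i) then
        φ (rv h k (tb h (ext (A := fun _ => Bool) y))) else 0 := by
    rw [Finset.sum_eq_single (fun i : Fin k => xx (tb h x) i)]
    · rw [if_pos (fun _ => rfl)]
      congr 1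
      refine rv_congr (fun _ _ => rfl) ?_
      intro j hj
      have := (nd_tb_iff (In_tb h x k) (fun i : Fin k => xx (tb h x) i)).2 fun i => rfl
      rw [nd_eq] at this
      exact (this j hj).symm
    · intro y _ hy
      rw [if_neg]
      intro h
      exact hy (funext h)
    · intro h
      exact absurd (Finset.mem_univ _) h
  rw [h1, ← Finset.sum_sub_distrib]
  refine Finset.sum_le_sum fun y _ => ?_
  rw [map_smul, smul_eq_mul, ← mul_assoc]
  by_cases hy : ∀ i : Fin k, y i = xx (tb h x) i
  · rw [if_pos hy, if_pos hy, sub_zero]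
    have h2 : ε (ext (A := fun _ => Bool) y) = ε x := by
      refine hdep _ _ fun j hj => ?_
      rw [ext_apply (A := fun _ => Bool) y (show j < k by omega), hy ⟨j, by omega⟩]
      rfl
    rw [h2]
    rcases hε x with h3 | h3 <;> rw [h3] <;> linarith
  · rw [if_neg hy, if_neg hy, zero_sub]
    rcases hε x with h3 | h3 <;> rcases hε (ext (A := fun _ => Bool) y) with h4 | h4 <;>
      rw [h3, h4]
    · have := neg_abs_le (φ (rv h k (tb h (ext (A := fun _ => Bool) y))))
      linarith
    · have := le_abs_self (φ (rv h k (tb h (ext (A := fun _ => Bool) y))))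
      linarith
    · have := le_abs_self (φ (rv h k (tb h (ext (A := fun _ => Bool) y))))
      linarith
    · have := neg_abs_le (φ (rv h k (tb h (ext (A := fun _ => Bool) y))))
      linarith

end Pool.Agent.L1F
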