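import Mathlib

/-!
# MP_3dfed9_an : `ℓ₁` from a lower estimate (section 8)
-/

set_option autoImplicit false

namespace Pool.Agent.L1F

open Finset Filter Topology

theorem l1_hasSum_norm (x : lp (fun _ : ℕ => ℝ) 1) : HasSum (fun i => |x i|) ‖x‖ := by
  have h := lp.hasSum_norm (p := 1) (by simp) x
  simpa using h

theorem l1_of_lower {Y : Type} [NormedAddCommGroup Y] [NormedSpace ℝ Y] [CompleteSpace Y]
    (u : ℕ → Y) (C : ℝ) (hu : ∀ n, ‖u n‖ ≤ C) (c : ℝ) (hc : 0 < c)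
    (h : ∀ (J : ℕ) (a : ℕ → ℝ), c * ∑ j ∈ Finset.range J, |a j| ≤
      ‖∑ j ∈ Finset.range J, a j • u j‖) :
    ∃ (T : lp (fun _ : ℕ => ℝ) 1 →L[ℝ] Y) (c : ℝ), 0 < c ∧ ∀ x, c * ‖x‖ ≤ ‖T x‖ := by
  have hn : ∀ (x : lp (fun _ : ℕ => ℝ) 1) i, ‖x i • u i‖ ≤ C * |x i| := by
    intro x i
    rw [norm_smul, Real.norm_eq_abs, mul_comm]
    exact mul_le_mul_of_nonneg_right (hu i) (abs_nonneg _)
  have hsn : ∀ x : lp (fun _ : ℕ => ℝ) 1, Summable fun i => ‖x i • u i‖ := fun x =>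
    Summable.of_nonneg_of_le (fun _ => norm_nonneg _) (hn x)
      ((l1_hasSum_norm x).summable.mul_left C)
  have hs : ∀ x : lp (fun _ : ℕ => ℝ) 1, Summable fun i => x i • u i := fun x => (hsn x).of_norm
  let T0 : lp (fun _ : ℕ => ℝ) 1 →ₗ[ℝ] Y :=
    { toFun := fun x => ∑' i, x i • u i
      map_add' := fun x y => by
        rw [← (hs x).tsum_add (hs y)]
        congr 1
        funext i
        simp [add_smul]
      map_smul' := fun r x => by
        rw [RingHom.id_apply, ← (hs x).tsum_const_smul r]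
        congr 1
        funext i
        simp [smul_smul] }
  have hb : ∀ x, ‖T0 x‖ ≤ C * ‖x‖ := by
    intro x
    calc ‖T0 x‖ ≤ ∑' i, ‖x i • u i‖ := norm_tsum_le_tsum_norm (hsn x)
      _ ≤ ∑' i, C * |x i| := (hsn x).tsum_le_tsum (hn x) ((l1_hasSum_norm x).summable.mul_left C)
      _ = C * ‖x‖ := by rw [tsum_mul_left, (l1_hasSum_norm x).tsum_eq]
  refine ⟨T0.mkContinuous C hb, c, hc, fun x => ?_⟩
  have h1 : Tendsto (fun J => c * ∑ j ∈ Finset.range J, |x j|) atTop (𝓝 (c * ‖x‖)) :=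
    (l1_hasSum_norm x).tendsto_sum_nat.const_mul c
  have h2 : Tendsto (fun J => ‖∑ j ∈ Finset.range J, x j • u j‖) atTop
      (𝓝 ‖T0.mkContinuous C hb x‖) :=
    (hs x).hasSum.tendsto_sum_nat.norm
  exact le_of_tendsto_of_tendsto' h1 h2 fun J => h J (fun j => x j)

end Pool.Agent.L1F
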