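import Pool.Agent.Work.MP_3dfed9_an.NormAPI

/-!
# MP_3dfed9_an : Lemma B (section 3b of the proof note)
-/

set_option autoImplicit false

namespace Pool.Agent.L1F

open Finset PreDesign

/-! ### extraction of subsequences -/

open Filter Topology in
theorem lemB_extract {T : ℕ → Type} [∀ k, Finite (T k)] (x : ℕ → ∀ k, T k) :
    ∃ (a : ∀ k, T k) (φ : ℕ → ℕ), StrictMono φ ∧
      ∀ m, ∃ n0, ∀ n, n0 ≤ n → ∀ k < m, x (φ n) k = a k := by
  let _ : ∀ k, TopologicalSpace (T k) := fun _ => ⊥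
  have _ : ∀ k, DiscreteTopology (T k) := fun _ => ⟨rfl⟩
  obtain ⟨a, φ, hφ, h⟩ := CompactSpace.tendsto_subseq x
  refine ⟨a, φ, hφ, fun m => ?_⟩
  rw [tendsto_pi_nhds] at h
  have h1 : ∀ k, ∀ᶠ n in atTop, x (φ n) k = a k := fun k => by
    have h2 := h k
    rw [nhds_discrete, tendsto_pure] at h2
    exact h2
  have h2 : ∀ᶠ n in atTop, ∀ k ∈ Finset.range m, x (φ n) k = a k :=
    (Finset.eventually_all _).2 fun k _ => h1 k
  obtain ⟨n0, h3⟩ := eventually_atTop.1 h2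
  exact ⟨n0, fun n hn k hk => h3 n hn k (Finset.mem_range.2 hk)⟩

theorem lemB_max {X : Type} [DecidableEq X] (Q : Finset X → Prop) (M : ℕ) (h0 : Q ∅)
    (hM : ∀ A, Q A → A.card ≤ M) : ∃ A, Q A ∧ ∀ t, t ∉ A → ¬ Q (insert t A) := by
  by_contra hcon
  push Not at hcon
  have h1 : ∀ k, ∃ A, Q A ∧ A.card = k := by
    intro k
    induction k with
    | zero => exact ⟨∅, h0, rfl⟩
    | succ k ih =>
      obtain ⟨A, hA, hk⟩ := ih
      obtain ⟨t, ht, hQ⟩ := hcon A hA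
      exact ⟨insert t A, hQ, by rw [Finset.card_insert_of_notMem ht, hk]⟩
  obtain ⟨A, hA, hk⟩ := h1 (M + 1)
  have := hM A hA
  omega

theorem lemB_enum {X : Type} [Inhabited X] (A : Finset X) (M : ℕ) (h : A.card ≤ M) :
    ∃ a : Fin M → X, ∀ x ∈ A, ∃ i, a i = x := by
  classical
  refine ⟨fun i => if h : i.1 < A.card then (A.equivFin.symm ⟨i.1, h⟩).1 else default,
    fun x hx => ?_⟩
  refine ⟨⟨(A.equivFin ⟨x, hx⟩).1, (A.equivFin ⟨x, hx⟩).2.trans_le h⟩, ?_⟩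
  simp

theorem lemB_six {X : Type} (E : Finset X) (h : 6 ≤ E.card) :
    ∃ e : Fin 6 → X, Function.Injective e ∧ ∀ i, e i ∈ E := by
  refine ⟨fun i => (E.equivFin.symm (Fin.castLE h i)).1, ?_, fun i => (E.equivFin.symm _).2⟩
  intro i j hij
  have h1 := E.equivFin.symm.injective (Subtype.ext hij)
  exact Fin.castLE_injective h h1

theorem lemB_level_mono {l r : ℕ → ℕ} (hlr : ∀ n, l n < r n) (hrl : ∀ n, r n ≤ l (n + 1))
    {m n : ℕ} (h : m < n) : r m ≤ l n := by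
  induction n, h using Nat.le_induction with
  | base => exact hrl m
  | succ n _ ih => exact ih.trans ((hlr n).le.trans (hrl n))

/-! ### elementary facts on lines and branches -/

section

variable {D : PreDesign}

theorem In_mono {h : D.Ln} {m m' : ℕ} {t : D.Br} (hm : m' ≤ m) (hI : In h m t) : In h m' t :=
  fun j hj => hI j (hj.trans_le hm)

theorem In_congr_line {h h' : D.Ln} {m : ℕ} {t : D.Br} (hh : ∀ k < m, h k = h' k)
    (hI : In h m t) : In h' m t := by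
  intro j hj
  obtain ⟨h1, h2⟩ := hI j hj
  refine ⟨?_, ?_⟩
  · rw [h1, hh j hj]
  · rw [h2]
    exact D.val_congr j h h' _ _ _ (fun k hk => hh k (hk.trans hj)) fun _ _ => rfl

theorem lemB_disj {t t' : D.Br} {l r : ℕ} (h : ∃ k < l, t k ≠ t' k) :
    Disj (⟨t, l, r⟩ : Seg D) ⟨t', l, r⟩ := by
  intro m hm _ he
  obtain ⟨k, hk, hne⟩ := h
  rw [nd_eq_iff] at he
  have h1 : l < m := (Finset.mem_Ioc.1 hm).1
  exact hne (he.2 k (hk.trans h1))

theorem lemB_tot_congr {t t' : D.Br} {l r : ℕ} {F : D.V}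
    (hF : ∀ s, F s ≠ 0 → l < s.1 ∧ s.1 ≤ r) (h : ∀ k < r, t k = t' k) : tot t F = tot t' F := by
  rw [tot_eq_segv t l r F hF, tot_eq_segv t' l r F hF]
  unfold segv
  refine Finset.sum_congr rfl fun m hm => ?_
  have h1 : m ≤ r := (Finset.mem_Ioc.1 hm).2
  have h2 : nd t m = nd t' m := nd_eq_iff.2 ⟨rfl, fun k hk => h k (hk.trans_le h1)⟩
  rw [h2]

theorem lemB_card {l r : ℕ} {F : D.V} (hF : ∀ s, F s ≠ 0 → l < s.1 ∧ s.1 ≤ r) {C δ : ℝ}
    (hC : N 6 F ≤ C) (hδ : 0 < δ) (A : Finset D.Br) (hb : ∀ t ∈ A, δ ≤ |tot t F|)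
    (hA : Allowed 6 A (fun t => (⟨t, l, r⟩ : Seg D))) : A.card ≤ ⌊C ^ 2 / δ ^ 2⌋₊ := by
  apply Nat.le_floor
  rw [le_div_iff₀ (by positivity)]
  have h1 := sq_sum_le 6 A (fun t => (⟨t, l, r⟩ : Seg D)) hA F
  have h2 : N 6 F ^ 2 ≤ C ^ 2 := pow_le_pow_left₀ (N_nonneg 6 F) hC 2
  have h3 : (A.card : ℝ) * δ ^ 2 ≤ ∑ t ∈ A, ((⟨t, l, r⟩ : Seg D).v F) ^ 2 := by
    rw [← nsmul_eq_mul, ← Finset.sum_const]
    refine Finset.sum_le_sum fun t ht => ?_
    have h4 : (⟨t, l, r⟩ : Seg D).v F = tot t F := (tot_eq_segv t l r F hF).symm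
    rw [h4, ← sq_abs (tot t F)]
    exact pow_le_pow_left₀ hδ.le (hb t ht) 2
  linarith

end

/-! ### the two claims -/

theorem lemB_claim1 (D : Design) {l r : ℕ} {F : D.toPreDesign.V}
    (hF : ∀ s, F s ≠ 0 → l < s.1 ∧ s.1 ≤ r) {C δ : ℝ} (hC : N 6 F ≤ C) (hδ : 0 < δ) :
    ∃ (α : Fin ⌊C ^ 2 / δ ^ 2⌋₊ → D.toPreDesign.Br)
      (β : (Fin 6 → Fin ⌊C ^ 2 / δ ^ 2⌋₊) → D.toPreDesign.Ln), ∀ t : D.toPreDesign.Br,
        δ ≤ |tot t F| → (∃ i, ∀ k < l, t k = α i k) ∨ ∃ q, In (β q) l t := by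
  classical
  set M := ⌊C ^ 2 / δ ^ 2⌋₊ with hM
  set Q : Finset D.toPreDesign.Br → Prop := fun A => (∀ t ∈ A, δ ≤ |tot t F|) ∧
    (∀ t ∈ A, ∀ t' ∈ A, t ≠ t' → ∃ k < l, t k ≠ t' k) ∧
    ∀ h : D.toPreDesign.Ln, (A.filter fun t => Exits h (⟨t, l, r⟩ : Seg D.toPreDesign)).card ≤ 6
    with hQ
  have hQM : ∀ A, Q A → A.card ≤ M := by
    rintro A ⟨h1, h2, h3⟩
    refine lemB_card hF hC hδ A h1 ⟨fun t ht t' ht' hne => lemB_disj (h2 t ht t' ht' hne),
      fun h => ?_⟩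
    have h4 := h3 h
    have h5 : ((6 : ℕ) : ℕ∞) = 6 := rfl
    rw [← h5]
    exact Nat.cast_le.2 (by convert h4)
  obtain ⟨A, ⟨hA1, hA2, hA3⟩, hmax⟩ := lemB_max Q M
    ⟨fun t ht => absurd ht (Finset.notMem_empty t), fun t ht => absurd ht (Finset.notMem_empty t),
      fun h => by simp⟩ hQM
  obtain ⟨α, hα⟩ := lemB_enum A M (hQM A ⟨hA1, hA2, hA3⟩)
  set β : (Fin 6 → Fin M) → D.toPreDesign.Ln := fun q =>
    if h : ∃ h : D.toPreDesign.Ln, ∀ i, In h l (α (q i)) then h.choose else default with hβ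
  refine ⟨α, β, fun t ht => ?_⟩
  by_cases hcase : ∃ t' ∈ A, ∀ k < l, t k = t' k
  · left
    obtain ⟨t', ht', h1⟩ := hcase
    obtain ⟨i, rfl⟩ := hα t' ht'
    exact ⟨i, h1⟩
  · right
    push Not at hcase
    have htA : t ∉ A := fun h => by
      obtain ⟨k, _, h2⟩ := hcase t h
      exact h2 rfl
    have hnQ := hmax t htA
    have hexit : ∃ h : D.toPreDesign.Ln, 6 < ((insert t A).filter
        fun t => Exits h (⟨t, l, r⟩ : Seg D.toPreDesign)).card := by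
      by_contra hno
      push Not at hno
      apply hnQ
      refine ⟨fun t' ht' => ?_, fun t1 h1 t2 h2 hne => ?_, hno⟩
      · rcases Finset.mem_insert.1 ht' with rfl | h
        · exact ht
        · exact hA1 t' h
      · rcases Finset.mem_insert.1 h1 with rfl | h1'
        · rcases Finset.mem_insert.1 h2 with rfl | h2'
          · exact absurd rfl hne
          · exact hcase t2 h2'
        · rcases Finset.mem_insert.1 h2 with rfl | h2'
          · obtain ⟨k, hk, hk'⟩ := hcase t1 h1'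
            exact ⟨k, hk, fun h => hk' h.symm⟩
          · exact hA2 t1 h1' t2 h2' hne
    obtain ⟨h, hh⟩ := hexit
    have h3 := hA3 h
    rw [Finset.filter_insert] at hh
    split_ifs at hh with hEx
    · have h4 : 6 ≤ (A.filter fun t => Exits h (⟨t, l, r⟩ : Seg D.toPreDesign)).card := by
        have := Finset.card_insert_le t
          (A.filter fun t => Exits h (⟨t, l, r⟩ : Seg D.toPreDesign))
        omega
      obtain ⟨e, he, heE⟩ := lemB_six _ h4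
      have heA : ∀ i, e i ∈ A := fun i => (Finset.mem_filter.1 (heE i)).1
      choose q hq using fun i => hα (e i) (heA i)
      have hIn : ∀ i, In h l (α (q i)) := by
        intro i
        rw [hq i]
        obtain ⟨m, hm1, _, hm3, _⟩ := (Finset.mem_filter.1 (heE i)).2
        exact In_mono hm1 hm3
      have hex : ∃ h : D.toPreDesign.Ln, ∀ i, In h l (α (q i)) := ⟨h, hIn⟩
      have hβq : ∀ i, In (β q) l (α (q i)) := by
        have h5 : β q = hex.choose := by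
          simp only [hβ]
          rw [dif_pos hex]
        rw [h5]
        exact hex.choose_spec
      have h6 := D.t1 l h (β q) (fun i => α (q i)) (fun i j hij => by
        simp only [hq]
        exact hA2 _ (heA i) _ (heA j) (fun h7 => hij (he h7))) hIn hβq
      refine ⟨q, In_congr_line h6 ?_⟩
      obtain ⟨m, hm1, _, hm3, _⟩ := hEx
      exact In_mono hm1 hm3
    · omega

theorem lemB_claim2 (D : Design) {l r : ℕ} {F : D.toPreDesign.V}
    (hF : ∀ s, F s ≠ 0 → l < s.1 ∧ s.1 ≤ r) {C δ : ℝ} (hC : N 6 F ≤ C) (hδ : 0 < δ)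
    (h0 : D.toPreDesign.Ln) :
    ∃ α : Fin ⌊C ^ 2 / δ ^ 2⌋₊ → D.toPreDesign.Br, ∀ t : D.toPreDesign.Br,
        δ ≤ |tot t F| → In h0 r t → ∃ j, ∀ k < l, t k = α j k := by
  classical
  set M := ⌊C ^ 2 / δ ^ 2⌋₊ with hM
  set Q : Finset D.toPreDesign.Br → Prop := fun A => (∀ t ∈ A, δ ≤ |tot t F|) ∧
    (∀ t ∈ A, In h0 r t) ∧ (∀ t ∈ A, ∀ t' ∈ A, t ≠ t' → ∃ k < l, t k ≠ t' k)
    with hQ
  have hQM : ∀ A, Q A → A.card ≤ M := by
    rintro A ⟨h1, h2, h3⟩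
    refine lemB_card hF hC hδ A h1 ⟨fun t ht t' ht' hne => lemB_disj (h3 t ht t' ht' hne),
      fun h => ?_⟩
    have h4 : (A.filter fun t => Exits h (⟨t, l, r⟩ : Seg D.toPreDesign)).card ≤ 6 := by
      by_contra hlt
      push Not at hlt
      set E := A.filter fun t => Exits h (⟨t, l, r⟩ : Seg D.toPreDesign) with hE
      have hEne : E.Nonempty := Finset.card_pos.1 (by omega)
      have hex : ∀ t ∈ E, ∃ m, l ≤ m ∧ m < r ∧ In h m t ∧ ¬ InU h m t := fun t ht =>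
        (Finset.mem_filter.1 ht).2
      -- the exit level
      choose! ex hex1 using hex
      obtain ⟨t0, ht0, hmin⟩ := Finset.exists_min_image E ex hEne
      obtain ⟨e, he, heE⟩ := lemB_six E (by omega)
      have hEA : ∀ t ∈ E, t ∈ A := fun t ht => (Finset.mem_filter.1 ht).1
      set m := ex t0 with hm
      obtain ⟨hm1, hm2, hm3, hm4⟩ := hex1 t0 ht0
      have h6 := D.t1 m h h0 e (fun i j hij => by
        obtain ⟨k, hk, hk'⟩ := h3 _ (hEA _ (heE i)) _ (hEA _ (heE j)) (fun h7 => hij (he h7))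
        exact ⟨k, hk.trans_le hm1, hk'⟩)
        (fun i => In_mono (hmin _ (heE i)) (hex1 _ (heE i)).2.2.1)
        (fun i => In_mono hm2.le (h2 _ (hEA _ (heE i))))
      apply hm4
      refine ⟨hm3, ?_⟩
      have h7 := (h2 t0 (hEA _ ht0) m hm2).2
      rw [h7]
      exact D.val_congr m h0 h _ _ _ (fun k hk => (h6 k hk).symm) fun _ _ => rfl
    have h5 : ((6 : ℕ) : ℕ∞) = 6 := rfl
    rw [← h5]
    exact Nat.cast_le.2 (by convert h4)
  obtain ⟨A, ⟨hA1, hA2, hA3⟩, hmax⟩ := lemB_max Q M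
    ⟨fun t ht => absurd ht (Finset.notMem_empty t), fun t ht => absurd ht (Finset.notMem_empty t),
      fun t ht => absurd ht (Finset.notMem_empty t)⟩ hQM
  obtain ⟨α, hα⟩ := lemB_enum A M (hQM A ⟨hA1, hA2, hA3⟩)
  refine ⟨α, fun t ht htI => ?_⟩
  by_contra hno
  push Not at hno
  have hcase : ∀ t' ∈ A, ∃ k < l, t k ≠ t' k := by
    intro t' ht'
    obtain ⟨i, rfl⟩ := hα t' ht'
    exact hno i
  have htA : t ∉ A := fun h => by
    obtain ⟨k, _, h2⟩ := hcase t h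
    exact h2 rfl
  apply hmax t htA
  refine ⟨fun t' ht' => ?_, fun t' ht' => ?_, fun t1 h1 t2 h2 hne => ?_⟩
  · rcases Finset.mem_insert.1 ht' with rfl | h
    · exact ht
    · exact hA1 t' h
  · rcases Finset.mem_insert.1 ht' with rfl | h
    · exact htI
    · exact hA2 t' h
  · rcases Finset.mem_insert.1 h1 with rfl | h1'
    · rcases Finset.mem_insert.1 h2 with rfl | h2'
      · exact absurd rfl hne
      · exact hcase t2 h2'
    · rcases Finset.mem_insert.1 h2 with rfl | h2'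
      · obtain ⟨k, hk, hk'⟩ := hcase t1 h1'
        exact ⟨k, hk, fun h => hk' h.symm⟩
      · exact hA3 t1 h1' t2 h2' hne

/-- selection of the last subsequence -/
theorem lemB_select (g : ℕ → ℕ) (n0 : ℕ) :
    ∃ ψ : ℕ → ℕ, StrictMono ψ ∧ (∀ n, n0 ≤ ψ n) ∧ ∀ a b, a < b → g (ψ a) ≤ ψ b := by
  set G : ℕ → ℕ := fun m => max (m + 1) (g m) with hG
  have hs : ∀ n, G^[n + 1] n0 = G (G^[n] n0) := fun n => Function.iterate_succ_apply' G n n0
  have hm : StrictMono fun n => G^[n] n0 := by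
    apply strictMono_nat_of_lt_succ
    intro n
    rw [hs]
    have := le_max_left (G^[n] n0 + 1) (g (G^[n] n0))
    simp only [hG] at this ⊢
    omega
  refine ⟨fun n => G^[n] n0, hm, fun n => ?_, fun a b hab => ?_⟩
  · exact hm.monotone (Nat.zero_le n)
  · have h1 : G^[a + 1] n0 ≤ G^[b] n0 := hm.monotone hab
    rw [hs] at h1
    exact (le_max_right _ _).trans h1

theorem lemmaB (D : Design) (f : ℕ → D.toPreDesign.V) (l r : ℕ → ℕ) (hlr : ∀ n, l n < r n)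
    (hrl : ∀ n, r n ≤ l (n + 1)) (hf : ∀ n s, f n s ≠ 0 → l n < s.1 ∧ s.1 ≤ r n)
    (C : ℝ) (hC : ∀ n, N 6 (f n) ≤ C) (δ : ℝ) (hδ : 0 < δ) :
    ∃ φ : ℕ → ℕ, StrictMono φ ∧ ∀ (n1 n1' n2 n2' n3 n3' : ℕ), n1 < n1' → n1' < n2 → n2 < n2' →
      n2' < n3 → n3 < n3' → ∀ t : D.toPreDesign.Br,
        |tot t (f (φ n1') - f (φ n1))| < 2 * δ ∨ |tot t (f (φ n2') - f (φ n2))| < 2 * δ ∨
          |tot t (f (φ n3') - f (φ n3))| < 2 * δ := by
  classical
  have hC0 : 0 ≤ C := (N_nonneg 6 (f 0)).trans (hC 0)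
  set M := ⌊C ^ 2 / δ ^ 2⌋₊ with hM
  have hrmono : ∀ m n, m ≤ n → r m ≤ r n := by
    intro m n hmn
    rcases hmn.lt_or_eq with h | rfl
    · exact (lemB_level_mono hlr hrl h).trans (hlr n).le
    · exact le_rfl
  choose α β hαβ using fun n => lemB_claim1 D (hf n) (hC n) hδ
  -- first extraction
  obtain ⟨a, φ1, hφ1, ha⟩ := lemB_extract
    (T := fun k => (Fin M → D.toPreDesign.Io k) × ((Fin 6 → Fin M) → D.A k))
    (fun n k => (fun i => α n i k, fun q => β n q k))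
  set t1 : Fin M → D.toPreDesign.Br := fun i k => (a k).1 i with ht1
  set h1 : (Fin 6 → Fin M) → D.toPreDesign.Ln := fun q k => (a k).2 q with hh1
  choose α' hα' using fun n q => lemB_claim2 D (hf n) (hC n) hδ (h1 q)
  -- second extraction
  obtain ⟨a2, φ2, hφ2, ha2⟩ := lemB_extract
    (T := fun k => (Fin 6 → Fin M) → Fin M → D.toPreDesign.Io k)
    (fun n k => fun q j => α' (φ1 n) q j k)
  set t2 : (Fin 6 → Fin M) → Fin M → D.toPreDesign.Br := fun q j k => a2 k q j with ht2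
  -- third extraction
  set S : (Fin M ⊕ ((Fin 6 → Fin M) × Fin M)) → D.toPreDesign.Br :=
    Sum.elim t1 (fun p => t2 p.1 p.2) with hS
  obtain ⟨a3, -, φ3, hφ3, ha3⟩ := tendsto_subseq_of_bounded
    (s := Metric.closedBall (0 : (Fin M ⊕ ((Fin 6 → Fin M) × Fin M)) → ℝ) C)
    Metric.isBounded_closedBall
    (x := fun n s => tot (S s) (f (φ1 (φ2 n)))) (fun n => by
      rw [mem_closedBall_zero_iff, pi_norm_le_iff_of_nonneg hC0]
      intro s
      exact (abs_tot_le 6 (by norm_num) (S s) _).trans (hC _))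
  obtain ⟨n3, hn3⟩ := Filter.eventually_atTop.1
    (ha3.eventually (Metric.ball_mem_nhds a3 hδ))
  set φ' : ℕ → ℕ := fun n => φ1 (φ2 (φ3 n)) with hφ'
  have hφ'm : StrictMono φ' := hφ1.comp (hφ2.comp hφ3)
  choose g1 hg1 using ha
  choose g2 hg2 using ha2
  obtain ⟨ψ, hψ, hψ0, hψg⟩ := lemB_select (fun m => max (g1 (r (φ' m))) (g2 (r (φ' m)))) n3
  have hφm : StrictMono fun n => φ' (ψ n) := hφ'm.comp hψ
  refine ⟨fun n => φ' (ψ n), hφm, ?_⟩
  -- agreement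
  have hag1 : ∀ x y, x < y → ∀ k < r (φ' (ψ x)),
      (∀ i, α (φ' (ψ y)) i k = t1 i k) ∧ ∀ q, β (φ' (ψ y)) q k = h1 q k := by
    intro x y hxy k hk
    have h2 : g1 (r (φ' (ψ x))) ≤ φ2 (φ3 (ψ y)) :=
      ((le_max_left _ _).trans (hψg x y hxy)).trans (hφ3.le_apply.trans hφ2.le_apply)
    have h3 := hg1 (r (φ' (ψ x))) (φ2 (φ3 (ψ y))) h2 k hk
    refine ⟨fun i => ?_, fun q => ?_⟩
    · exact congrFun (congrArg Prod.fst h3) i
    · exact congrFun (congrArg Prod.snd h3) q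
  have hag2 : ∀ x y, x < y → ∀ k < r (φ' (ψ x)), ∀ q j, α' (φ' (ψ y)) q j k = t2 q j k := by
    intro x y hxy k hk q j
    have h2 : g2 (r (φ' (ψ x))) ≤ φ3 (ψ y) :=
      ((le_max_right _ _).trans (hψg x y hxy)).trans hφ3.le_apply
    have h3 := hg2 (r (φ' (ψ x))) (φ3 (ψ y)) h2 k hk
    exact congrFun (congrFun h3 q) j
  have hosc : ∀ (s) (x y : ℕ),
      |tot (S s) (f (φ' (ψ y))) - tot (S s) (f (φ' (ψ x)))| < 2 * δ := by
    intro s x y
    have h2 := hn3 (ψ x) (hψ0 x)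
    have h3 := hn3 (ψ y) (hψ0 y)
    have h4 := (dist_le_pi_dist _ _ s).trans_lt h2
    have h5 := (dist_le_pi_dist _ _ s).trans_lt h3
    rw [Real.dist_eq] at h4 h5
    have h6 : |tot (S s) (f (φ' (ψ x))) - a3 s| < δ := h4
    have h7 : |tot (S s) (f (φ' (ψ y))) - a3 s| < δ := h5
    rw [abs_lt] at h6 h7 ⊢
    constructor <;> linarith
  have hosc2 : ∀ (s) (t : D.toPreDesign.Br) (x y : ℕ), x ≤ y →
      (∀ k < r (φ' (ψ y)), t k = S s k) →
      |tot t (f (φ' (ψ y)) - f (φ' (ψ x)))| < 2 * δ := by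
    intro s t x y hxy hk
    rw [map_sub, lemB_tot_congr (hf _) hk, lemB_tot_congr (hf _) (t' := S s)
      (fun k hk' => hk k (hk'.trans_le (hrmono _ _ (hφm.monotone hxy))))]
    exact hosc s x y
  have hbig : ∀ (t : D.toPreDesign.Br) (x y : ℕ), x < y →
      ¬ |tot t (f (φ' (ψ y)) - f (φ' (ψ x)))| < 2 * δ →
      ∃ z, x ≤ z ∧ z ≤ y ∧ δ ≤ |tot t (f (φ' (ψ z)))| := by
    intro t x y hxy h2
    by_contra hno
    push Not at hno
    apply h2
    have h3 := hno x le_rfl hxy.le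
    have h4 := hno y hxy.le le_rfl
    rw [map_sub]
    rw [abs_lt] at h3 h4 ⊢
    constructor <;> linarith
  intro n1 n1' n2 n2' n3 n3' k1 k2 k3 k4 k5 t
  by_contra hno
  rw [not_or, not_or] at hno
  obtain ⟨hc1, hc2, hc3⟩ := hno
  obtain ⟨m3, hm3, -, hb3⟩ := hbig t n3 n3' k5 hc3
  obtain ⟨m2, hm2, hm2', hb2⟩ := hbig t n2 n2' k3 hc2
  have hlt3 : n2' < m3 := by omega
  have hlt2 : n1' < m2 := by omega
  have hlev3 : r (φ' (ψ n2')) ≤ l (φ' (ψ m3)) := lemB_level_mono hlr hrl (hφm hlt3)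
  have hlev2 : r (φ' (ψ n1')) ≤ l (φ' (ψ m2)) := lemB_level_mono hlr hrl (hφm hlt2)
  rcases hαβ (φ' (ψ m3)) t hb3 with ⟨i, hi⟩ | ⟨q, hq⟩
  · apply hc2
    refine hosc2 (Sum.inl i) t n2 n2' k3.le fun k hk => ?_
    rw [hi k (hk.trans_le hlev3)]
    exact (hag1 n2' m3 hlt3 k hk).1 i
  · have hI : In (h1 q) (r (φ' (ψ n2'))) t :=
      In_congr_line (fun k hk => (hag1 n2' m3 hlt3 k hk).2 q) (In_mono hlev3 hq)
    have hI2 : In (h1 q) (r (φ' (ψ m2))) t :=
      In_mono (hrmono _ _ (hφm.monotone hm2')) hI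
    obtain ⟨j, hj⟩ := hα' (φ' (ψ m2)) q t hb2 hI2
    apply hc1
    refine hosc2 (Sum.inr (q, j)) t n1 n1' k1.le fun k hk => ?_
    rw [hj k (hk.trans_le hlev2)]
    exact hag2 n1' m2 hlt2 k hk q j

end Pool.Agent.L1F
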