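import Pool.Agent.Work.MP_3dfed9_an.Defs

/-!
# MP_3dfed9_an : API of the tree norms `N κ`
-/

set_option autoImplicit false

namespace Pool.Agent.L1F

open Finset

namespace PreDesign

variable {D : PreDesign}

theorem nd_eq_iff {t t' : D.Br} {m m' : ℕ} :
    nd t m = nd t' m' ↔ m = m' ∧ ∀ k < m, t k = t' k := by
  constructor
  · intro h
    have h1 : m = m' := congrArg Sigma.fst h
    subst h1
    refine ⟨rfl, fun k hk => ?_⟩
    have h2 : (fun k : Fin m => t k) = (fun k : Fin m => t' k) := by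
      simpa [nd] using h
    exact congrFun h2 ⟨k, hk⟩
  · rintro ⟨rfl, h⟩
    unfold nd
    congr 1
    funext k
    exact h k k.2

theorem nd_fst (t : D.Br) (m : ℕ) : (nd t m).1 = m := rfl

open scoped Classical in
/-- disjoint segments: sums over them are bounded by the sum over all nodes -/
theorem key_sum {ι : Type} (S : Finset ι) (I : ι → Seg D)
    (hd : ∀ i ∈ S, ∀ j ∈ S, i ≠ j → Disj (I i) (I j)) (g : D.Node → ℝ) (hg : ∀ s, 0 ≤ g s)
    (T : Finset D.Node) (hT : ∀ s, s ∉ T → g s = 0) :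
    ∑ i ∈ S, ∑ m ∈ Finset.Ioc (I i).a (I i).b, g (nd (I i).t m) ≤ ∑ s ∈ T, g s := by
  rw [Finset.sum_sigma']
  have hinj : Set.InjOn (fun p : (_ : ι) × ℕ => nd (I p.1).t p.2)
      ((S.sigma fun i => Finset.Ioc (I i).a (I i).b) : Finset ((_ : ι) × ℕ)) := by
    rintro ⟨i, m⟩ hi ⟨j, m'⟩ hj h
    simp only [Finset.coe_sigma, Set.mem_sigma_iff, Finset.mem_coe] at hi hj
    simp only at h
    have h1 : m = m' := congrArg Sigma.fst h
    subst h1
    by_cases hij : i = j
    · subst hij; rfl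
    · exact absurd h (hd i hi.1 j hj.1 hij m hi.2 hj.2)
  have h1 := Finset.sum_image (f := g) hinj
  rw [← h1]
  have h2 : ∑ s ∈ ((S.sigma fun i => Finset.Ioc (I i).a (I i).b).image
      (fun p : (_ : ι) × ℕ => nd (I p.1).t p.2)), g s =
      ∑ s ∈ ((S.sigma fun i => Finset.Ioc (I i).a (I i).b).image
      (fun p : (_ : ι) × ℕ => nd (I p.1).t p.2)).filter (fun s => s ∈ T), g s := by
    rw [Finset.sum_filter_of_ne]
    intro s _ hs
    by_contra hn
    exact hs (hT s hn)
  rw [h2]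
  apply Finset.sum_le_sum_of_subset_of_nonneg
  · intro s hs
    exact (Finset.mem_filter.1 hs).2
  · intro s _ _
    exact hg s

theorem key_abs {ι : Type} (S : Finset ι) (I : ι → Seg D)
    (hd : ∀ i ∈ S, ∀ j ∈ S, i ≠ j → Disj (I i) (I j)) (f : D.V) :
    ∑ i ∈ S, |(I i).v f| ≤ ∑ s ∈ f.support, |f s| := by
  refine le_trans (Finset.sum_le_sum fun i _ => ?_)
    (key_sum S I hd (fun s => |f s|) (fun s => abs_nonneg _) f.support ?_)
  · unfold Seg.v segv
    exact Finset.abs_sum_le_sum_abs _ _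
  · intro s hs
    rw [Finsupp.notMem_support_iff.1 hs, abs_zero]

theorem key_sq {ι : Type} (S : Finset ι) (I : ι → Seg D)
    (hd : ∀ i ∈ S, ∀ j ∈ S, i ≠ j → Disj (I i) (I j)) (f : D.V) :
    ∑ i ∈ S, ((I i).v f) ^ 2 ≤ (∑ s ∈ f.support, |f s|) ^ 2 := by
  have h1 : ∑ i ∈ S, ((I i).v f) ^ 2 ≤ (∑ i ∈ S, |(I i).v f|) ^ 2 := by
    have h0 : ∀ i ∈ S, ((I i).v f) ^ 2 ≤ |(I i).v f| * ∑ j ∈ S, |(I j).v f| := by
      intro i hi
      rw [← sq_abs, sq]
      exact mul_le_mul_of_nonneg_left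
        (Finset.single_le_sum (f := fun j => |(I j).v f|) (fun j _ => abs_nonneg _) hi)
        (abs_nonneg _)
    refine (Finset.sum_le_sum h0).trans (le_of_eq ?_)
    rw [← Finset.sum_mul, sq]
  exact h1.trans (pow_le_pow_left₀ (Finset.sum_nonneg fun i _ => abs_nonneg _)
    (key_abs S I hd f) 2)

theorem N_bdd (κ : ℕ∞) (f : D.V) :
    BddAbove {r : ℝ | ∃ (S : Finset ℕ) (I : ℕ → Seg D), Allowed κ S I ∧
      r = Real.sqrt (∑ i ∈ S, ((I i).v f) ^ 2)} := by
  refine ⟨∑ s ∈ f.support, |f s|, ?_⟩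
  rintro r ⟨S, I, hA, rfl⟩
  exact Real.sqrt_le_iff.2 ⟨Finset.sum_nonneg fun i _ => abs_nonneg _, key_sq S I hA.1 f⟩

/-- the segment of length zero -/
def seg0 : Seg D := ⟨fun _ => default, 0, 0⟩

theorem allowed_empty {ι : Type} (κ : ℕ∞) (I : ι → Seg D) : Allowed κ (∅ : Finset ι) I := by
  constructor
  · intro i hi
    simp at hi
  · intro h
    simp

theorem le_N (κ : ℕ∞) (S : Finset ℕ) (I : ℕ → Seg D) (h : Allowed κ S I) (f : D.V) :
    Real.sqrt (∑ i ∈ S, ((I i).v f) ^ 2) ≤ N κ f :=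
  le_csSup (N_bdd κ f) ⟨S, I, h, rfl⟩

theorem N_nonneg (κ : ℕ∞) (f : D.V) : 0 ≤ N κ f := by
  have := le_N κ ∅ (fun _ => seg0) (allowed_empty κ _) f
  simpa using this

/-- for every finite family (any index type) allowed for `κ` -/
theorem sq_sum_le {ι : Type} (κ : ℕ∞) (S : Finset ι) (I : ι → Seg D) (h : Allowed κ S I)
    (f : D.V) : ∑ i ∈ S, ((I i).v f) ^ 2 ≤ N κ f ^ 2 := by
  classical
  rcases S.eq_empty_or_nonempty with hS | ⟨i0, hi0⟩
  · subst hS
    simp only [Finset.sum_empty]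
    positivity
  · set n := S.card with hn
    let ψ : ℕ → ι := fun k => if hk : k < n then (S.equivFin.symm ⟨k, hk⟩).1 else i0
    have hψmem : ∀ k ∈ Finset.range n, ψ k ∈ S := by
      intro k hk
      have hk' : k < n := Finset.mem_range.1 hk
      simp only [ψ, hk', dif_pos]
      exact (S.equivFin.symm ⟨k, hk'⟩).2
    have hψinj : ∀ k ∈ Finset.range n, ∀ k' ∈ Finset.range n, ψ k = ψ k' → k = k' := by
      intro k hk k' hk' he
      have h1 : k < n := Finset.mem_range.1 hk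
      have h2 : k' < n := Finset.mem_range.1 hk'
      simp only [ψ, h1, h2, dif_pos] at he
      have h3 := Subtype.ext he
      have h4 := S.equivFin.symm.injective h3
      simpa using h4
    have hψsurj : ∀ i ∈ S, ∃ k ∈ Finset.range n, ψ k = i := by
      intro i hi
      refine ⟨(S.equivFin ⟨i, hi⟩).1, Finset.mem_range.2 (S.equivFin ⟨i, hi⟩).2, ?_⟩
      have h1 : ((S.equivFin ⟨i, hi⟩) : ℕ) < n := (S.equivFin ⟨i, hi⟩).2
      simp only [ψ, h1, dif_pos, Fin.eta, Equiv.symm_apply_apply]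
    have hA : Allowed κ (Finset.range n) (fun k => I (ψ k)) := by
      constructor
      · intro k hk k' hk' hne
        exact h.1 _ (hψmem k hk) _ (hψmem k' hk') (fun he => hne (hψinj k hk k' hk' he))
      · intro hl
        refine le_trans ?_ (h.2 hl)
        have : ((Finset.range n).filter (fun k => Exits hl (I (ψ k)))).card ≤
            (S.filter (fun i => Exits hl (I i))).card := by
          apply Finset.card_le_card_of_injOn ψ
          · intro k hk
            simp only [Finset.coe_filter, Set.mem_ofPred_eq] at hk ⊢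
            exact ⟨hψmem k hk.1, hk.2⟩
          · intro k hk k' hk' he
            simp only [Finset.coe_filter, Set.mem_ofPred_eq] at hk hk'
            exact hψinj k hk.1 k' hk'.1 he
        exact_mod_cast this
    have hsum : ∑ i ∈ S, ((I i).v f) ^ 2 = ∑ k ∈ Finset.range n, ((I (ψ k)).v f) ^ 2 := by
      symm
      exact Finset.sum_bij (fun k _ => ψ k) hψmem (fun k hk k' hk' he => hψinj k hk k' hk' he)
        (fun i hi => by
          obtain ⟨k, hk, he⟩ := hψsurj i hi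
          exact ⟨k, hk, he⟩) (fun k _ => rfl)
    rw [hsum]
    have h1 := le_N κ _ _ hA f
    have h2 : 0 ≤ ∑ k ∈ Finset.range n, ((I (ψ k)).v f) ^ 2 :=
      Finset.sum_nonneg fun k _ => sq_nonneg _
    calc ∑ k ∈ Finset.range n, ((I (ψ k)).v f) ^ 2
        = Real.sqrt (∑ k ∈ Finset.range n, ((I (ψ k)).v f) ^ 2) ^ 2 := (Real.sq_sqrt h2).symm
      _ ≤ N κ f ^ 2 := pow_le_pow_left₀ (Real.sqrt_nonneg _) h1 2

theorem N_le (κ : ℕ∞) (f : D.V) (C : ℝ) (hC : 0 ≤ C)
    (h : ∀ (S : Finset ℕ) (I : ℕ → Seg D), Allowed κ S I → ∑ i ∈ S, ((I i).v f) ^ 2 ≤ C ^ 2) :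
    N κ f ≤ C := by
  unfold N
  apply csSup_le
  · exact ⟨Real.sqrt (∑ i ∈ (∅ : Finset ℕ), ((seg0 : Seg D).v f) ^ 2), ∅, fun _ => seg0,
      allowed_empty κ _, rfl⟩
  rintro r ⟨S, I, hA, rfl⟩
  exact Real.sqrt_le_iff.2 ⟨hC, h S I hA⟩

theorem segv_add (t : D.Br) (a b : ℕ) (f g : D.V) :
    segv t a b (f + g) = segv t a b f + segv t a b g := by
  unfold segv
  rw [← Finset.sum_add_distrib]
  rfl

theorem segv_smul (t : D.Br) (a b : ℕ) (c : ℝ) (f : D.V) :
    segv t a b (c • f) = c * segv t a b f := by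
  unfold segv
  rw [Finset.mul_sum]
  rfl

theorem segv_zero (t : D.Br) (a b : ℕ) : segv t a b (0 : D.V) = 0 := by
  unfold segv
  simp

theorem segv_sum {ι : Type} (t : D.Br) (a b : ℕ) (S : Finset ι) (f : ι → D.V) :
    segv t a b (∑ i ∈ S, f i) = ∑ i ∈ S, segv t a b (f i) := by
  classical
  induction S using Finset.induction_on with
  | empty => simp only [Finset.sum_empty]; exact segv_zero t a b
  | insert i S hi ih => rw [Finset.sum_insert hi, Finset.sum_insert hi, segv_add, ih]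

theorem N_zero (κ : ℕ∞) : N κ (0 : D.V) = 0 := by
  apply le_antisymm _ (N_nonneg κ 0)
  apply N_le κ 0 0 le_rfl
  intro S I _
  apply le_of_eq
  rw [Finset.sum_eq_zero]
  · norm_num
  · intro i _
    unfold Seg.v
    rw [segv_zero]
    norm_num

theorem N_add_le (κ : ℕ∞) (f g : D.V) : N κ (f + g) ≤ N κ f + N κ g := by
  apply N_le κ _ _ (add_nonneg (N_nonneg κ f) (N_nonneg κ g))
  intro S I hA
  have hf := sq_sum_le κ S I hA f
  have hg := sq_sum_le κ S I hA g
  have hcs := Finset.sum_mul_sq_le_sq_mul_sq S (fun i => (I i).v f) (fun i => (I i).v g)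
  have h1 : ∑ i ∈ S, ((I i).v (f + g)) ^ 2 =
      ∑ i ∈ S, ((I i).v f) ^ 2 + 2 * ∑ i ∈ S, (I i).v f * (I i).v g +
        ∑ i ∈ S, ((I i).v g) ^ 2 := by
    rw [Finset.mul_sum, ← Finset.sum_add_distrib, ← Finset.sum_add_distrib]
    refine Finset.sum_congr rfl fun i _ => ?_
    unfold Seg.v
    rw [segv_add]
    ring
  have h2 : (∑ i ∈ S, (I i).v f * (I i).v g) ≤ N κ f * N κ g := by
    apply le_of_sq_le_sq' (mul_nonneg (N_nonneg κ f) (N_nonneg κ g))
    rw [mul_pow]
    exact hcs.trans (mul_le_mul hf hg (Finset.sum_nonneg fun i _ => sq_nonneg _) (sq_nonneg _))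
  rw [h1]
  nlinarith
where
  le_of_sq_le_sq' {x y : ℝ} (hy : 0 ≤ y) (h : x ^ 2 ≤ y ^ 2) : x ≤ y :=
    (le_abs_self x).trans (abs_le_of_sq_le_sq h hy)

theorem N_smul_le (κ : ℕ∞) (a : ℝ) (f : D.V) : N κ (a • f) ≤ |a| * N κ f := by
  apply N_le κ _ _ (mul_nonneg (abs_nonneg a) (N_nonneg κ f))
  intro S I hA
  have hf := sq_sum_le κ S I hA f
  have h1 : ∑ i ∈ S, ((I i).v (a • f)) ^ 2 = a ^ 2 * ∑ i ∈ S, ((I i).v f) ^ 2 := by
    rw [Finset.mul_sum]
    refine Finset.sum_congr rfl fun i _ => ?_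
    unfold Seg.v
    rw [segv_smul, mul_pow]
  rw [h1, mul_pow, sq_abs]
  exact mul_le_mul_of_nonneg_left hf (sq_nonneg a)

theorem N_smul (κ : ℕ∞) (a : ℝ) (f : D.V) : N κ (a • f) = |a| * N κ f := by
  apply le_antisymm (N_smul_le κ a f)
  by_cases ha : a = 0
  · subst ha
    simp [N_zero]
  · have h1 := N_smul_le κ a⁻¹ (a • f)
    rw [smul_smul, inv_mul_cancel₀ ha, one_smul, abs_inv] at h1
    have h2 : 0 < |a| := abs_pos.2 ha
    calc |a| * N κ f ≤ |a| * (|a|⁻¹ * N κ (a • f)) := mul_le_mul_of_nonneg_left h1 h2.le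
      _ = N κ (a • f) := by rw [← mul_assoc, mul_inv_cancel₀ h2.ne', one_mul]

theorem N_neg (κ : ℕ∞) (f : D.V) : N κ (-f) = N κ f := by
  have h := N_smul κ (-1) f
  simpa using h

theorem N_sum_le {ι : Type} (κ : ℕ∞) (S : Finset ι) (f : ι → D.V) :
    N κ (∑ i ∈ S, f i) ≤ ∑ i ∈ S, N κ (f i) := by
  classical
  induction S using Finset.induction_on with
  | empty => simp only [Finset.sum_empty]; exact (N_zero κ).le
  | insert i S hi ih =>
    rw [Finset.sum_insert hi, Finset.sum_insert hi]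
    exact (N_add_le κ _ _).trans (add_le_add le_rfl ih)

theorem segv_congr (t : D.Br) (a b : ℕ) (f g : D.V) (h : ∀ s : D.Node, 0 < s.1 → f s = g s) :
    segv t a b f = segv t a b g := by
  unfold segv
  refine Finset.sum_congr rfl fun m hm => h _ ?_
  rw [nd_fst]
  have := (Finset.mem_Ioc.1 hm).1
  omega

/-- the root coordinate is not seen by the norms -/
theorem N_congr (κ : ℕ∞) (f g : D.V) (h : ∀ s : D.Node, 0 < s.1 → f s = g s) : N κ f = N κ g := by
  have h1 : ∀ f g : D.V, (∀ s : D.Node, 0 < s.1 → f s = g s) → N κ f ≤ N κ g := by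
    intro f g h
    apply N_le κ _ _ (N_nonneg κ g)
    intro S I hA
    have hg := sq_sum_le κ S I hA g
    refine le_trans (le_of_eq (Finset.sum_congr rfl fun i _ => ?_)) hg
    unfold Seg.v
    rw [segv_congr _ _ _ f g h]
  exact le_antisymm (h1 f g h) (h1 g f fun s hs => (h s hs).symm)

theorem N_mono {κ κ' : ℕ∞} (h : κ ≤ κ') (f : D.V) : N κ f ≤ N κ' f := by
  apply N_le κ _ _ (N_nonneg κ' f)
  intro S I hA
  exact sq_sum_le κ' S I ⟨hA.1, fun hl => (hA.2 hl).trans h⟩ f

theorem abs_segv_le (κ : ℕ∞) (hκ : 1 ≤ κ) (t : D.Br) (a b : ℕ) (f : D.V) :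
    |segv t a b f| ≤ N κ f := by
  classical
  have hA : Allowed κ ({0} : Finset ℕ) (fun _ => (⟨t, a, b⟩ : Seg D)) := by
    constructor
    · intro i hi j hj hne
      simp only [Finset.mem_singleton] at hi hj
      exact absurd (hi.trans hj.symm) hne
    · intro h
      refine le_trans ?_ hκ
      have : (({0} : Finset ℕ).filter (fun _ => Exits h (⟨t, a, b⟩ : Seg D))).card ≤ 1 :=
        (Finset.card_filter_le _ _).trans (by simp)
      exact_mod_cast this
  have h1 := sq_sum_le κ _ _ hA f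
  simp only [Finset.sum_singleton] at h1
  exact abs_le_of_sq_le_sq h1 (N_nonneg κ f)

/-- a segment functional on a vector supported in levels `(l, r]` -/
theorem segv_block (t : D.Br) (a b l r : ℕ) (f : D.V) (hf : ∀ s, f s ≠ 0 → l < s.1 ∧ s.1 ≤ r) :
    segv t a b f = segv t (max a l) (min b r) f := by
  unfold segv
  symm
  apply Finset.sum_subset
  · intro m hm
    simp only [Finset.mem_Ioc, max_lt_iff, le_min_iff] at hm ⊢
    exact ⟨hm.1.1, hm.2.1⟩
  · intro m hm hn
    by_contra hne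
    have h1 := hf _ hne
    rw [nd_fst] at h1
    apply hn
    simp only [Finset.mem_Ioc, max_lt_iff, le_min_iff] at hm ⊢
    exact ⟨⟨hm.1, h1.1⟩, ⟨hm.2, h1.2⟩⟩

theorem tot_eq_segv_zero (t : D.Br) (b : ℕ) (f : D.V) (hf : ∀ s, f s ≠ 0 → s.1 ≤ b) :
    tot t f = segv t 0 b f := by
  classical
  unfold tot segv
  rw [Finsupp.linearCombination_apply, Finsupp.sum]
  have hinj : Set.InjOn (fun m => nd t m) (Finset.Ioc 0 b : Finset ℕ) := by
    intro m _ m' _ h
    exact congrArg Sigma.fst h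
  rw [← Finset.sum_image (f := fun s => f s) hinj]
  have h1 : ∀ s : D.Node, (f s) • (if 0 < s.1 ∧ s = nd t s.1 then (1 : ℝ) else 0) =
      if 0 < s.1 ∧ s = nd t s.1 then f s else 0 := by
    intro s
    split_ifs <;> simp
  rw [Finset.sum_congr rfl fun s _ => h1 s, ← Finset.sum_filter]
  apply Finset.sum_subset
  · intro s hs
    simp only [Finset.mem_filter, Finsupp.mem_support_iff] at hs
    rw [Finset.mem_image]
    exact ⟨s.1, Finset.mem_Ioc.2 ⟨hs.2.1, hf s hs.1⟩, hs.2.2.symm⟩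
  · intro s hs hn
    rw [Finset.mem_image] at hs
    obtain ⟨m, hm, rfl⟩ := hs
    by_contra hne
    apply hn
    simp only [Finset.mem_filter, Finsupp.mem_support_iff]
    exact ⟨hne, (Finset.mem_Ioc.1 hm).1, rfl⟩

theorem tot_eq_segv (t : D.Br) (l r : ℕ) (f : D.V) (hf : ∀ s, f s ≠ 0 → l < s.1 ∧ s.1 ≤ r) :
    tot t f = segv t l r f := by
  rw [tot_eq_segv_zero t r f fun s hs => (hf s hs).2, segv_block t 0 r l r f hf]
  simp

theorem tot_bv (t : D.Br) (s : D.Node) [Decidable (0 < s.1 ∧ s = nd t s.1)] :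
    tot t (bv s) = if 0 < s.1 ∧ s = nd t s.1 then 1 else 0 := by
  classical
  unfold tot bv
  rw [Finsupp.linearCombination_single, one_smul]
  congr

theorem abs_tot_le (κ : ℕ∞) (hκ : 1 ≤ κ) (t : D.Br) (f : D.V) : |tot t f| ≤ N κ f := by
  rw [tot_eq_segv_zero t (f.support.sup fun s => s.1) f ?_]
  · exact abs_segv_le κ hκ t _ _ f
  · intro s hs
    exact Finset.le_sup (f := fun s : D.Node => s.1) (Finsupp.mem_support_iff.2 hs)

theorem N_le_sum (κ : ℕ∞) (f : D.V) : N κ f ≤ ∑ s ∈ f.support, |f s| := by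
  apply N_le κ _ _ (Finset.sum_nonneg fun s _ => abs_nonneg _)
  intro S I hA
  exact key_sq S I hA.1 f

theorem N_bv_le (κ : ℕ∞) (s : D.Node) : N κ (bv s) ≤ 1 := by
  refine (N_le_sum κ (bv s)).trans ?_
  unfold bv
  rw [Finsupp.support_single _ one_ne_zero]
  simp

theorem segv_res (t : D.Br) (a b l r : ℕ) (f : D.V) :
    segv t a b (res l r f) = segv t (max a l) (min b r) f := by
  classical
  have h0 : ∀ s : D.Node, res l r f s ≠ 0 → l < s.1 ∧ s.1 ≤ r := by
    intro s hs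
    by_contra hn
    apply hs
    unfold res
    exact Finsupp.filter_apply_neg _ _ hn
  rw [segv_block t a b l r _ h0]
  unfold segv
  refine Finset.sum_congr rfl fun m hm => ?_
  unfold res
  apply Finsupp.filter_apply_pos (p := fun s : D.Node => l < s.1 ∧ s.1 ≤ r)
  rw [nd_fst]
  simp only [Finset.mem_Ioc, max_lt_iff, le_min_iff] at hm
  exact ⟨hm.1.2, hm.2.2⟩

theorem N_res_le (κ : ℕ∞) (l r : ℕ) (f : D.V) : N κ (res l r f) ≤ N κ f := by
  classical
  apply N_le κ _ _ (N_nonneg κ f)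
  intro S I hA
  have hA' : Allowed κ S (fun i => (⟨(I i).t, max (I i).a l, min (I i).b r⟩ : Seg D)) := by
    constructor
    · intro i hi j hj hne m hm hm'
      simp only [Finset.mem_Ioc, max_lt_iff, le_min_iff] at hm hm'
      exact hA.1 i hi j hj hne m (Finset.mem_Ioc.2 ⟨hm.1.1, hm.2.1⟩)
        (Finset.mem_Ioc.2 ⟨hm'.1.1, hm'.2.1⟩)
    · intro h
      refine le_trans ?_ (hA.2 h)
      have : (S.filter (fun i => Exits h
          (⟨(I i).t, max (I i).a l, min (I i).b r⟩ : Seg D))).card ≤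
          (S.filter (fun i => Exits h (I i))).card := by
        apply Finset.card_le_card
        intro i hi
        simp only [Finset.mem_filter] at hi ⊢
        refine ⟨hi.1, ?_⟩
        obtain ⟨m, h1, h2, h3, h4⟩ := hi.2
        simp only [max_le_iff] at h1
        simp only [lt_min_iff] at h2
        exact ⟨m, h1.1, h2.1, h3, h4⟩
      exact_mod_cast this
  have h1 := sq_sum_le κ S _ hA' f
  refine le_trans (le_of_eq (Finset.sum_congr rfl fun i _ => ?_)) h1
  unfold Seg.v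
  rw [segv_res]

/-- on one level the norm is at most the `ℓ₂` norm -/
theorem N_level (κ : ℕ∞) (m : ℕ) (f : D.V) (hf : ∀ s, f s ≠ 0 → s.1 = m) :
    N κ f ≤ Real.sqrt (∑ s ∈ f.support, f s ^ 2) := by
  classical
  apply N_le κ _ _ (Real.sqrt_nonneg _)
  intro S I hA
  rw [Real.sq_sqrt (Finset.sum_nonneg fun s _ => sq_nonneg _)]
  refine le_trans (le_of_eq (Finset.sum_congr rfl fun i _ => ?_))
    (key_sum S I hA.1 (fun s => f s ^ 2) (fun s => sq_nonneg _) f.support ?_)
  · unfold Seg.v segv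
    have h0 : ∀ k, k ≠ m → f (nd (I i).t k) = 0 := by
      intro k hk
      by_contra hne
      exact hk (hf _ hne)
    by_cases hm : m ∈ Finset.Ioc (I i).a (I i).b
    · rw [Finset.sum_eq_single_of_mem m hm fun k _ hk => h0 k hk,
        Finset.sum_eq_single_of_mem m hm fun k _ hk => by rw [h0 k hk]; norm_num]
    · rw [Finset.sum_eq_zero, Finset.sum_eq_zero]
      · norm_num
      · intro k hk
        rw [h0 k fun he => hm (he ▸ hk)]
        norm_num
      · intro k hk
        exact h0 k fun he => hm (he ▸ hk)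
  · intro s hs
    rw [Finsupp.notMem_support_iff.1 hs]
    norm_num

end PreDesign

end Pool.Agent.L1F
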