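import Pool.Agent.Work.MP_3dfed9_an.ZLem
import Pool.Agent.Work.MP_3dfed9_an.FA
import Pool.Agent.Work.MP_3dfed9_an.L1

/-!
# MP_3dfed9_an : superspaces with a basis contain `ℓ₁` (section 8)
-/

set_option autoImplicit false

namespace Pool.Agent.L1F

open Finset PreDesign Filter Topology

/-- Hahn-Banach: functionals of `X` transported along an embedding -/
theorem exists_transport {X Y : Type} [NormedAddCommGroup X] [NormedSpace ℝ X]
    [NormedAddCommGroup Y] [NormedSpace ℝ Y] (J : X →L[ℝ] Y) (c : ℝ) (hc : 0 < c)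
    (hJ : ∀ x, c * ‖x‖ ≤ ‖J x‖) (q : X →L[ℝ] ℝ) (hq : ‖q‖ ≤ 2) :
    ∃ w : Y →L[ℝ] ℝ, ‖w‖ ≤ 2 / c ∧ ∀ x, w (J x) = q x := by
  have hinj : Function.Injective J.toLinearMap := by
    rw [← LinearMap.ker_eq_bot, LinearMap.ker_eq_bot']
    intro x hx
    have h1 := hJ x
    have h2 : J x = 0 := hx
    rw [h2, norm_zero] at h1
    have h3 : ‖x‖ ≤ 0 := by
      by_contra h
      push Not at h
      have := mul_pos hc h
      linarith
    exact norm_le_zero_iff.mp h3
  let Je := LinearEquiv.ofInjective J.toLinearMap hinj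
  let f0 : LinearMap.range J.toLinearMap →ₗ[ℝ] ℝ := q.toLinearMap ∘ₗ Je.symm.toLinearMap
  have hf0 : ∀ y, ‖f0 y‖ ≤ 2 / c * ‖y‖ := by
    intro y
    obtain ⟨x, rfl⟩ := Je.surjective y
    have h1 : f0 (Je x) = q x := by simp [f0]
    have h2 : ‖Je x‖ = ‖J x‖ := rfl
    rw [h1, h2]
    have h3 : ‖q x‖ ≤ 2 * ‖x‖ := (q.le_opNorm x).trans (by gcongr)
    have h4 : ‖x‖ ≤ ‖J x‖ / c := by
      rw [le_div_iff₀ hc]; linarith [hJ x]
    calc ‖q x‖ ≤ 2 * ‖x‖ := h3
      _ ≤ 2 * (‖J x‖ / c) := by gcongr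
      _ = 2 / c * ‖J x‖ := by ring
  obtain ⟨w, hw1, hw2⟩ := exists_extension_norm_eq (LinearMap.range J.toLinearMap)
    (f0.mkContinuous (2 / c) hf0)
  refine ⟨w, ?_, ?_⟩
  · rw [hw2]
    exact LinearMap.mkContinuous_norm_le _ (by positivity) _
  · intro x
    have h1 := hw1 (Je x)
    have h2 : ((Je x : LinearMap.range J.toLinearMap) : Y) = J x := rfl
    rw [h2] at h1
    rw [h1]
    change f0 (Je x) = q x
    simp [f0]

theorem contains_l1 (D : Design) {X Y : Type} [NormedAddCommGroup X] [NormedSpace ℝ X]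
    [CompleteSpace X] [NormedAddCommGroup Y] [NormedSpace ℝ Y] [CompleteSpace Y]
    (B : D.toPreDesign.V →ₗ[ℝ] X) (hG : Good D X B) (J : X →L[ℝ] Y) (c : ℝ) (hc : 0 < c)
    (hJ : ∀ x, c * ‖x‖ ≤ ‖J x‖) (φ : ℕ → (X →L[ℝ] ℝ)) (e : ℕ → Y)
    (hT : ∀ x, Tendsto (fun n => ∑ i ∈ Finset.range n, φ i x • e i) atTop (𝓝 (J x))) :
    ∃ (T : lp (fun _ : ℕ => ℝ) 1 →L[ℝ] Y) (c : ℝ), 0 < c ∧ ∀ x, c * ‖x‖ ≤ ‖T x‖ := by
  classical
  -- the operators
  set T : ℕ → (X →L[ℝ] Y) := fun n => ∑ i ∈ Finset.range n, (φ i).smulRight (e i) with hTdef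
  have hTapp : ∀ n x, T n x = ∑ i ∈ Finset.range n, φ i x • e i := by
    intro n x
    simp [hTdef, ContinuousLinearMap.sum_apply]
  have hT' : ∀ x, Tendsto (fun n => T n x) atTop (𝓝 (J x)) := by
    intro x
    simpa only [hTapp] using hT x
  obtain ⟨CT, hCT⟩ : ∃ C', ∀ n, ‖T n‖ ≤ C' := by
    apply banach_steinhaus
    intro x
    obtain ⟨C, hC⟩ := (hT' x).norm.bddAbove_range
    exact ⟨C, fun n => hC ⟨n, rfl⟩⟩
  have hCT0 : 0 ≤ CT := (norm_nonneg _).trans (hCT 0)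
  have hTB : ∀ n f, ‖T n (B f)‖ ≤ CT * N ⊤ f := fun n f =>
    ((T n).le_opNorm _).trans (mul_le_mul (hCT n) (hG.b2 f) (norm_nonneg _) hCT0)
  -- the functionals
  have hw : ∀ t : D.toPreDesign.Br, ∃ w : Y →L[ℝ] ℝ, ‖w‖ ≤ 2 / c ∧
      ∀ f, w (J (B f)) = tot t f := by
    intro t
    obtain ⟨q, hq1, hq2⟩ := hG.b3 t
    obtain ⟨w, hw1, hw2⟩ := exists_transport J c hc hJ q hq1
    exact ⟨w, hw1, fun f => by rw [hw2, hq2]⟩
  choose w hw1 hw2 using hw
  set Cw : ℝ := 2 / c with hCw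
  have hCw0 : 0 < Cw := by positivity
  set η : ℝ := 1 / (16 * (1 + Cw)) with hη
  have hη0 : 0 < η := by positivity
  have hF5 : ∀ n, ∃ n', ∀ s : D.toPreDesign.Node, s.1 = n →
      ‖T n' (B (bv s)) - J (B (bv s))‖ ≤ η / (1 + Cw) := fun n =>
    F5 D B J T hT' n _ (by positivity)
  choose Nn hNn using hF5
  have hF4 : ∀ n, ∃ m1, n < m1 ∧ ∀ M ≥ m1, avg (A := D.A) M (fun h x =>
      ‖∑ i ∈ Finset.range (Nn n), φ i (B (bv (nd (tb h x) m1))) • e i‖) ≤ η := fun n =>
    F4 D B hG.b2 φ e (Nn n) n η hη0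
  choose m1 hm1 hF4' using hF4
  -- the composed functionals
  let Φ : ℕ → D.toPreDesign.Br → (D.toPreDesign.V →ₗ[ℝ] ℝ) := fun n t =>
    (w t).toLinearMap ∘ₗ ((T (Nn n)).toLinearMap ∘ₗ B)
  have hΦ : ∀ n t f, Φ n t f = w t (T (Nn n) (B f)) := fun n t f => rfl
  let G : ℕ → ℕ → D.toPreDesign.Ln → (ℕ → Bool) → ℝ := fun n M h x =>
    ∑ k ∈ Finset.Ico n (m1 n), brk (Φ n (trunc M (tb h x))) h k (tb h x)
  -- choice of `n0`
  obtain ⟨n0, hn0⟩ : ∃ n0 : ℕ, ∀ n ≥ n0, Cw * CT * (8 / 2 ^ n) ≤ 1 / 16 := by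
    have h1 : Tendsto (fun n : ℕ => Cw * CT * (8 / 2 ^ n)) atTop (𝓝 0) := by
      have h2 : Tendsto (fun n : ℕ => (Cw * CT * 8) * (1 / 2 : ℝ) ^ n) atTop
          (𝓝 ((Cw * CT * 8) * 0)) :=
        (tendsto_pow_atTop_nhds_zero_of_lt_one (by norm_num) (by norm_num)).const_mul _
      rw [mul_zero] at h2
      refine h2.congr fun n => ?_
      rw [one_div, inv_pow]
      ring
    have h3 := h1.eventually (gt_mem_nhds (show (0 : ℝ) < 1 / 16 by norm_num))
    obtain ⟨n0, hn0⟩ := eventually_atTop.mp h3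
    exact ⟨n0, fun n hn => (hn0 n hn).le⟩
  set n1 : ℕ := max n0 2 with hn1
  -- expectation of `G`
  have hEG : ∀ n ≥ n1, ∀ M ≥ m1 n, (3 / 4 : ℝ) ≤ avg (A := D.A) M (G n M) := by
    intro n hn M hM
    have h1 := EG D ((T (Nn n)).toLinearMap ∘ₗ B) CT hCT0 (fun f => hTB (Nn n) f) w Cw hCw0.le
      hw1 n (m1 n) M (le_trans (le_max_right _ _) hn) (hm1 n) hM η ?_ ?_
    · have h2 := hn0 n (le_trans (le_max_left _ _) hn)
      have h3 : η + Cw * η = 1 / 16 := by
        rw [hη]; field_simp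
      have h4 : 1 - η - Cw * η - Cw * CT * (8 / 2 ^ n) ≤ avg (A := D.A) M (G n M) := h1
      linarith
    · intro t
      have h2 : w (trunc M t) (J (B (bv (nd t n)))) = 1 := by
        rw [hw2, tot_bv, if_pos]
        refine ⟨?_, ?_⟩
        · change 0 < n
          have := le_trans (le_max_right n0 2) hn
          omega
        · change nd t n = nd (trunc M t) n
          rw [nd_eq_iff]
          refine ⟨rfl, fun k hk => ?_⟩
          have h3 : k < M := by have := hm1 n; omega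
          simp [trunc, h3]
      have h3 : |w (trunc M t) (T (Nn n) (B (bv (nd t n)))) -
          w (trunc M t) (J (B (bv (nd t n))))| ≤ η := by
        rw [← map_sub]
        refine ((w (trunc M t)).le_opNorm _).trans ?_
        calc ‖w (trunc M t)‖ * ‖T (Nn n) (B (bv (nd t n))) - J (B (bv (nd t n)))‖
            ≤ Cw * (η / (1 + Cw)) :=
              mul_le_mul (hw1 _) (hNn n _ rfl) (norm_nonneg _) hCw0.le
          _ ≤ η := by
              rw [← mul_div_assoc, div_le_iff₀ (by positivity)]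
              nlinarith
      rw [h2] at h3
      have h4 := (abs_le.mp h3).1
      change 1 - η ≤ w (trunc M t) (T (Nn n) (B (bv (nd t n))))
      linarith
    · have h2 := hF4' n M hM
      refine le_trans (le_of_eq ?_) h2
      congr 1
      funext h x
      change ‖T (Nn n) (B (bv (nd (tb h x) (m1 n))))‖ = _
      rw [hTapp]
  -- upper bound of `G`
  set Γ : ℝ := Cw * (CT * 3) with hΓ
  have hΓ0 : 0 ≤ Γ := by positivity
  have hGle : ∀ n ≥ n1, ∀ M h x, G n M h x ≤ Γ := by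
    intro n hn M h x
    have h1 := brk_sum_le D (Φ n (trunc M (tb h x))) h x n (m1 n) (fun _ => 1)
      (fun _ => Or.inl rfl) (fun _ _ _ => rfl)
    refine h1.trans ?_
    rw [one_mul, hΦ]
    refine (le_abs_self _).trans ?_
    refine ((w _).le_opNorm _).trans ?_
    refine mul_le_mul (hw1 _) ?_ (norm_nonneg _) hCw0.le
    refine ((T (Nn n)).le_opNorm _).trans ?_
    refine mul_le_mul (hCT _) ?_ (norm_nonneg _) hCT0
    exact hG.b4 h n (m1 n) _ (by have := le_trans (le_max_right n0 2) hn; omega) (by simp)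
  -- the events
  let P : ℕ → ℕ → D.toPreDesign.Ln → (ℕ → Bool) → Prop := fun n M h x => 1 / 4 ≤ G n M h x
  have hPdens : ∀ n ≥ n1, ∃ M0, ∀ M ≥ M0, 1 / (2 * (Γ + 1)) ≤
      avg (A := D.A) M (fun h x => if P n M h x then 1 else 0) := by
    intro n hn
    refine ⟨m1 n, fun M hM => ?_⟩
    have h1 := hEG n hn M hM
    have h2 : avg (A := D.A) M (G n M) ≤ avg (A := D.A) M (fun h x =>
        1 / 4 + (Γ + 1) * (if P n M h x then 1 else 0)) := by
      apply avg_mono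
      intro h x
      by_cases hP : P n M h x
      · rw [if_pos hP]
        have := hGle n hn M h x
        linarith
      · rw [if_neg hP]
        have : G n M h x < 1 / 4 := not_le.mp hP
        linarith
    rw [avg_add, avg_const, avg_smul] at h2
    rw [div_le_iff₀ (by positivity)]
    nlinarith
  obtain ⟨ν, h, ε, hν, hνn, hεc, hfa⟩ := fa (A := D.A) P m1 (1 / (2 * (Γ + 1))) (by positivity) n1
    hPdens
  -- the vectors
  let ε' : ℕ → (ℕ → Bool) → ℝ := fun j x => if ε j x then 1 else -1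
  have hε'1 : ∀ j x, ε' j x = 1 ∨ ε' j x = -1 := by
    intro j x
    by_cases h1 : ε j x = true
    · left; simp [ε', h1]
    · right; simp [ε', h1]
  have hε'c : ∀ j x x', (∀ k < ν j, x k = x' k) → ε' j x = ε' j x' := by
    intro j x x' hx
    simp only [ε', hεc j x x' hx]
  let u : ℕ → Y := fun j => T (Nn (ν j)) (B (Xv h (ν j) (m1 (ν j)) (ε' j)))
  have hn2 : ∀ j, 2 ≤ ν j := fun j => le_trans (le_max_right n0 2) (hνn j)
  have hu : ∀ j, ‖u j‖ ≤ CT * 3 := by
    intro j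
    refine ((T (Nn (ν j))).le_opNorm _).trans ?_
    refine mul_le_mul (hCT _) ?_ (norm_nonneg _) hCT0
    refine hG.b4 h _ _ _ (by have := hn2 j; omega) ?_
    intro x
    rcases hε'1 j x with h1 | h1 <;> rw [h1] <;> simp
  refine l1_of_lower u (CT * 3) hu (1 / (4 * Cw)) (by positivity) ?_
  intro Jn a
  obtain ⟨M, -, h', x, hx⟩ := hfa Jn (fun j => decide (0 ≤ a j)) 0
  set W := w (trunc M (tb h' x)) with hW
  have key : ∀ j < Jn, 1 / 4 * |a j| ≤ a j * W (u j) := by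
    intro j hj
    obtain ⟨h1, h2, h3⟩ := hx j hj
    have h4 := brk_sum_le D (Φ (ν j) (trunc M (tb h' x))) h' x (ν j) (m1 (ν j)) (ε' j)
      (hε'1 j) (hε'c j)
    rw [Xv_congr (ν j) (m1 (ν j)) (ε' j) h1] at h4
    have h5 : (1 / 4 : ℝ) ≤ ε' j x * W (u j) := le_trans h2 h4
    have h6 : a j = |a j| * ε' j x := by
      by_cases ha : 0 ≤ a j
      · have : ε j x = true := by rw [h3]; exact decide_eq_true ha
        simp [ε', this, abs_of_nonneg ha]
      · have : ε j x = false := by rw [h3]; exact decide_eq_false ha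
        simp [ε', this, abs_of_neg (not_le.mp ha)]
    calc 1 / 4 * |a j| ≤ (ε' j x * W (u j)) * |a j| :=
          mul_le_mul_of_nonneg_right h5 (abs_nonneg _)
      _ = (|a j| * ε' j x) * W (u j) := by ring
      _ = a j * W (u j) := by rw [← h6]
  have h7 : 1 / 4 * ∑ j ∈ Finset.range Jn, |a j| ≤ W (∑ j ∈ Finset.range Jn, a j • u j) := by
    rw [map_sum, Finset.mul_sum]
    refine Finset.sum_le_sum fun j hj => ?_
    rw [map_smul, smul_eq_mul]
    exact key j (Finset.mem_range.mp hj)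
  have h8 : W (∑ j ∈ Finset.range Jn, a j • u j) ≤ Cw * ‖∑ j ∈ Finset.range Jn, a j • u j‖ :=
    (le_abs_self _).trans ((W.le_opNorm _).trans (mul_le_mul_of_nonneg_right (hw1 _)
      (norm_nonneg _)))
  have h9 : 1 / (4 * Cw) * ∑ j ∈ Finset.range Jn, |a j| =
      (1 / 4 * ∑ j ∈ Finset.range Jn, |a j|) / Cw := by
    field_simp
  rw [h9, div_le_iff₀ hCw0]
  linarith

end Pool.Agent.L1F
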