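import Pool.Agent.Work.MP_3dfed9_an.LemmaB

/-!
# MP_3dfed9_an : combinations with small supremum over segments (section 3c)
-/

set_option autoImplicit false

namespace Pool.Agent.L1F

open Finset PreDesign

theorem smallSup_level_mono {l r : ℕ → ℕ} (hlr : ∀ n, l n < r n) (hrl : ∀ n, r n ≤ l (n + 1))
    {m n : ℕ} (h : m < n) : r m ≤ l n := by
  induction n, h using Nat.le_induction with
  | base => exact hrl m
  | succ n _ ih => exact ih.trans ((hlr n).le.trans (hrl n))

theorem smallSup_sum_pairs {E : Type} [AddCommMonoid E] (F : ℕ → E) (N : ℕ) :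
    ∑ j ∈ Finset.range (2 * N), F j = ∑ i ∈ Finset.range N, (F (2 * i) + F (2 * i + 1)) := by
  induction N with
  | zero => simp
  | succ N ih =>
    rw [show 2 * (N + 1) = 2 * N + 1 + 1 by ring, Finset.sum_range_succ, Finset.sum_range_succ,
      Finset.sum_range_succ, ih, add_assoc]

section

variable (D : Design) (g : ℕ → D.toPreDesign.V) (L R : ℕ → ℕ) (hLR : ∀ n, L n < R n)
  (hRL : ∀ n, R n ≤ L (n + 1)) (hg : ∀ n s, g n s ≠ 0 → L n < s.1 ∧ s.1 ≤ R n)

include hLR hRL hg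

theorem smallSup_supp (i : ℕ) (s : D.toPreDesign.Node) (hs : (g (2 * i + 1) - g (2 * i)) s ≠ 0) :
    L (2 * i) < s.1 ∧ s.1 ≤ R (2 * i + 1) := by
  have h1 := hLR (2 * i)
  have h2 := hRL (2 * i)
  have h3 := hLR (2 * i + 1)
  by_cases h : g (2 * i + 1) s = 0
  · have h' : g (2 * i) s ≠ 0 := by
      intro h0
      apply hs
      rw [Finsupp.sub_apply, h, h0, sub_zero]
    have := hg _ _ h'
    omega
  · have := hg _ _ h
    omega

/-- the estimate for one segment -/
theorem smallSup_pairs (C : ℝ) (hC : ∀ n, N 6 (g n) ≤ C) (δ : ℝ) (hδ : 0 < δ)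
    (hst : ∀ (n1 n1' n2 n2' n3 n3' : ℕ), n1 < n1' → n1' < n2 → n2 < n2' →
      n2' < n3 → n3 < n3' → ∀ t : D.toPreDesign.Br,
        |tot t (g n1' - g n1)| < 2 * δ ∨ |tot t (g n2' - g n2)| < 2 * δ ∨
          |tot t (g n3' - g n3)| < 2 * δ) (K : ℕ) (t : D.toPreDesign.Br) (p q : ℕ) :
    |∑ i ∈ Finset.range K, segv t p q (g (2 * i + 1) - g (2 * i))| ≤ 8 * C + K * (2 * δ) := by
  classical
  have hC0 : 0 ≤ C := (N_nonneg 6 (g 0)).trans (hC 0)
  have hsup := smallSup_supp D g L R hLR hRL hg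
  have hd : ∀ i, |segv t p q (g (2 * i + 1) - g (2 * i))| ≤ 2 * C := by
    intro i
    refine (abs_segv_le 6 (by norm_num) t p q _).trans ?_
    rw [sub_eq_add_neg]
    refine (N_add_le 6 _ _).trans ?_
    rw [N_neg]
    linarith [hC (2 * i + 1), hC (2 * i)]
  -- the four bad indices
  set B1 := (Finset.range K).filter (fun i => L (2 * i) < p ∧ p < R (2 * i + 1)) with hB1
  set B2 := (Finset.range K).filter (fun i => L (2 * i) < q ∧ q < R (2 * i + 1)) with hB2
  set B3 := (Finset.range K).filter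
    (fun i => 2 * δ ≤ |tot t (g (2 * i + 1) - g (2 * i))|) with hB3
  have hone : ∀ x : ℕ, ((Finset.range K).filter
      (fun i => L (2 * i) < x ∧ x < R (2 * i + 1))).card ≤ 1 := by
    intro x
    rw [Finset.card_le_one]
    have key : ∀ i j, i < j → L (2 * i) < x ∧ x < R (2 * i + 1) →
        L (2 * j) < x ∧ x < R (2 * j + 1) → False := by
      intro i j hij hi hj
      have := smallSup_level_mono hLR hRL (show 2 * i + 1 < 2 * j by omega)
      omega
    intro i hi j hj
    have hi' := (Finset.mem_filter.1 hi).2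
    have hj' := (Finset.mem_filter.1 hj).2
    rcases lt_trichotomy i j with h | h | h
    · exact (key i j h hi' hj').elim
    · exact h
    · exact (key j i h hj' hi').elim
  have h3 : B3.card ≤ 2 := by
    by_contra hlt
    push Not at hlt
    obtain ⟨a, ha, b, hb, c, hc, hab, hac, hbc⟩ := Finset.two_lt_card.1 hlt
    have ha' := (Finset.mem_filter.1 ha).2
    have hb' := (Finset.mem_filter.1 hb).2
    have hc' := (Finset.mem_filter.1 hc).2
    have key : ∀ i j k : ℕ, i < j → j < k → 2 * δ ≤ |tot t (g (2 * i + 1) - g (2 * i))| →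
        2 * δ ≤ |tot t (g (2 * j + 1) - g (2 * j))| →
        2 * δ ≤ |tot t (g (2 * k + 1) - g (2 * k))| → False := by
      intro i j k hij hjk hi hj hk
      rcases hst (2 * i) (2 * i + 1) (2 * j) (2 * j + 1) (2 * k) (2 * k + 1) (by omega) (by omega)
        (by omega) (by omega) (by omega) t with h | h | h <;> linarith
    rcases lt_or_gt_of_ne hab with h1 | h1 <;> rcases lt_or_gt_of_ne hac with h2 | h2 <;>
      rcases lt_or_gt_of_ne hbc with h3 | h3
    · exact key a b c h1 h3 ha' hb' hc'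
    · exact key a c b h2 h3 ha' hc' hb'
    · omega
    · exact key c a b h2 h1 hc' ha' hb'
    · exact key b a c h1 h2 hb' ha' hc'
    · omega
    · exact key b c a h3 h2 hb' hc' ha'
    · exact key c b a h3 h1 hc' hb' ha'
  have hcard : (B1 ∪ B2 ∪ B3).card ≤ 4 := by
    have h1 := Finset.card_union_le (B1 ∪ B2) B3
    have h2 := Finset.card_union_le B1 B2
    have h4 : B1.card ≤ 1 := hone p
    have h5 : B2.card ≤ 1 := hone q
    omega
  have hsub : B1 ∪ B2 ∪ B3 ⊆ Finset.range K := by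
    intro i hi
    simp only [hB1, hB2, hB3, Finset.mem_union, Finset.mem_filter] at hi
    tauto
  have hterm : ∀ i ∈ Finset.range K, |segv t p q (g (2 * i + 1) - g (2 * i))| ≤
      2 * δ + if i ∈ B1 ∪ B2 ∪ B3 then 2 * C else 0 := by
    intro i hi
    split_ifs with hB
    · linarith [hd i]
    · rw [add_zero]
      simp only [hB1, hB2, hB3, Finset.mem_union, Finset.mem_filter, hi, true_and, not_or,
        not_and, not_lt, not_le] at hB
      obtain ⟨⟨hb1, hb2⟩, hb3⟩ := hB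
      rw [segv_block t p q (L (2 * i)) (R (2 * i + 1)) _ (hsup i)]
      by_cases hz : R (2 * i + 1) ≤ p ∨ q ≤ L (2 * i)
      · have h1 : Finset.Ioc (max p (L (2 * i))) (min q (R (2 * i + 1))) = ∅ := by
          rw [Finset.Ioc_eq_empty_iff]
          rcases hz with h | h
          · have := le_max_left p (L (2 * i))
            have := min_le_right q (R (2 * i + 1))
            omega
          · have := le_max_right p (L (2 * i))
            have := min_le_left q (R (2 * i + 1))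
            omega
        unfold segv
        rw [h1, Finset.sum_empty, abs_zero]
        positivity
      · push Not at hz
        have hp : p ≤ L (2 * i) := by
          by_contra h
          push Not at h
          have := hb1 h
          omega
        have hq : R (2 * i + 1) ≤ q := hb2 hz.2
        rw [max_eq_right hp, min_eq_right hq, ← tot_eq_segv t _ _ _ (hsup i)]
        exact hb3.le
  calc |∑ i ∈ Finset.range K, segv t p q (g (2 * i + 1) - g (2 * i))|
      ≤ ∑ i ∈ Finset.range K, |segv t p q (g (2 * i + 1) - g (2 * i))| :=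
        Finset.abs_sum_le_sum_abs _ _
    _ ≤ ∑ i ∈ Finset.range K, (2 * δ + if i ∈ B1 ∪ B2 ∪ B3 then 2 * C else 0) :=
        Finset.sum_le_sum hterm
    _ = K * (2 * δ) + (B1 ∪ B2 ∪ B3).card * (2 * C) := by
        rw [Finset.sum_add_distrib, Finset.sum_const, Finset.card_range, nsmul_eq_mul,
          ← Finset.sum_filter, Finset.sum_const, nsmul_eq_mul, Finset.filter_mem_eq_inter,
          Finset.inter_eq_right.2 hsub]
    _ ≤ K * (2 * δ) + 4 * (2 * C) := by
        have h1 : ((B1 ∪ B2 ∪ B3).card : ℝ) ≤ 4 := by exact_mod_cast hcard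
        have h2 : (0 : ℝ) ≤ 2 * C := by linarith
        have := mul_le_mul_of_nonneg_right h1 h2
        linarith
    _ = 8 * C + K * (2 * δ) := by ring

end

theorem smallSup (D : Design) (y f : ℕ → D.toPreDesign.V) (l r : ℕ → ℕ) (hlr : ∀ n, l n < r n)
    (hrl : ∀ n, r n ≤ l (n + 1)) (hy : ∀ n s, y n s ≠ 0 → l n < s.1 ∧ s.1 ≤ r n)
    (hf : ∀ n s, f n s ≠ 0 → l n < s.1 ∧ s.1 ≤ r n)
    (C : ℝ) (hCy : ∀ n, N ⊤ (y n) ≤ C) (hCf : ∀ n, N 6 (f n) ≤ C) (δ : ℝ) (hδ : 0 < δ) (n0 : ℕ) :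
    ∃ (S : Finset ℕ) (a : ℕ → ℝ), (∀ n ∈ S, n0 ≤ n) ∧ ∑ n ∈ S, |a n| = 2 ∧
      ∀ (t : D.toPreDesign.Br) (p q : ℕ), |segv t p q (∑ n ∈ S, a n • y n)| ≤ δ ∧
        |segv t p q (∑ n ∈ S, a n • f n)| ≤ δ := by
  classical
  have hC0 : 0 ≤ C := (N_nonneg 6 (f 0)).trans (hCf 0)
  have hCy' : ∀ n, N 6 (y n) ≤ C := fun n => (N_mono le_top (y n)).trans (hCy n)
  have hδ4 : 0 < δ / 4 := by positivity
  obtain ⟨φ1, hφ1, h1⟩ := lemmaB D y l r hlr hrl hy C hCy' (δ / 4) hδ4
  obtain ⟨φ2, hφ2, h2⟩ := lemmaB D (fun n => f (φ1 n)) (fun n => l (φ1 n)) (fun n => r (φ1 n))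
    (fun n => hlr _) (fun n => smallSup_level_mono hlr hrl (hφ1 (Nat.lt_succ_self n)))
    (fun n s => hf _ s) C (fun n => hCf _) (δ / 4) hδ4
  -- the shifted subsequence
  set ψ : ℕ → ℕ := fun n => φ1 (φ2 (2 * n0 + n)) with hψ
  have hψm : StrictMono ψ := by
    intro a b hab
    exact hφ1 (hφ2 (by omega))
  have hψn : ∀ n, n0 ≤ ψ n := by
    intro n
    have h3 := hφ2.le_apply (x := 2 * n0 + n)
    have h4 := hφ1.le_apply (x := φ2 (2 * n0 + n))
    simp only [hψ]
    omega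
  have hst : ∀ u : ℕ → D.toPreDesign.V, (u = y ∨ u = f) →
      ∀ (n1 n1' n2 n2' n3 n3' : ℕ), n1 < n1' → n1' < n2 → n2 < n2' →
      n2' < n3 → n3 < n3' → ∀ t : D.toPreDesign.Br,
        |tot t (u (ψ n1') - u (ψ n1))| < 2 * (δ / 4) ∨ |tot t (u (ψ n2') - u (ψ n2))| < 2 * (δ / 4) ∨
          |tot t (u (ψ n3') - u (ψ n3))| < 2 * (δ / 4) := by
    intro u hu n1 n1' n2 n2' n3 n3' k1 k2 k3 k4 k5 t
    rcases hu with rfl | rfl
    · exact h1 (φ2 (2 * n0 + n1)) (φ2 (2 * n0 + n1')) (φ2 (2 * n0 + n2)) (φ2 (2 * n0 + n2'))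
        (φ2 (2 * n0 + n3)) (φ2 (2 * n0 + n3')) (hφ2 (by omega)) (hφ2 (by omega)) (hφ2 (by omega))
        (hφ2 (by omega)) (hφ2 (by omega)) t
    · exact h2 (2 * n0 + n1) (2 * n0 + n1') (2 * n0 + n2) (2 * n0 + n2') (2 * n0 + n3)
        (2 * n0 + n3') (by omega) (by omega) (by omega) (by omega) (by omega) t
  -- the number of pairs
  obtain ⟨K0, hK0⟩ := exists_nat_gt (16 * C / δ)
  set K : ℕ := K0 + 1 with hK
  have hKpos : (0 : ℝ) < K := by rw [hK]; positivity
  have hKne : (K : ℝ) ≠ 0 := hKpos.ne'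
  have hKC : 8 * C ≤ K * (δ / 2) := by
    have h3 : 16 * C / δ < K := by
      rw [hK]; push_cast; linarith
    rw [div_lt_iff₀ hδ] at h3
    linarith
  set a : ℕ → ℝ := Function.extend ψ (fun j => (-1) ^ (j + 1) / (K : ℝ)) 0 with ha
  have haψ : ∀ j, a (ψ j) = (-1) ^ (j + 1) / (K : ℝ) := fun j =>
    hψm.injective.extend_apply _ _ j
  have ha0 : ∀ i, a (ψ (2 * i)) = -(1 / (K : ℝ)) := by
    intro i
    rw [haψ, pow_succ, pow_mul]
    norm_num
    rw [neg_div]
    norm_num
  have ha1 : ∀ i, a (ψ (2 * i + 1)) = 1 / (K : ℝ) := by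
    intro i
    rw [haψ, show 2 * i + 1 + 1 = 2 * (i + 1) by ring, pow_mul]
    norm_num
  have hcomb : ∀ u : ℕ → D.toPreDesign.V,
      ∑ n ∈ (Finset.range (2 * K)).image ψ, a n • u n =
        ∑ i ∈ Finset.range K, (1 / (K : ℝ)) • (u (ψ (2 * i + 1)) - u (ψ (2 * i))) := by
    intro u
    rw [Finset.sum_image (fun x _ y _ h => hψm.injective h), smallSup_sum_pairs]
    refine Finset.sum_congr rfl fun i _ => ?_
    rw [ha0, ha1, smul_sub, neg_smul]
    abel
  have hest : ∀ u : ℕ → D.toPreDesign.V, (u = y ∨ u = f) → ∀ (t : D.toPreDesign.Br) (p q : ℕ),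
      |segv t p q (∑ n ∈ (Finset.range (2 * K)).image ψ, a n • u n)| ≤ δ := by
    intro u hu t p q
    have hlev : ∀ n s, u n s ≠ 0 → l n < s.1 ∧ s.1 ≤ r n := by
      rcases hu with rfl | rfl
      · exact hy
      · exact hf
    have hCu : ∀ n, N 6 (u n) ≤ C := by
      rcases hu with rfl | rfl
      · exact hCy'
      · exact hCf
    have h3 := smallSup_pairs D (fun n => u (ψ n)) (fun n => l (ψ n)) (fun n => r (ψ n))
      (fun n => hlr _) (fun n => smallSup_level_mono hlr hrl (hψm (Nat.lt_succ_self n)))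
      (fun n s => hlev _ s) C (fun n => hCu _) (δ / 4) hδ4 (hst u hu) K t p q
    rw [hcomb, segv_sum]
    have h4 : ∑ i ∈ Finset.range K,
        segv t p q ((1 / (K : ℝ)) • (u (ψ (2 * i + 1)) - u (ψ (2 * i)))) =
        (1 / (K : ℝ)) * ∑ i ∈ Finset.range K, segv t p q (u (ψ (2 * i + 1)) - u (ψ (2 * i))) := by
      rw [Finset.mul_sum]
      exact Finset.sum_congr rfl fun i _ => segv_smul _ _ _ _ _
    rw [h4, abs_mul, abs_of_pos (by positivity : (0 : ℝ) < 1 / K)]
    calc 1 / (K : ℝ) * |∑ i ∈ Finset.range K, segv t p q (u (ψ (2 * i + 1)) - u (ψ (2 * i)))|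
        ≤ 1 / (K : ℝ) * (8 * C + K * (2 * (δ / 4))) :=
          mul_le_mul_of_nonneg_left h3 (by positivity)
      _ ≤ 1 / (K : ℝ) * (K * δ) := by
          refine mul_le_mul_of_nonneg_left ?_ (by positivity)
          linarith
      _ = δ := by field_simp
  refine ⟨(Finset.range (2 * K)).image ψ, a, ?_, ?_, fun t p q =>
    ⟨hest y (Or.inl rfl) t p q, hest f (Or.inr rfl) t p q⟩⟩
  · intro n hn
    obtain ⟨j, -, rfl⟩ := Finset.mem_image.1 hn
    exact hψn j
  · rw [Finset.sum_image (fun x _ y _ h => hψm.injective h), smallSup_sum_pairs]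
    have h3 : ∀ i ∈ Finset.range K, |a (ψ (2 * i))| + |a (ψ (2 * i + 1))| = 2 / (K : ℝ) := by
      intro i _
      rw [ha0, ha1, abs_neg, abs_of_pos (by positivity : (0 : ℝ) < 1 / K)]
      ring
    rw [Finset.sum_congr rfl h3, Finset.sum_const, Finset.card_range, nsmul_eq_mul]
    field_simp

end Pool.Agent.L1F
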