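import Pool.Agent.Work.MP_3dfed9_an.Forced
import Pool.Agent.Work.MP_3dfed9_an.AvgAPI

/-!
# MP_3dfed9_an : lemmas for the conclusion (section 8)
-/

set_option autoImplicit false

namespace Pool.Agent.L1F

open Finset PreDesign Filter Topology

variable {X Y : Type} [NormedAddCommGroup X] [NormedSpace ℝ X] [NormedAddCommGroup Y]
  [NormedSpace ℝ Y]

/-- the functionals of `X` are square summable on each level -/
theorem level_sq (D : Design) (B : D.toPreDesign.V →ₗ[ℝ] X) (hB : ∀ f, ‖B f‖ ≤ N ⊤ f)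
    (ψ : X →L[ℝ] ℝ) (m : ℕ) :
    ∑ s : (∀ k : Fin m, D.toPreDesign.Io k), (ψ (B (bv ⟨m, s⟩))) ^ 2 ≤ ‖ψ‖ ^ 2 := by
  classical
  set a : (∀ k : Fin m, D.toPreDesign.Io k) → ℝ := fun s => ψ (B (bv ⟨m, s⟩)) with ha
  set f : D.toPreDesign.V := ∑ s, a s • bv ⟨m, s⟩ with hf
  have hval : ∀ s : (∀ k : Fin m, D.toPreDesign.Io k), f ⟨m, s⟩ = a s := by
    intro s
    rw [hf, Finsupp.finsetSum_apply]
    rw [Finset.sum_eq_single s]
    · simp [bv]
    · intro s' _ hs'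
      have hne : (⟨m, s'⟩ : D.toPreDesign.Node) ≠ ⟨m, s⟩ := by
        intro h
        apply hs'
        simpa using h
      simp [bv, Finsupp.single_eq_of_ne hne.symm]
    · intro h; exact absurd (Finset.mem_univ _) h
  have hlev : ∀ s : D.toPreDesign.Node, f s ≠ 0 → s.1 = m := by
    intro s hs
    by_contra hne
    apply hs
    rw [hf, Finsupp.finsetSum_apply]
    refine Finset.sum_eq_zero fun s' _ => ?_
    have hne' : s ≠ (⟨m, s'⟩ : D.toPreDesign.Node) := by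
      rintro rfl
      exact hne rfl
    simp [bv, Finsupp.single_eq_of_ne hne']
  have hsum : ∑ s ∈ f.support, f s ^ 2 ≤ ∑ s, a s ^ 2 := by
    have h1 : f.support ⊆ Finset.univ.image
        (fun s : (∀ k : Fin m, D.toPreDesign.Io k) => (⟨m, s⟩ : D.toPreDesign.Node)) := by
      rintro ⟨l, s⟩ hs
      have h2 := hlev _ (Finsupp.mem_support_iff.1 hs)
      simp only at h2
      subst h2
      exact Finset.mem_image.2 ⟨s, Finset.mem_univ _, rfl⟩
    refine (Finset.sum_le_sum_of_subset_of_nonneg h1 (fun _ _ _ => sq_nonneg _)).trans ?_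
    rw [Finset.sum_image (fun s _ s' _ h => by simpa using h)]
    exact Finset.sum_le_sum fun s _ => by rw [hval]
  have hψ : ψ (B f) = ∑ s, a s ^ 2 := by
    rw [hf, map_sum, map_sum]
    refine Finset.sum_congr rfl fun s _ => ?_
    rw [map_smul, map_smul, smul_eq_mul, sq]
  set Q := ∑ s, a s ^ 2 with hQ
  have hQ0 : 0 ≤ Q := Finset.sum_nonneg fun _ _ => sq_nonneg _
  have h1 : Q ≤ ‖ψ‖ * Real.sqrt Q := by
    calc Q = ψ (B f) := hψ.symm
      _ ≤ ‖ψ (B f)‖ := Real.le_norm_self _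
      _ ≤ ‖ψ‖ * ‖B f‖ := ψ.le_opNorm _
      _ ≤ ‖ψ‖ * Real.sqrt Q := by
        refine mul_le_mul_of_nonneg_left ?_ (norm_nonneg _)
        exact (hB f).trans ((N_level ⊤ m f hlev).trans (Real.sqrt_le_sqrt hsum))
  have h2 : Real.sqrt Q * Real.sqrt Q = Q := Real.mul_self_sqrt hQ0
  by_cases h0 : Real.sqrt Q = 0
  · rw [← h2, h0, mul_zero]; positivity
  · have hpos : 0 < Real.sqrt Q := lt_of_le_of_ne (Real.sqrt_nonneg _) (Ne.symm h0)
    have h3 : Real.sqrt Q ≤ ‖ψ‖ := by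
      have : Real.sqrt Q * Real.sqrt Q ≤ ‖ψ‖ * Real.sqrt Q := by rw [h2]; exact h1
      exact le_of_mul_le_mul_right this hpos
    calc Q = Real.sqrt Q ^ 2 := by rw [sq, h2]
      _ ≤ ‖ψ‖ ^ 2 := pow_le_pow_left₀ (Real.sqrt_nonneg _) h3 2

/-- the number of `0-1` sequences of length `M` with a given beginning of length `m` -/
theorem card_begin (m M : ℕ) (hM : m ≤ M) (z : Fin m → Bool) :
    ((Finset.univ.filter (fun y : Fin M → Bool => ∀ k : Fin m, y (Fin.castLE hM k) = z k)).card : ℝ)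
      ≤ 2 ^ (M - m) := by
  classical
  obtain ⟨d, rfl⟩ := Nat.exists_eq_add_of_le hM
  have h1 : (Finset.univ.filter
      (fun y : Fin (m + d) → Bool => ∀ k : Fin m, y (Fin.castLE hM k) = z k)).card ≤
      (Finset.univ : Finset (Fin d → Bool)).card := by
    refine Finset.card_le_card_of_injOn (fun y j => y (Fin.natAdd m j))
      (fun _ _ => Finset.mem_univ _) ?_
    intro y hy y' hy' hyy
    simp only [Finset.coe_filter, Finset.mem_univ, true_and, Set.mem_ofPred_eq] at hy hy'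
    funext i
    refine Fin.addCases (fun k => ?_) (fun j => ?_) i
    · exact (hy k).trans (hy' k).symm
    · exact congrFun hyy j
  have h2 : (Finset.univ : Finset (Fin d → Bool)).card = 2 ^ d := by
    rw [Finset.card_univ]; simp
  rw [h2] at h1
  have h3 : m + d - m = d := by omega
  rw [h3]
  exact_mod_cast h1

/-- the mean square of a functional on the nodes of level `m` -/
theorem avg_sq_le (D : Design) (a : D.toPreDesign.Node → ℝ) (m M : ℕ) (hM : m ≤ M) (Q : ℝ)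
    (hQ : ∑ s : (∀ k : Fin m, D.toPreDesign.Io k), a ⟨m, s⟩ ^ 2 ≤ Q) :
    avg (A := D.A) M (fun h x => a (nd (tb h x) m) ^ 2) ≤ Q / 2 ^ m := by
  classical
  unfold avg
  rw [div_le_div_iff₀ (avg_den_pos M) (by positivity)]
  have key : ∀ g : (∀ k : Fin M, D.A k),
      ∑ y : (Fin M → Bool), a (nd (tb (ext g) (ext (A := fun _ => Bool) y)) m) ^ 2 ≤
        2 ^ (M - m) * Q := by
    intro g
    set F : (Fin M → Bool) → (∀ k : Fin m, D.toPreDesign.Io k) :=
      fun y => (nd (tb (ext g) (ext (A := fun _ => Bool) y)) m).2 with hF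
    have h1 : ∑ y : (Fin M → Bool), a (nd (tb (ext g) (ext (A := fun _ => Bool) y)) m) ^ 2 =
        ∑ s : (∀ k : Fin m, D.toPreDesign.Io k), ∑ y ∈ Finset.univ.filter (fun y => F y = s),
          a ⟨m, s⟩ ^ 2 := by
      rw [← Finset.sum_fiberwise Finset.univ F]
      refine Finset.sum_congr rfl fun s _ => Finset.sum_congr rfl fun y hy => ?_
      rw [Finset.mem_filter] at hy
      rw [← hy.2]
      rfl
    rw [h1]
    have h2 : ∀ s : (∀ k : Fin m, D.toPreDesign.Io k),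
        ∑ y ∈ Finset.univ.filter (fun y => F y = s), a ⟨m, s⟩ ^ 2 ≤
          2 ^ (M - m) * a ⟨m, s⟩ ^ 2 := by
      intro s
      rw [Finset.sum_const, nsmul_eq_mul]
      refine mul_le_mul_of_nonneg_right ?_ (sq_nonneg _)
      refine le_trans ?_ (card_begin m M hM (fun k => (s k).1))
      have h3 : (Finset.univ.filter (fun y => F y = s)) ⊆
          (Finset.univ.filter
            (fun y : Fin M → Bool => ∀ k : Fin m, y (Fin.castLE hM k) = (s k).1)) := by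
        intro y hy
        rw [Finset.mem_filter] at hy ⊢
        refine ⟨Finset.mem_univ _, fun k => ?_⟩
        rw [← hy.2]
        have h4 : (k : ℕ) < M := lt_of_lt_of_le k.2 hM
        simp only [hF, nd, tb, ext, h4, dif_pos]
        rfl
      exact_mod_cast Finset.card_le_card h3
    refine (Finset.sum_le_sum fun s _ => h2 s).trans ?_
    rw [← Finset.mul_sum]
    exact mul_le_mul_of_nonneg_left hQ (by positivity)
  have h5 : ∑ g : (∀ k : Fin M, D.A k),
      ∑ y : (Fin M → Bool), a (nd (tb (ext g) (ext (A := fun _ => Bool) y)) m) ^ 2 ≤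
        (Fintype.card (∀ k : Fin M, D.A k) : ℝ) * (2 ^ (M - m) * Q) := by
    refine (Finset.sum_le_sum fun g _ => key g).trans ?_
    rw [Finset.sum_const, Finset.card_univ, nsmul_eq_mul]
  have h6 : (2 : ℝ) ^ (M - m) * 2 ^ m = 2 ^ M := by rw [← pow_add]; congr 1; omega
  calc (∑ g : (∀ k : Fin M, D.A k),
      ∑ y : (Fin M → Bool), a (nd (tb (ext g) (ext (A := fun _ => Bool) y)) m) ^ 2) * 2 ^ m
      ≤ ((Fintype.card (∀ k : Fin M, D.A k) : ℝ) * (2 ^ (M - m) * Q)) * 2 ^ m :=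
        mul_le_mul_of_nonneg_right h5 (by positivity)
    _ = Q * ((Fintype.card (∀ k : Fin M, D.A k) : ℝ) * 2 ^ M) := by rw [← h6]; ring

/-- (F4) finite rank operators are small on most nodes of high level -/
theorem F4 (D : Design) (B : D.toPreDesign.V →ₗ[ℝ] X) (hB : ∀ f, ‖B f‖ ≤ N ⊤ f)
    (φ : ℕ → (X →L[ℝ] ℝ)) (e : ℕ → Y) (n m0 : ℕ) (η : ℝ) (hη : 0 < η) :
    ∃ m1, m0 < m1 ∧ ∀ M ≥ m1, avg (A := D.A) M (fun h x =>
      ‖∑ i ∈ Finset.range n, φ i (B (bv (nd (tb h x) m1))) • e i‖) ≤ η := by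
  set S1 := ∑ i ∈ Finset.range n, ‖e i‖ with hS1
  set S2 := ∑ i ∈ Finset.range n, ‖e i‖ * ‖φ i‖ ^ 2 with hS2
  have hS10 : 0 ≤ S1 := Finset.sum_nonneg fun _ _ => norm_nonneg _
  have hS20 : 0 ≤ S2 := Finset.sum_nonneg fun _ _ => by positivity
  set δ := η / (2 * (S1 + 1)) with hδ
  have hδ0 : 0 < δ := by positivity
  have hlim : Tendsto (fun m : ℕ => S2 / (4 * δ) * (1 / 2 : ℝ) ^ m) atTop (𝓝 0) := by
    have := (tendsto_pow_atTop_nhds_zero_of_lt_one (r := (1 / 2 : ℝ)) (by norm_num)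
      (by norm_num)).const_mul (S2 / (4 * δ))
    simpa using this
  obtain ⟨m1, hm1, hm1'⟩ := ((hlim.eventually (ge_mem_nhds (half_pos hη))).and
    (eventually_gt_atTop m0)).exists
  refine ⟨m1, hm1', fun M hM => ?_⟩
  have hi : ∀ i, avg (A := D.A) M (fun h x => ‖e i‖ * |φ i (B (bv (nd (tb h x) m1)))|) ≤
      ‖e i‖ * (δ + ‖φ i‖ ^ 2 / 2 ^ m1 / (4 * δ)) := by
    intro i
    rw [avg_smul]
    refine mul_le_mul_of_nonneg_left ?_ (norm_nonneg _)
    have h1 : avg (A := D.A) M (fun h x => |φ i (B (bv (nd (tb h x) m1)))|) ≤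
        avg (A := D.A) M (fun h x => δ + 1 / (4 * δ) * (φ i (B (bv (nd (tb h x) m1)))) ^ 2) := by
      refine avg_mono M _ _ fun h x => ?_
      set b := φ i (B (bv (nd (tb h x) m1))) with hb
      have h2 : 0 ≤ (2 * δ - |b|) ^ 2 := sq_nonneg _
      have h3 : |b| ^ 2 = b ^ 2 := sq_abs b
      have h4 : |b| * (4 * δ) ≤ (δ + 1 / (4 * δ) * b ^ 2) * (4 * δ) := by
        have h5 : (δ + 1 / (4 * δ) * b ^ 2) * (4 * δ) = 4 * δ ^ 2 + b ^ 2 := by
          field_simp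
        rw [h5]
        nlinarith
      exact le_of_mul_le_mul_right h4 (by positivity)
    refine h1.trans ?_
    rw [avg_add, avg_const, avg_smul]
    have h2 := avg_sq_le D (fun s => φ i (B (bv s))) m1 M hM (‖φ i‖ ^ 2)
      (level_sq D B hB (φ i) m1)
    have h3 : 1 / (4 * δ) * avg (A := D.A) M
        (fun h x => (φ i (B (bv (nd (tb h x) m1)))) ^ 2) ≤ ‖φ i‖ ^ 2 / 2 ^ m1 / (4 * δ) := by
      rw [one_div, inv_mul_eq_div]
      exact div_le_div_of_nonneg_right h2 (by positivity)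
    linarith
  have h6 : avg (A := D.A) M (fun h x =>
      ‖∑ i ∈ Finset.range n, φ i (B (bv (nd (tb h x) m1))) • e i‖) ≤
      ∑ i ∈ Finset.range n, ‖e i‖ * (δ + ‖φ i‖ ^ 2 / 2 ^ m1 / (4 * δ)) := by
    refine le_trans (avg_mono M _ (fun h x => ∑ i ∈ Finset.range n,
      ‖e i‖ * |φ i (B (bv (nd (tb h x) m1)))|) fun h x => ?_) ?_
    · refine (norm_sum_le _ _).trans (Finset.sum_le_sum fun i _ => ?_)
      rw [norm_smul, Real.norm_eq_abs, mul_comm]
    · rw [avg_sum]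
      exact Finset.sum_le_sum fun i _ => hi i
  refine h6.trans ?_
  have h7 : ∑ i ∈ Finset.range n, ‖e i‖ * (δ + ‖φ i‖ ^ 2 / 2 ^ m1 / (4 * δ)) =
      S1 * δ + S2 / (4 * δ) * (1 / 2) ^ m1 := by
    rw [hS1, hS2, Finset.sum_mul, Finset.sum_div, Finset.sum_mul, ← Finset.sum_add_distrib]
    refine Finset.sum_congr rfl fun i _ => ?_
    rw [one_div, inv_pow]
    field_simp
  rw [h7]
  have h8 : S1 * δ ≤ η / 2 := by
    rw [hδ, mul_div_assoc', div_le_div_iff₀ (by positivity) (by positivity)]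
    nlinarith
  linarith

/-- (F5) -/
theorem F5 (D : Design) (B : D.toPreDesign.V →ₗ[ℝ] X) (J : X →L[ℝ] Y) (T : ℕ → (X →L[ℝ] Y))
    (hT : ∀ x, Tendsto (fun n => T n x) atTop (𝓝 (J x))) (m0 : ℕ) (η : ℝ) (hη : 0 < η) :
    ∃ n, ∀ s : D.toPreDesign.Node, s.1 = m0 → ‖T n (B (bv s)) - J (B (bv s))‖ ≤ η := by
  have h1 : ∀ s : (∀ k : Fin m0, D.toPreDesign.Io k), ∀ᶠ n in atTop,
      ‖T n (B (bv ⟨m0, s⟩)) - J (B (bv ⟨m0, s⟩))‖ ≤ η := by
    intro s
    have h2 := (tendsto_iff_norm_sub_tendsto_zero.1 (hT (B (bv ⟨m0, s⟩))))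
    exact h2.eventually (ge_mem_nhds hη)
  obtain ⟨n, hn⟩ := (eventually_all.2 h1).exists
  refine ⟨n, ?_⟩
  rintro ⟨m, s⟩ hm
  simp only at hm
  subst hm
  exact hn s

theorem trunc_congr {D : PreDesign} {M : ℕ} {t t' : D.Br} (h : ∀ j < M, t j = t' j) :
    trunc M t = trunc M t' := by
  funext k
  unfold trunc
  split_ifs with hk
  · exact h k hk
  · rfl

/-- the expectation of the sum of the brackets -/
theorem EG (D : Design) (T : D.toPreDesign.V →ₗ[ℝ] Y) (CT : ℝ) (hCT : 0 ≤ CT)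
    (hT : ∀ f, ‖T f‖ ≤ CT * N ⊤ f) (w : D.toPreDesign.Br → (Y →L[ℝ] ℝ)) (Cw : ℝ) (hCw : 0 ≤ Cw)
    (hw : ∀ t, ‖w t‖ ≤ Cw) (n m1 M : ℕ) (hn : 2 ≤ n) (hnm : n < m1) (hM : m1 ≤ M) (η : ℝ)
    (h5 : ∀ t : D.toPreDesign.Br, 1 - η ≤ w (trunc M t) (T (bv (nd t n))))
    (h4 : avg (A := D.A) M (fun h x => ‖T (bv (nd (tb h x) m1))‖) ≤ η) :
    1 - η - Cw * η - Cw * CT * (8 / 2 ^ n) ≤
      avg (A := D.A) M (fun h x => ∑ k ∈ Finset.Ico n m1,
        brk ((w (trunc M (tb h x))).toLinearMap ∘ₗ T) h k (tb h x)) := by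
  set Φ : D.toPreDesign.Br → (D.toPreDesign.V →ₗ[ℝ] ℝ) :=
    fun t => (w (trunc M t)).toLinearMap ∘ₗ T with hΦ
  have hΦb : ∀ t f, |Φ t f| ≤ Cw * CT * N ⊤ f := by
    intro t f
    have h1 : |Φ t f| ≤ ‖w (trunc M t)‖ * ‖T f‖ := (w (trunc M t)).le_opNorm (T f)
    calc |Φ t f| ≤ ‖w (trunc M t)‖ * ‖T f‖ := h1
      _ ≤ Cw * (CT * N ⊤ f) := mul_le_mul (hw _) (hT f) (norm_nonneg _) hCw
      _ = _ := by ring
  have hk : ∀ k ∈ Finset.Ico n m1, avg (A := D.A) M (fun h x =>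
      Φ (tb h x) (bv (nd (tb h x) k)) - Φ (tb h x) (bv (nd (tb h x) (k + 1)))
        - Cw * CT * (4 / 2 ^ k)) ≤
      avg (A := D.A) M (fun h x => brk (Φ (tb h x)) h k (tb h x)) := by
    intro k hk
    rw [Finset.mem_Ico] at hk
    rw [avg_posterior D k M (by omega) (fun h t => brk (Φ t) h k t) ?_]
    · refine avg_mono M _ _ fun h x => ?_
      exact forced D (Φ (tb h x)) (Cw * CT) (by positivity) (hΦb _) (tb h x) k (by omega)
        (Lset_tb_nonempty D h x k)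
    · intro h h' t t' hh ht
      have h1 : Φ t = Φ t' := by
        show (w (trunc M t)).toLinearMap ∘ₗ T = (w (trunc M t')).toLinearMap ∘ₗ T
        rw [trunc_congr ht]
      show brk (Φ t) h k t = brk (Φ t') h' k t'
      rw [h1]
      exact brk_congr _ hh fun j hj => ht j (by omega)
  rw [avg_sum]
  refine le_trans ?_ (Finset.sum_le_sum hk)
  rw [← avg_sum]
  have htel : ∀ (h : ∀ k, D.A k) (x : ℕ → Bool), ∑ k ∈ Finset.Ico n m1,
      (Φ (tb h x) (bv (nd (tb h x) k)) - Φ (tb h x) (bv (nd (tb h x) (k + 1)))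
        - Cw * CT * (4 / 2 ^ k)) =
      Φ (tb h x) (bv (nd (tb h x) n)) - Φ (tb h x) (bv (nd (tb h x) m1))
        - Cw * CT * ∑ k ∈ Finset.Ico n m1, (4 / 2 ^ k : ℝ) := by
    intro h x
    rw [Finset.sum_sub_distrib, Finset.mul_sum]
    congr 1
    have := Finset.sum_Ico_sub (fun k => -Φ (tb h x) (bv (nd (tb h x) k))) hnm.le
    rw [show (∑ k ∈ Finset.Ico n m1, (Φ (tb h x) (bv (nd (tb h x) k)) -
      Φ (tb h x) (bv (nd (tb h x) (k + 1))))) = ∑ k ∈ Finset.Ico n m1,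
      (-Φ (tb h x) (bv (nd (tb h x) (k + 1))) - -Φ (tb h x) (bv (nd (tb h x) k))) from
        Finset.sum_congr rfl fun k _ => by ring, this]
    ring
  simp_rw [htel]
  rw [avg_sub, avg_sub, avg_const]
  have e1 : 1 - η ≤ avg (A := D.A) M (fun h x => Φ (tb h x) (bv (nd (tb h x) n))) := by
    have := avg_mono (A := D.A) M (fun _ _ => 1 - η)
      (fun h x => Φ (tb h x) (bv (nd (tb h x) n))) fun h x => h5 (tb h x)
    rwa [avg_const] at this
  have e2 : avg (A := D.A) M (fun h x => Φ (tb h x) (bv (nd (tb h x) m1))) ≤ Cw * η := by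
    calc avg (A := D.A) M (fun h x => Φ (tb h x) (bv (nd (tb h x) m1)))
        ≤ avg (A := D.A) M (fun h x => Cw * ‖T (bv (nd (tb h x) m1))‖) := by
          refine avg_mono M _ _ fun h x => ?_
          have h1 : Φ (tb h x) (bv (nd (tb h x) m1)) ≤
              ‖w (trunc M (tb h x))‖ * ‖T (bv (nd (tb h x) m1))‖ :=
            (Real.le_norm_self _).trans ((w (trunc M (tb h x))).le_opNorm _)
          exact h1.trans (mul_le_mul_of_nonneg_right (hw _) (norm_nonneg _))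
      _ = Cw * avg (A := D.A) M (fun h x => ‖T (bv (nd (tb h x) m1))‖) := avg_smul _ _ _
      _ ≤ Cw * η := mul_le_mul_of_nonneg_left h4 hCw
  have e3 : ∑ k ∈ Finset.Ico n m1, (4 / 2 ^ k : ℝ) ≤ 8 / 2 ^ n := by
    have h1 : ∀ m, n ≤ m → ∑ k ∈ Finset.Ico n m, (4 / 2 ^ k : ℝ) = 8 / 2 ^ n - 8 / 2 ^ m := by
      intro m hm
      induction m, hm using Nat.le_induction with
      | base => simp
      | succ m hm ih =>
        rw [Finset.sum_Ico_succ_top hm, ih, pow_succ]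
        field_simp
        ring
    rw [h1 m1 hnm.le]
    have : (0 : ℝ) < 8 / 2 ^ m1 := by positivity
    linarith
  have e4 : Cw * CT * ∑ k ∈ Finset.Ico n m1, (4 / 2 ^ k : ℝ) ≤ Cw * CT * (8 / 2 ^ n) :=
    mul_le_mul_of_nonneg_left e3 (by positivity)
  linarith

end Pool.Agent.L1F
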